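import Pool.Agent.H24.LR.Ord

/-!
# LR Auxil

Siegel's lemma (`Int.Matrix.exists_ne_zero_int_vec_norm_le` in Mathlib.NumberTheory.SiegelsLemma). Unknowns: the coefficients `c_(j,l)`, `j < 4`,
`l ≤ m`; equations: for `i < k` and `e < d`, the coefficient of `X^e` in `(∑_j X^j hasseDeriv i P_j) %ₘ g` is `0`. The entry for `(i,e),(j,l)` is
`binom(l,i) · coeff_e (X^{j+l-i} %ₘ g)` (`0` if `i > l`), and `|coeff_e (X^n %ₘ g)| ≤ (1+e^A)^n` (induction:
`X^{n+1} %ₘ g = X r - (coeff_{d-1} r) g`), `binom(l,i) ≤ 2^l`; so the matrix has norm `≤ exp((A+2)(m+3))`. `N = 4(m+1)` unknowns,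
`M = dk` equations, `1000 N ≥ 1001 M`, so the exponent `M/(N-M)` is `≤ 1000`, and the solution has norm
`≤ (N exp((A+2)(m+3)))^1000 ≤ exp(K (m+1) A)`.
-/

namespace Pool.Agent.H24.LR

open Finset Polynomial

/-- One division step: `X^(n+1) %ₘ g = X r - (coeff_(d-1) r) g` for `r = X^n %ₘ g`. -/
private theorem pow_succ_mod {g : ℤ[X]} (hg : g.Monic) (hd : 0 < g.natDegree) (n : ℕ) :
    (X ^ (n + 1) : ℤ[X]) %ₘ g =
      X * (X ^ n %ₘ g) - C ((X ^ n %ₘ g).coeff (g.natDegree - 1)) * g := by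
  set r := (X ^ n : ℤ[X]) %ₘ g with hr
  set c := r.coeff (g.natDegree - 1) with hc
  have hrdeg : ∀ i, g.natDegree ≤ i → r.coeff i = 0 := by
    intro i hi
    apply coeff_eq_zero_of_degree_lt
    refine lt_of_lt_of_le (degree_modByMonic_lt _ hg) ?_
    rw [degree_eq_natDegree hg.ne_zero]
    exact_mod_cast hi
  have h := (div_modByMonic_unique (f := (X ^ (n + 1) : ℤ[X])) (g := g)
    (X * ((X ^ n : ℤ[X]) /ₘ g) + C c) (X * r - C c * g) hg ⟨?_, ?_⟩).2
  · exact h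
  · have h1 : r + g * ((X ^ n : ℤ[X]) /ₘ g) = X ^ n := modByMonic_add_div _ g
    have h2 : X * r - C c * g + g * (X * ((X ^ n : ℤ[X]) /ₘ g) + C c) =
        X * (r + g * ((X ^ n : ℤ[X]) /ₘ g)) := by ring
    rw [h2, h1, pow_succ']
  · rw [degree_eq_natDegree hg.ne_zero, degree_lt_iff_coeff_zero]
    intro i hi
    obtain ⟨i, rfl⟩ : ∃ i', i = i' + 1 := ⟨i - 1, by omega⟩
    rw [coeff_sub, coeff_X_mul, coeff_C_mul]
    rcases eq_or_lt_of_le hi with h | h
    · have h3 : i = g.natDegree - 1 := by omega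
      rw [← h, h3, ← hc]
      have h4 : g.coeff g.natDegree = 1 := hg
      rw [h4]
      ring
    · rw [hrdeg i (by omega), coeff_eq_zero_of_natDegree_lt h]
      ring

private theorem coeff_pow_mod {g : ℤ[X]} (hg : g.Monic) (hd : 0 < g.natDegree) {A : ℝ}
    (hA : ∀ i, |(g.coeff i : ℝ)| ≤ Real.exp A) (n i : ℕ) :
    |(((X ^ n : ℤ[X]) %ₘ g).coeff i : ℝ)| ≤ (1 + Real.exp A) ^ n := by
  have hE : 0 < Real.exp A := Real.exp_pos A
  induction n generalizing i with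
  | zero =>
    have h1 : (X ^ 0 : ℤ[X]) %ₘ g = 1 := by
      rw [pow_zero, modByMonic_eq_self_iff hg, degree_one, degree_eq_natDegree hg.ne_zero]
      exact_mod_cast hd
    rw [h1, coeff_one, pow_zero]
    split_ifs <;> simp
  | succ n ih =>
    rw [pow_succ_mod hg hd, coeff_sub, coeff_C_mul]
    have h1 : |((X * (X ^ n %ₘ g) : ℤ[X]).coeff i : ℝ)| ≤ (1 + Real.exp A) ^ n := by
      rcases i with _ | i
      · rw [coeff_X_mul_zero]
        simp only [Int.cast_zero, abs_zero]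
        positivity
      · rw [coeff_X_mul]
        exact ih i
    push_cast
    refine (abs_sub _ _).trans ?_
    rw [abs_mul]
    have h2 := mul_le_mul (ih (g.natDegree - 1)) (hA i) (abs_nonneg _) (by positivity)
    calc _ ≤ (1 + Real.exp A) ^ n + (1 + Real.exp A) ^ n * Real.exp A := add_le_add h1 h2
      _ = _ := by ring

theorem exists_aux : ∃ K : ℝ, 1 ≤ K ∧ ∀ (g : ℤ[X]), g.Monic → 0 < g.natDegree → ∀ A : ℝ, 1 ≤ A →
    (∀ i, |(g.coeff i : ℝ)| ≤ Real.exp A) → ∀ k m : ℕ, 0 < k →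
    1001 * (g.natDegree * k) ≤ 4000 * (m + 1) →
    ∃ P : Fin 4 → ℤ[X], IsAux g k m P ∧
      ∀ j i, |((P j).coeff i : ℝ)| ≤ Real.exp (K * (m + 1) * A) := by
  refine ⟨13000, by norm_num, ?_⟩
  intro g hg hd A hA hgA k m hk hkm
  let : SeminormedAddCommGroup (Matrix (Fin k × Fin g.natDegree) (Fin 4 × Fin (m + 1)) ℤ) :=
    Matrix.seminormedAddCommGroup
  let a : Matrix (Fin k × Fin g.natDegree) (Fin 4 × Fin (m + 1)) ℤ := fun p q =>
    ((X ^ (q.1 : ℕ) * hasseDeriv (p.1 : ℕ) (monomial (q.2 : ℕ) (1 : ℤ)) : ℤ[X]) %ₘ g).coeff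
      (p.2 : ℕ)
  have hm1 : (0 : ℝ) ≤ (m : ℝ) := Nat.cast_nonneg m
  have hab : ∀ p q, |(a p q : ℝ)| ≤ Real.exp (9 * A * (m + 1)) := by
    intro p q
    have hq : (q.2 : ℕ) ≤ m := Nat.lt_succ_iff.mp q.2.2
    have hq1 : (q.1 : ℕ) ≤ 3 := Nat.lt_succ_iff.mp q.1.2
    have h1 : (X ^ (q.1 : ℕ) * hasseDeriv (p.1 : ℕ) (monomial (q.2 : ℕ) (1 : ℤ)) : ℤ[X]) =
        (((q.2 : ℕ).choose (p.1 : ℕ) : ℕ) : ℤ) •
          (X ^ ((q.1 : ℕ) + ((q.2 : ℕ) - (p.1 : ℕ))) : ℤ[X]) := by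
      rw [hasseDeriv_monomial, ← C_mul_X_pow_eq_monomial, smul_eq_C_mul, pow_add, mul_one]
      ring
    have h2 : a p q = (((q.2 : ℕ).choose (p.1 : ℕ) : ℕ) : ℤ) *
        ((X ^ ((q.1 : ℕ) + ((q.2 : ℕ) - (p.1 : ℕ))) : ℤ[X]) %ₘ g).coeff (p.2 : ℕ) := by
      show ((X ^ (q.1 : ℕ) * hasseDeriv (p.1 : ℕ) (monomial (q.2 : ℕ) (1 : ℤ)) : ℤ[X]) %ₘ
        g).coeff (p.2 : ℕ) = _
      rw [h1, smul_modByMonic, coeff_smul, smul_eq_mul]
    rw [h2]
    push_cast
    rw [abs_mul]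
    have hE1 : 1 ≤ Real.exp A := Real.one_le_exp (by linarith)
    have hc : |(((q.2 : ℕ).choose (p.1 : ℕ) : ℕ) : ℝ)| ≤ Real.exp 1 ^ m := by
      rw [abs_of_nonneg (Nat.cast_nonneg _)]
      have h3 : (q.2 : ℕ).choose (p.1 : ℕ) ≤ 2 ^ (q.2 : ℕ) := Nat.choose_le_two_pow _ _
      have h4 : (((q.2 : ℕ).choose (p.1 : ℕ) : ℕ) : ℝ) ≤ 2 ^ (q.2 : ℕ) := by exact_mod_cast h3
      have h5 : (2 : ℝ) ^ (q.2 : ℕ) ≤ 2 ^ m := pow_le_pow_right₀ (by norm_num) hq
      have h6 : (2 : ℝ) ^ m ≤ Real.exp 1 ^ m :=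
        pow_le_pow_left₀ (by norm_num) (by linarith [Real.add_one_le_exp (1 : ℝ)]) m
      linarith
    have hr := coeff_pow_mod hg hd hgA ((q.1 : ℕ) + ((q.2 : ℕ) - (p.1 : ℕ))) (p.2 : ℕ)
    have hb : 1 + Real.exp A ≤ Real.exp (A + 1) := by
      have h7 : 2 ≤ Real.exp 1 := by linarith [Real.add_one_le_exp (1 : ℝ)]
      rw [Real.exp_add]
      nlinarith
    have hr2 : (1 + Real.exp A) ^ ((q.1 : ℕ) + ((q.2 : ℕ) - (p.1 : ℕ))) ≤
        Real.exp (A + 1) ^ (m + 3) := by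
      calc (1 + Real.exp A) ^ ((q.1 : ℕ) + ((q.2 : ℕ) - (p.1 : ℕ)))
          ≤ (1 + Real.exp A) ^ (m + 3) := pow_le_pow_right₀ (by linarith) (by omega)
        _ ≤ _ := pow_le_pow_left₀ (by linarith) hb _
    calc _ ≤ Real.exp 1 ^ m * Real.exp (A + 1) ^ (m + 3) :=
          mul_le_mul hc (hr.trans hr2) (abs_nonneg _) (by positivity)
      _ = Real.exp ((m : ℝ) * 1 + ((m + 3 : ℕ) : ℝ) * (A + 1)) := by
          rw [← Real.exp_nat_mul, ← Real.exp_nat_mul, ← Real.exp_add]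
      _ ≤ Real.exp (9 * A * (m + 1)) := by
          apply Real.exp_le_exp.mpr
          push_cast
          nlinarith [mul_nonneg hm1 (sub_nonneg.mpr hA)]
  have hnorm : ‖a‖ ≤ Real.exp (9 * A * (m + 1)) := by
    rw [Matrix.norm_le_iff (Real.exp_pos _).le]
    intro p q
    rw [Int.norm_eq_abs]
    exact_mod_cast hab p q
  have hcα : Fintype.card (Fin k × Fin g.natDegree) = k * g.natDegree := by simp
  have hcβ : Fintype.card (Fin 4 × Fin (m + 1)) = 4 * (m + 1) := by simp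
  have hM : 1001 * (k * g.natDegree) ≤ 1000 * (4 * (m + 1)) := by
    rw [mul_comm k]
    omega
  have hlt : Fintype.card (Fin k × Fin g.natDegree) < Fintype.card (Fin 4 × Fin (m + 1)) := by
    rw [hcα, hcβ]
    omega
  have hpos : 0 < Fintype.card (Fin k × Fin g.natDegree) := by
    rw [hcα]
    positivity
  obtain ⟨t, ht0, hta, htn⟩ := Int.Matrix.exists_ne_zero_int_vec_norm_le a hlt hpos
  have htn2 : ‖t‖ ≤ Real.exp (13000 * (m + 1) * A) := by
    refine htn.trans ?_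
    rw [hcα, hcβ]
    have hE : 1 ≤ Real.exp (9 * A * (m + 1)) := Real.one_le_exp (by positivity)
    have h1 : max 1 ‖a‖ ≤ Real.exp (9 * A * (m + 1)) := max_le hE hnorm
    have h2 : ((4 * (m + 1) : ℕ) : ℝ) ≤ Real.exp (4 * A * (m + 1)) := by
      have h3 := Real.add_one_le_exp (4 * A * ((m : ℝ) + 1))
      push_cast
      nlinarith [mul_nonneg (sub_nonneg.mpr hA) (by positivity : (0 : ℝ) ≤ (m : ℝ) + 1)]
    have h4 : ((4 * (m + 1) : ℕ) : ℝ) * max 1 ‖a‖ ≤ Real.exp (13 * A * (m + 1)) := by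
      calc ((4 * (m + 1) : ℕ) : ℝ) * max 1 ‖a‖
          ≤ Real.exp (4 * A * (m + 1)) * Real.exp (9 * A * (m + 1)) :=
            mul_le_mul h2 h1 (le_trans zero_le_one (le_max_left _ _)) (Real.exp_pos _).le
        _ = Real.exp (13 * A * (m + 1)) := by
            rw [← Real.exp_add]
            ring_nf
    have h5 : 1 ≤ ((4 * (m + 1) : ℕ) : ℝ) * max 1 ‖a‖ := by
      have h6 : (1 : ℝ) ≤ ((4 * (m + 1) : ℕ) : ℝ) := by exact_mod_cast (by omega)
      exact one_le_mul_of_one_le_of_one_le h6 (le_max_left _ _)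
    have h7 : ((k * g.natDegree : ℕ) : ℝ) /
        (((4 * (m + 1) : ℕ) : ℝ) - ((k * g.natDegree : ℕ) : ℝ)) ≤ 1000 := by
      have h8 : (1001 : ℝ) * ((k * g.natDegree : ℕ) : ℝ) ≤ 1000 * ((4 * (m + 1) : ℕ) : ℝ) := by
        exact_mod_cast hM
      have h9 : (0 : ℝ) < ((4 * (m + 1) : ℕ) : ℝ) := by positivity
      rw [div_le_iff₀ (by linarith)]
      linarith
    calc (((4 * (m + 1) : ℕ) : ℝ) * max 1 ‖a‖) ^ (((k * g.natDegree : ℕ) : ℝ) /
        (((4 * (m + 1) : ℕ) : ℝ) - ((k * g.natDegree : ℕ) : ℝ)))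
        ≤ (((4 * (m + 1) : ℕ) : ℝ) * max 1 ‖a‖) ^ (1000 : ℝ) :=
          Real.rpow_le_rpow_of_exponent_le h5 h7
      _ ≤ (Real.exp (13 * A * (m + 1))) ^ (1000 : ℝ) :=
          Real.rpow_le_rpow (le_trans zero_le_one h5) h4 (by norm_num)
      _ = Real.exp (13000 * (m + 1) * A) := by
          rw [← Real.exp_mul]
          ring_nf
  refine ⟨fun j => ∑ l : Fin (m + 1), monomial (l : ℕ) (t (j, l)), ⟨?_, ?_, ?_⟩, ?_⟩
  · -- nonzero
    intro h
    apply ht0
    funext q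
    obtain ⟨j, l⟩ := q
    have h1 := congrFun h j
    have h2 := congrArg (fun f : ℤ[X] => f.coeff (l : ℕ)) h1
    simp only [finsetSum_coeff, coeff_monomial, Pi.zero_apply, coeff_zero] at h2
    rw [Finset.sum_eq_single l] at h2
    · simpa using h2
    · intro b _ hb
      rw [if_neg]
      intro h3
      exact hb (Fin.ext h3)
    · intro h3
      exact absurd (Finset.mem_univ l) h3
  · -- degree
    intro j
    apply natDegree_sum_le_of_forall_le
    intro l _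
    exact (natDegree_monomial_le _).trans (Nat.lt_succ_iff.mp l.2)
  · -- divisibility
    intro i hi
    rw [← modByMonic_eq_zero_iff_dvd hg]
    ext e
    rw [coeff_zero]
    by_cases he : e < g.natDegree
    · have h1 := congrFun hta (⟨i, hi⟩, ⟨e, he⟩)
      rw [Pi.zero_apply, Matrix.mulVec, dotProduct, Fintype.sum_prod_type] at h1
      rw [← h1]
      have h2 : (∑ j : Fin 4, (X ^ (j : ℕ) : ℤ[X]) *
          hasseDeriv i (∑ l : Fin (m + 1), monomial (l : ℕ) (t (j, l)))) =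
          ∑ j : Fin 4, ∑ l : Fin (m + 1), t (j, l) •
            ((X ^ (j : ℕ) : ℤ[X]) * hasseDeriv i (monomial (l : ℕ) (1 : ℤ))) := by
        refine Finset.sum_congr rfl fun j _ => ?_
        rw [map_sum, Finset.mul_sum]
        refine Finset.sum_congr rfl fun l _ => ?_
        have h3 : (monomial (l : ℕ) (t (j, l)) : ℤ[X]) = t (j, l) • monomial (l : ℕ) (1 : ℤ) := by
          rw [smul_monomial, smul_eq_mul, mul_one]
        rw [h3, map_smul, mul_smul_comm]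
      rw [h2]
      have h4 : ∀ f : ℤ[X], (f %ₘ g).coeff e = (lcoeff ℤ e ∘ₗ modByMonicHom g) f := fun f => rfl
      rw [h4, map_sum]
      refine Finset.sum_congr rfl fun j _ => ?_
      rw [map_sum]
      refine Finset.sum_congr rfl fun l _ => ?_
      rw [map_smul, smul_eq_mul, mul_comm]
      rfl
    · apply coeff_eq_zero_of_degree_lt
      refine lt_of_lt_of_le (degree_modByMonic_lt _ hg) ?_
      rw [degree_eq_natDegree hg.ne_zero]
      exact_mod_cast not_lt.mp he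
  · -- size
    intro j i
    simp only [finsetSum_coeff, coeff_monomial]
    by_cases hi : i < m + 1
    · rw [Finset.sum_eq_single (⟨i, hi⟩ : Fin (m + 1))]
      · rw [if_pos rfl]
        have h1 : ‖t (j, ⟨i, hi⟩)‖ ≤ ‖t‖ := norm_le_pi_norm t _
        rw [Int.norm_eq_abs] at h1
        have h2 := h1.trans htn2
        exact_mod_cast h2
      · intro b _ hb
        rw [if_neg]
        intro h3
        exact hb (Fin.ext h3)
      · intro h3
        exact absurd (Finset.mem_univ _) h3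
    · rw [Finset.sum_eq_zero]
      · simp only [Int.cast_zero, abs_zero]
        exact (Real.exp_pos _).le
      · intro l _
        rw [if_neg]
        omega

end Pool.Agent.H24.LR
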