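import Pool.Agent.H24.LR.Par

/-!
# LR Can

`can_quad`: by `nh_par_le`, `nh_par_ge` and `h2` the deviation of `g` from the
parallelogram law is bounded by `1000 L` for all pairs; apply it to `2ⁿP, 2ⁿQ` (`g(2ⁿP) = 4ⁿ g P`) and divide by `4ⁿ`; the same for `g ≥ -20 L` (`nh ≥ 0`).
`can_finite`: `nh P ≤ R + 20 L` leaves finitely many `x(P)` (`repX`, `repZ` bounded) and two points for each (`eq_or_neg` in LQ/Total).
-/

namespace Pool.Agent.H24.LR

open Pool.Agent.H24.LP Pool.Agent.H24.LQ Finset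

private lemma le_zero_of_pow {x c : ℝ} (h : ∀ n : ℕ, 4 ^ n * x ≤ c) : x ≤ 0 := by
  by_contra hx
  push Not at hx
  obtain ⟨n, hn⟩ := pow_unbounded_of_one_lt (c / x) (by norm_num : (1 : ℝ) < 4)
  have h1 : c < 4 ^ n * x := (div_lt_iff₀ hx).1 hn
  exact absurd (h n) (not_le.2 h1)

private lemma pow_smul_eq {A : Type*} [AddCommGroup A] {g : A → ℝ} (h1 : ∀ P, g (P + P) = 4 * g P)
    (n : ℕ) (P : A) : g ((2 ^ n) • P) = 4 ^ n * g P := by
  induction n with
  | zero => simp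
  | succ n ih =>
    have e : (2 ^ (n + 1)) • P = (2 ^ n) • P + (2 ^ n) • P := by
      rw [← add_smul]
      congr 1
      ring
    rw [e, h1, ih]
    ring

/-- An almost quadratic function with `g (2 P) = 4 g P` is quadratic. -/
private lemma isQuad_of_almost {A : Type*} [AddCommGroup A] {g : A → ℝ} {c d : ℝ}
    (h1 : ∀ P, g (P + P) = 4 * g P) (h2 : ∀ P, -d ≤ g P)
    (h3 : ∀ P Q, |g (P + Q) + g (P - Q) - (2 * g P + 2 * g Q)| ≤ c) : IsQuad g := by
  refine ⟨fun P => ?_, fun P Q => ?_⟩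
  · have h4 : -g P ≤ 0 := by
      refine le_zero_of_pow (c := d) fun n => ?_
      have h5 := h2 ((2 ^ n) • P)
      rw [pow_smul_eq h1] at h5
      linarith
    linarith
  · have h4 : |g (P + Q) + g (P - Q) - (2 * g P + 2 * g Q)| ≤ 0 := by
      refine le_zero_of_pow (c := c) fun n => ?_
      have h5 := h3 ((2 ^ n) • P) ((2 ^ n) • Q)
      rw [← smul_add, ← smul_sub, pow_smul_eq h1, pow_smul_eq h1, pow_smul_eq h1,
        pow_smul_eq h1] at h5
      have h6 : (4 : ℝ) ^ n * g (P + Q) + 4 ^ n * g (P - Q) - (2 * (4 ^ n * g P) +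
          2 * (4 ^ n * g Q)) = 4 ^ n * (g (P + Q) + g (P - Q) - (2 * g P + 2 * g Q)) := by ring
      rw [h6, abs_mul, abs_of_pos (by positivity : (0 : ℝ) < 4 ^ n)] at h5
      exact h5
    have h5 := abs_nonpos_iff.1 h4
    linarith

open Classical in
/-- The height `g` satisfies the parallelogram law. -/
theorem can_quad {a b : ℤ} (hD : D a b ≠ 0) {g : (curve a b).Point → ℝ}
    (h1 : ∀ P, g (P + P) = 4 * g P) (h2 : ∀ P, |g P - nh P| ≤ 20 * L a b) : IsQuad g := by
  refine isQuad_of_almost (c := 240 * L a b) (d := 20 * L a b) h1 (fun P => ?_) fun P Q => ?_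
  · have h3 := (abs_le.1 (h2 P)).1
    have h4 := nh_nonneg P
    linarith
  · have hL := L_pos a b
    have hu := nh_par_le hD P Q
    have hl := nh_par_ge hD P Q
    have e1 := abs_le.1 (h2 (P + Q))
    have e2 := abs_le.1 (h2 (P - Q))
    have e3 := abs_le.1 (h2 P)
    have e4 := abs_le.1 (h2 Q)
    rw [abs_le]
    constructor
    · linarith [e1.1, e2.1, e3.2, e4.2]
    · linarith [e1.2, e2.2, e3.1, e4.1]

private lemma fiber_finite {a b : ℤ} (u : ℤ × ℤ) :
    ((fun P : (curve a b).Point => (repX P, repZ P)) ⁻¹' {u}).Finite := by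
  by_cases h : ∃ P : (curve a b).Point, (repX P, repZ P) = u
  · obtain ⟨P, hP⟩ := h
    refine (Set.toFinite ({P, -P} : Set (curve a b).Point)).subset fun Q hQ => ?_
    have hQ' : (repX Q, repZ Q) = u := hQ
    rw [← hP] at hQ'
    exact eq_or_neg (Prod.mk.inj hQ').1 (Prod.mk.inj hQ').2
  · refine Set.Finite.subset Set.finite_empty fun Q hQ => ?_
    exact absurd ⟨Q, hQ⟩ h

private lemma int_mem {x : ℤ} {M : ℝ} (h : |(x : ℝ)| ≤ Real.exp M) :
    x ∈ Set.Icc (-⌈Real.exp M⌉) ⌈Real.exp M⌉ := by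
  have h1 := abs_le.1 (h.trans (Int.le_ceil (Real.exp M)))
  constructor
  · exact_mod_cast h1.1
  · exact_mod_cast h1.2

theorem can_finite {a b : ℤ} {g : (curve a b).Point → ℝ} (h2 : ∀ P, |g P - nh P| ≤ 20 * L a b)
    (R : ℝ) : {P : (curve a b).Point | g P ≤ R}.Finite := by
  have hbox : ((Set.Icc (-⌈Real.exp (R + 20 * L a b)⌉) ⌈Real.exp (R + 20 * L a b)⌉) ×ˢ
      (Set.Icc (-⌈Real.exp (R + 20 * L a b)⌉) ⌈Real.exp (R + 20 * L a b)⌉) : Set (ℤ × ℤ)).Finite :=
    (Set.finite_Icc _ _).prod (Set.finite_Icc _ _)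
  refine (hbox.preimage' (f := fun P : (curve a b).Point => (repX P, repZ P))
    fun u _ => fiber_finite u).subset fun P hP => ?_
  have hP' : g P ≤ R := hP
  have h3 : nh P ≤ R + 20 * L a b := by
    have := (abs_le.1 (h2 P)).1
    linarith
  have h4 : max |(repX P : ℝ)| |(repZ P : ℝ)| ≤ Real.exp (R + 20 * L a b) := by
    rcases lt_or_ge 0 (max |(repX P : ℝ)| |(repZ P : ℝ)|) with h5 | h5
    · exact (Real.log_le_iff_le_exp h5).1 h3
    · exact h5.trans (Real.exp_pos _).le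
  exact ⟨int_mem ((le_max_left _ _).trans h4), int_mem ((le_max_right _ _).trans h4)⟩

end Pool.Agent.H24.LR
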