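import Pool.Agent.H24.LR.Quad
import Pool.Agent.H24.LQ.Class

/-!
# LR Cls4

Classes modulo `4A`. `M` = the span of `S` (finitely generated), `F = M/torsion` free of rank `≤ r` (see the proof of
`Pool.Agent.H24.LP.class_count` in LP/Cls.lean, `Pool.Agent.H24.LQ.class_count'`), a linear section `F → M`, `P = sec(π P) + τ(P)` with
`τ(P)` in the torsion `t` of `M`, a finite group. Two elements are congruent modulo `4M` if `π P ≡ π P'` mod `4F`
(`4^(rank F)` classes) and `τ(P) ≡ τ(P')` modulo `4t`; `|t/4t| = |t[4]| ≤ B` (first isomorphism theorem for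
multiplication by `4` on the finite group `t`).
-/

namespace Pool.Agent.H24.LR

open Finset

/-- The order of `T / m T` is the order of the `m`-torsion. -/
private theorem card_quot_mul {T : Type*} [AddCommGroup T] [Finite T] (m : ℕ) :
    Nat.card (T ⧸ (nsmulAddMonoidHom m : T →+ T).range) = Nat.card (nsmulAddMonoidHom m : T →+ T).ker := by
  set f : T →+ T := nsmulAddMonoidHom m with hf
  have h1 := AddSubgroup.card_eq_card_quotient_mul_card_addSubgroup f.range
  have h2 := AddSubgroup.card_eq_card_quotient_mul_card_addSubgroup f.ker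
  have h3 : Nat.card (T ⧸ f.ker) = Nat.card f.range :=
    Nat.card_congr (QuotientAddGroup.quotientKerEquivRange f).toEquiv
  rw [h3, h1, mul_comm] at h2
  have h4 : 0 < Nat.card f.range := Nat.card_pos
  exact Nat.eq_of_mul_eq_mul_left h4 h2

private theorem core {A : Type*} [AddCommGroup A] (r : ℕ) (hr : Module.rank ℤ A ≤ r) (B : ℕ)
    (hB : ∀ s : Finset A, (∀ τ ∈ s, 4 • τ = 0) → s.card ≤ B) (S : Finset A) (M : AddSubgroup A)
    (hSM : ∀ P ∈ S, P ∈ M) {n : ℕ} {T : Type*} [AddCommGroup T] [Finite T] (φ : M ≃+ (Fin n →₀ ℤ) × T) :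
    ∃ κ : A → Fin (4 ^ r * B), ∀ P ∈ S, ∀ Q ∈ S, κ P = κ Q → ∃ T : A, P - Q = 4 • T := by
  classical
  -- the rank
  have hn : n ≤ r := by
    let f : (Fin n →₀ ℤ) →+ A := M.subtype.comp (φ.symm.toAddMonoidHom.comp (AddMonoidHom.inl _ _))
    have hf : Function.Injective f := by
      intro u v huv
      have h1 : φ.symm (u, 0) = φ.symm (v, 0) := Subtype.ext huv
      exact (Prod.mk.inj (φ.symm.injective h1)).1
    have hker : LinearMap.ker f.toIntLinearMap = ⊥ := LinearMap.ker_eq_bot.2 hf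
    have hli := (Finsupp.basisSingleOne (R := ℤ) (ι := Fin n)).linearIndependent.map' f.toIntLinearMap hker
    have h2 := hli.cardinal_lift_le_rank
    have h3 := h2.trans (Cardinal.lift_le.2 hr)
    simp only [Cardinal.mk_fin, Cardinal.lift_natCast] at h3
    exact_mod_cast h3
  -- the torsion
  have hK : Nat.card (nsmulAddMonoidHom 4 : T →+ T).ker ≤ B := by
    let g : T →+ A := M.subtype.comp (φ.symm.toAddMonoidHom.comp (AddMonoidHom.inr _ _))
    have hg : Function.Injective g := by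
      intro u v huv
      have h1 : φ.symm (0, u) = φ.symm (0, v) := Subtype.ext huv
      exact (Prod.mk.inj (φ.symm.injective h1)).2
    have hfin : ((nsmulAddMonoidHom 4 : T →+ T).ker : Set T).Finite := Set.toFinite _
    have h1 := hB (hfin.toFinset.image g) (by
      intro τ hτ
      obtain ⟨t, ht, rfl⟩ := Finset.mem_image.1 hτ
      rw [Set.Finite.mem_toFinset] at ht
      have ht' : 4 • t = 0 := ht
      rw [← map_nsmul, ht', map_zero])
    rw [Finset.card_image_of_injective _ hg] at h1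
    have h2 : hfin.toFinset.card = Nat.card (nsmulAddMonoidHom 4 : T →+ T).ker :=
      (Nat.card_eq_card_finite_toFinset hfin).symm
    rwa [h2] at h1
  -- the classes
  let C := (Fin n → ZMod 4) × (T ⧸ (nsmulAddMonoidHom 4 : T →+ T).range)
  have hC : Nat.card C ≤ 4 ^ r * B := by
    have h1 : Nat.card C = 4 ^ n * Nat.card (nsmulAddMonoidHom 4 : T →+ T).ker := by
      rw [← card_quot_mul 4]
      change Nat.card ((Fin n → ZMod 4) × (T ⧸ (nsmulAddMonoidHom 4 : T →+ T).range)) = _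
      rw [Nat.card_prod, Nat.card_fun, Nat.card_zmod, Nat.card_fin]
    rw [h1]
    exact Nat.mul_le_mul (Nat.pow_le_pow_right (by norm_num) hn) hK
  let c : M → C := fun P => (fun i => (((φ P).1 i : ℤ) : ZMod 4), QuotientAddGroup.mk (φ P).2)
  let cA : A → C := fun P => if h : P ∈ M then c ⟨P, h⟩ else 0
  let emb : C → Fin (4 ^ r * B) := fun z => Fin.castLE hC (Finite.equivFin C z)
  have hemb : Function.Injective emb := by
    intro z w hzw
    exact (Finite.equivFin C).injective (Fin.castLE_injective hC hzw)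
  refine ⟨fun P => emb (cA P), ?_⟩
  intro P hP Q hQ hPQ
  have h1 : cA P = cA Q := hemb hPQ
  have hP' := hSM P hP
  have hQ' := hSM Q hQ
  have h2 : c ⟨P, hP'⟩ = c ⟨Q, hQ'⟩ := by
    have e1 : cA P = c ⟨P, hP'⟩ := dif_pos hP'
    have e2 : cA Q = c ⟨Q, hQ'⟩ := dif_pos hQ'
    rw [← e1, ← e2, h1]
  have h3 : ∀ i, ∃ d : ℤ, (φ ⟨P, hP'⟩).1 i - (φ ⟨Q, hQ'⟩).1 i = 4 * d := by
    intro i
    have h4 : (((φ ⟨P, hP'⟩).1 i : ℤ) : ZMod 4) = (((φ ⟨Q, hQ'⟩).1 i : ℤ) : ZMod 4) :=
      congrFun (congrArg Prod.fst h2) i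
    rw [ZMod.intCast_eq_intCast_iff_dvd_sub] at h4
    obtain ⟨d, hd⟩ := h4
    refine ⟨-d, ?_⟩
    push_cast at hd
    linarith
  choose d hd using h3
  have h5 : (QuotientAddGroup.mk (φ ⟨P, hP'⟩).2 : T ⧸ (nsmulAddMonoidHom 4 : T →+ T).range) =
      QuotientAddGroup.mk (φ ⟨Q, hQ'⟩).2 := congrArg Prod.snd h2
  rw [QuotientAddGroup.eq] at h5
  obtain ⟨t, ht⟩ := h5
  have ht' : 4 • t = -(φ ⟨P, hP'⟩).2 + (φ ⟨Q, hQ'⟩).2 := ht
  let w : (Fin n →₀ ℤ) × T := (Finsupp.equivFunOnFinite.symm d, -t)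
  refine ⟨(φ.symm w : A), ?_⟩
  have h6 : (⟨P, hP'⟩ - ⟨Q, hQ'⟩ : M) = 4 • φ.symm w := by
    apply φ.injective
    rw [map_sub, map_nsmul, AddEquiv.apply_symm_apply]
    apply Prod.ext
    · apply Finsupp.ext
      intro i
      rw [Prod.fst_sub, Finsupp.sub_apply, Prod.smul_fst, Finsupp.smul_apply, hd i]
      change 4 * d i = 4 • d i
      simp
    · rw [Prod.snd_sub, Prod.smul_snd]
      change _ = 4 • (-t)
      rw [smul_neg, ht']
      abel
  have h7 := congrArg (fun z : M => (z : A)) h6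
  exact h7

theorem classes4 {A : Type*} [AddCommGroup A] (r : ℕ) (hr : Module.rank ℤ A ≤ r) (B : ℕ)
    (hB : ∀ s : Finset A, (∀ τ ∈ s, 4 • τ = 0) → s.card ≤ B) (S : Finset A) :
    ∃ κ : A → Fin (4 ^ r * B), ∀ P ∈ S, ∀ Q ∈ S, κ P = κ Q → ∃ T : A, P - Q = 4 • T := by
  classical
  have hfg : AddGroup.FG (AddSubgroup.closure (S : Set A)) := (AddGroup.fg_iff_addSubgroup_fg _).2 ⟨S, rfl⟩
  obtain ⟨n, ι, hι, p, hp, e, ⟨φ⟩⟩ := AddCommGroup.equiv_free_prod_directSum_zmod (AddSubgroup.closure (S : Set A))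
  have hne : ∀ i, NeZero (p i ^ e i) := fun i => ⟨pow_ne_zero _ (hp i).ne_zero⟩
  have hTfin : Finite (DirectSum ι fun i => ZMod (p i ^ e i)) :=
    Finite.of_equiv _ (DirectSum.addEquivProd fun i => ZMod (p i ^ e i)).symm.toEquiv
  exact core r hr B hB S _ (fun P hP => AddSubgroup.subset_closure hP) φ

end Pool.Agent.H24.LR
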