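import Pool.Agent.H24.LR.Pt
import Pool.Agent.H24.LP.NT2

/-!
# LR Gap

Large integral points repel. Let `z = (x, y)`, `z' = (x', y')` be integral with `log |x|, log |x'| ≥ 20 L`
(`|a| ≤ e^{2L}`, `|b| ≤ e^{3L}`, `e^L ≥ 2`). Then `x, x' > 0` (`y² ≥ 0`), `x³/2 ≤ y² ≤ 2x³`.
`large_pos` is this. `gap`: if `x = x'` then `z' = (x, -y)`, `P - P' = 2P`, use `nh_two`. Let `x < x'` (the other case by `nh_neg`). With
`N₋ = (y+y')² - (x+x')(x-x')²`, `x(P-P') = N₋/(x-x')²`, and `N₋ N₊ = (x-x')² C`, `N₊ = (y-y')² - (x+x')(x-x')²`,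
`C = (xx'-a)² - 4b(x+x')`; moreover `N_∓ = a(x+x') + 2b ± 2yy' + xx'(x+x')`.
If `yy' > 0`: `N₋ ≥ xx'(x+x') - |a|(x+x') - 2|b| ≥ xx'²/2`, `(x-x')² ≤ x'²`, so `x(P-P') ≥ x/2`.
If `yy' < 0`: `x(P-P') = C/N₊`, `N₊ = a(x+x')+2b+2|yy'|+xx'(x+x') ≤ 16 x x'²`, `C ≥ (xx')²/2`, so `x(P-P') ≥ x/32`.
Then `nh(P - P') ≥ log |x(P-P')| ≥ log x - log 32 ≥ log x - 10 L`.
-/

namespace Pool.Agent.H24.LR

open Pool.Agent.H24.LP Pool.Agent.H24.LQ Finset

/-- The size of `a`, `b` against a large `x`. -/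
private lemma Gap_size {a b : ℤ} {X : ℝ} (hX : 0 < X) (h : 20 * L a b ≤ Real.log X) :
    2 ^ 20 ≤ X ∧ |(a : ℝ)| * 2 ^ 18 ≤ X ∧ |(b : ℝ)| * 2 ^ 17 ≤ X := by
  set E : ℝ := Real.exp (L a b) with hE
  have h1 : E ^ 20 ≤ X := by
    rw [hE, ← Real.exp_nat_mul, ← Real.exp_log hX]
    apply Real.exp_le_exp.mpr
    push_cast
    exact h
  have hE2 : 2 ≤ E := by
    have := Real.exp_le_exp.mpr (log_two_le_L a b)
    rwa [Real.exp_log (by norm_num)] at this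
  have hE0 : 0 ≤ E := by linarith
  have ha : |(a : ℝ)| ≤ E ^ 2 := by
    refine le_trans (abs_a_le a b) (le_of_eq ?_)
    rw [hE, ← Real.exp_nat_mul]; norm_num
  have hb : |(b : ℝ)| ≤ E ^ 3 := by
    refine le_trans (abs_b_le a b) (le_of_eq ?_)
    rw [hE, ← Real.exp_nat_mul]; norm_num
  have p18 : (2 : ℝ) ^ 18 ≤ E ^ 18 := pow_le_pow_left₀ (by norm_num) hE2 18
  have p17 : (2 : ℝ) ^ 17 ≤ E ^ 17 := pow_le_pow_left₀ (by norm_num) hE2 17
  have p20 : (2 : ℝ) ^ 20 ≤ E ^ 20 := pow_le_pow_left₀ (by norm_num) hE2 20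
  refine ⟨le_trans p20 h1, ?_, ?_⟩
  · calc |(a : ℝ)| * 2 ^ 18 ≤ E ^ 2 * E ^ 18 :=
          mul_le_mul ha p18 (by positivity) (by positivity)
      _ = E ^ 20 := by ring
      _ ≤ X := h1
  · calc |(b : ℝ)| * 2 ^ 17 ≤ E ^ 3 * E ^ 17 :=
          mul_le_mul hb p17 (by positivity) (by positivity)
      _ = E ^ 20 := by ring
      _ ≤ X := h1

/-- `|a X + b| ≤ X² / 2^10` for large `X`. -/
private lemma Gap_lin {a b X : ℝ} (hX : 2 ^ 20 ≤ X) (ha : |a| * 2 ^ 18 ≤ X)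
    (hb : |b| * 2 ^ 17 ≤ X) : |a| * X + |b| ≤ X ^ 2 := by
  have hX0 : 0 ≤ X := le_trans (by norm_num) hX
  have h1 : |a| * X ≤ X ^ 2 / 2 := by nlinarith [abs_nonneg a]
  have h2 : |b| ≤ X ^ 2 / 2 := by nlinarith [abs_nonneg b]
  linarith

lemma large_pos {a b : ℤ} {z : ℤ × ℤ} (hz : z ∈ integralPoints a b)
    (h : 20 * L a b ≤ Real.log |(z.1 : ℝ)|) :
    0 < z.1 ∧ (z.1 : ℝ) ^ 3 / 2 ≤ (z.2 : ℝ) ^ 2 ∧ (z.2 : ℝ) ^ 2 ≤ 2 * (z.1 : ℝ) ^ 3 := by
  obtain ⟨x, y⟩ := z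
  have he : ((y : ℤ) : ℝ) ^ 2 = (x : ℝ) ^ 3 + a * x + b := by
    have h1 : y ^ 2 = x ^ 3 + a * x + b := hz
    exact_mod_cast h1
  simp only at h ⊢
  have hx0 : 0 < |(x : ℝ)| := by
    rcases (abs_nonneg (x : ℝ)).eq_or_lt with h0 | h0
    · exfalso
      rw [← h0, Real.log_zero] at h
      have := log_two_le_L a b
      have := Real.log_pos (by norm_num : (1 : ℝ) < 2)
      linarith
    · exact h0
  obtain ⟨h20, ha, hb⟩ := Gap_size hx0 h
  have hl := Gap_lin h20 ha hb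
  have hab : |(a : ℝ) * x + b| ≤ |(x : ℝ)| ^ 2 := by
    refine le_trans (abs_add_le _ _) ?_
    rw [abs_mul]
    exact hl
  obtain ⟨hab1, hab2⟩ := abs_le.mp hab
  have hcube : 2 * |(x : ℝ)| ^ 2 ≤ |(x : ℝ)| ^ 3 := by
    have h2 : (2 : ℝ) ≤ |(x : ℝ)| := le_trans (by norm_num) h20
    nlinarith [mul_le_mul_of_nonneg_right h2 (sq_nonneg |(x : ℝ)|)]
  have hxpos : 0 < (x : ℝ) := by
    by_contra hn
    push Not at hn
    have e : |(x : ℝ)| ^ 3 = -(x : ℝ) ^ 3 := by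
      rw [abs_of_nonpos hn]; ring
    have h3 : 0 < |(x : ℝ)| ^ 2 := by positivity
    have h4 := sq_nonneg (y : ℝ)
    rw [e] at hcube
    linarith
  rw [abs_of_pos hxpos] at hcube hab1 hab2
  refine ⟨by exact_mod_cast hxpos, ?_, ?_⟩
  · linarith
  · have : 0 < (x : ℝ) ^ 3 := by positivity
    linarith

/-- `C ≥ (xx')²/2`. -/
private lemma Gap_C {a b x x' : ℝ} (hx : 2 ^ 20 ≤ x) (hxx : x < x')
    (ha : |a| * 2 ^ 18 ≤ x) (hb : |b| * 2 ^ 17 ≤ x) :
    (x * x') ^ 2 / 2 ≤ (x * x' - a) ^ 2 - 4 * b * (x + x') := by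
  have hx0 : 0 < x := lt_of_lt_of_le (by norm_num) hx
  have hx'0 : 0 < x' := lt_trans hx0 hxx
  have hp : 0 < x * x' := mul_pos hx0 hx'0
  have h1 : 1 ≤ x' := le_trans (le_trans (by norm_num) hx) hxx.le
  have hxxp : x ≤ x * x' := le_mul_of_one_le_right hx0.le h1
  have haa := abs_nonneg a
  have hbb := abs_nonneg b
  have ha2 := le_abs_self a
  have hb2 := le_abs_self b
  have e4 : 4 * b * (x + x') ≤ x * x' := by
    have f1 : 4 * b * (x + x') ≤ 4 * |b| * (2 * x') :=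
      mul_le_mul (by linarith) (by linarith) (by linarith) (by positivity)
    have f2 : (|b| * 2 ^ 17) * x' ≤ x * x' := mul_le_mul_of_nonneg_right hb hx'0.le
    have f3 : 4 * |b| * (2 * x') = 8 * (|b| * x') := by ring
    have f4 : (|b| * 2 ^ 17) * x' = 2 ^ 17 * (|b| * x') := by ring
    have f5 : 0 ≤ |b| * x' := mul_nonneg hbb hx'0.le
    linarith
  have e1 : |a| ≤ x * x' / 8 := by linarith
  have e5 : 2 ^ 20 * (x * x') ≤ (x * x') * (x * x') := by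
    apply mul_le_mul_of_nonneg_right _ hp.le
    linarith
  generalize x * x' = P at *
  have e3 : (P * (7 / 8)) ^ 2 ≤ (P - a) ^ 2 :=
    pow_le_pow_left₀ (by positivity) (by linarith) 2
  have g1 : (P * (7 / 8)) ^ 2 = 49 / 64 * (P * P) := by ring
  have g2 : P ^ 2 = P * P := by ring
  rw [g2]
  linarith

/-- `N₊ ≤ 16 x x'²`, in terms of `|yy'|`. -/
private lemma Gap_yy {x x' y y' : ℝ} (hx0 : 0 < x) (hxx : x < x')
    (hy : y ^ 2 ≤ 2 * x ^ 3) (hy' : y' ^ 2 ≤ 2 * x' ^ 3) : |y * y'| ≤ 2 * (x * x' * x') := by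
  have hx'0 : 0 < x' := lt_trans hx0 hxx
  apply abs_le_of_sq_le_sq _ (by positivity)
  have e1 : (y * y') ^ 2 ≤ (2 * x ^ 3) * (2 * x' ^ 3) := by
    rw [mul_pow]
    exact mul_le_mul hy hy' (sq_nonneg _) (by positivity)
  refine le_trans e1 ?_
  have e2 : (2 * (x * x' * x')) ^ 2 - (2 * x ^ 3) * (2 * x' ^ 3)
      = 4 * (x ^ 2 * x' ^ 3) * (x' - x) := by ring
  have e3 : 0 ≤ 4 * (x ^ 2 * x' ^ 3) * (x' - x) :=
    mul_nonneg (by positivity) (by linarith)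
  linarith

/-- The small term. -/
private lemma Gap_T {a b x x' : ℝ} (hx : 2 ^ 20 ≤ x) (hxx : x < x')
    (ha : |a| * 2 ^ 18 ≤ x) (hb : |b| * 2 ^ 17 ≤ x) : |a * (x + x') + 2 * b| ≤ x * x' := by
  have hx0 : 0 < x := lt_of_lt_of_le (by norm_num) hx
  have hx'0 : 0 < x' := lt_trans hx0 hxx
  have h1 : 1 ≤ x' := le_trans (le_trans (by norm_num) hx) hxx.le
  have hxxp : x ≤ x * x' := le_mul_of_one_le_right hx0.le h1
  have haa := abs_nonneg a
  have hbb := abs_nonneg b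
  have hA : |a| * (x + x') ≤ x * x' / 2 := by
    have e1 : |a| * (x + x') ≤ |a| * (2 * x') :=
      mul_le_mul_of_nonneg_left (by linarith) haa
    have e2 : (|a| * 2 ^ 18) * x' ≤ x * x' := mul_le_mul_of_nonneg_right ha hx'0.le
    have e3 : |a| * (2 * x') = 2 * (|a| * x') := by ring
    have e4 : (|a| * 2 ^ 18) * x' = 2 ^ 18 * (|a| * x') := by ring
    have e5 : 0 ≤ |a| * x' := mul_nonneg haa hx'0.le
    linarith
  refine le_trans (abs_add_le _ _) ?_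
  rw [abs_mul, abs_mul, abs_of_pos (by linarith : 0 < x + x'),
    abs_of_pos (by norm_num : (0 : ℝ) < 2)]
  linarith

/-- The lower bound for `x(P - P')`. -/
private lemma Gap_core {a b x x' y y' u : ℝ} (hx : 2 ^ 20 ≤ x) (hxx : x < x')
    (ha : |a| * 2 ^ 18 ≤ x) (hb : |b| * 2 ^ 17 ≤ x) (h : y ^ 2 = x ^ 3 + a * x + b)
    (h' : y' ^ 2 = x' ^ 3 + a * x' + b) (hy : y ^ 2 ≤ 2 * x ^ 3) (hy' : y' ^ 2 ≤ 2 * x' ^ 3)
    (hu : (x - x') ^ 2 * u = (y + y') ^ 2 - (x + x') * (x - x') ^ 2) : x / 32 ≤ u := by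
  have hx0 : 0 < x := lt_of_lt_of_le (by norm_num) hx
  have hx'0 : 0 < x' := lt_trans hx0 hxx
  have hp : 0 < x * x' := mul_pos hx0 hx'0
  have hdd : 0 < (x - x') ^ 2 := by
    have : x - x' ≠ 0 := by linarith
    positivity
  have hd' : (x - x') ^ 2 ≤ x' ^ 2 := by
    have e : x' ^ 2 - (x - x') ^ 2 = x * (2 * x' - x) := by ring
    have e' : 0 ≤ x * (2 * x' - x) := mul_nonneg hx0.le (by linarith)
    linarith
  obtain ⟨hT1, hT2⟩ := abs_le.mp (Gap_T hx hxx ha hb)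
  have hC := Gap_C hx hxx ha hb
  have hyy := Gap_yy hx0 hxx hy hy'
  have h2 : (2 : ℝ) ≤ x' := le_trans (le_trans (by norm_num) hx) hxx.le
  have hbig : 2 * (x * x') ≤ x * x' * x' := by
    have := mul_le_mul_of_nonneg_left h2 hp.le
    linarith
  have e5 : 0 < x * x' * x' := mul_pos hp hx'0
  have hN : (x - x') ^ 2 * u = x * x' * (x + x') + (a * (x + x') + 2 * b) + 2 * (y * y') := by
    rw [hu]
    linear_combination h + h'
  have hplus : x * x' * (x + x') = x * (x * x') + x * x' * x' := by ring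
  have hxp : 0 < x * (x * x') := mul_pos hx0 hp
  by_contra hcon
  push Not at hcon
  rcases le_or_gt 0 (y * y') with hs | hs
  · have e1 : (x - x') ^ 2 * u < (x - x') ^ 2 * (x / 32) := mul_lt_mul_of_pos_left hcon hdd
    have e2 : (x - x') ^ 2 * (x / 32) ≤ x' ^ 2 * (x / 32) :=
      mul_le_mul_of_nonneg_right hd' (by linarith)
    have e4 : x' ^ 2 * (x / 32) = x * x' * x' / 32 := by ring
    linarith
  · have hid2 : u * (x * x' * (x + x') + (a * (x + x') + 2 * b) - 2 * (y * y'))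
        = (x * x' - a) ^ 2 - 4 * b * (x + x') := by
      apply mul_left_cancel₀ hdd.ne'
      linear_combination (x * x' * (x + x') + (a * (x + x') + 2 * b) - 2 * (y * y')) * hN
        + (-4 * y' ^ 2) * h - 4 * (x ^ 3 + a * x + b) * h'
    rw [← hid2] at hC
    have hy1 := (abs_le.mp hyy).1
    have hNp0 : 0 < x * x' * (x + x') + (a * (x + x') + 2 * b) - 2 * (y * y') := by
      linarith
    have hNp16 : x * x' * (x + x') + (a * (x + x') + 2 * b) - 2 * (y * y')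
        ≤ 16 * (x * x' * x') := by
      have e3 : x * (x * x') ≤ x' * (x * x') := mul_le_mul_of_nonneg_right hxx.le hp.le
      have e4 : x' * (x * x') = x * x' * x' := by ring
      linarith
    have e1 := mul_lt_mul_of_pos_right hcon hNp0
    have e2 := mul_le_mul_of_nonneg_left hNp16 (by linarith : 0 ≤ x / 32)
    have e3 : x / 32 * (16 * (x * x' * x')) = (x * x') ^ 2 / 2 := by ring
    rw [e3] at e2
    exact absurd (lt_of_le_of_lt hC (lt_of_lt_of_le e1 e2)) (lt_irrefl _)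

private lemma Gap_nh_some {a b : ℤ} {x y : ℚ} (h : (curve a b).Nonsingular x y) {X : ℝ}
    (hX : 0 < X) (hx : X ≤ (x : ℝ)) : Real.log X ≤ nh (.some x y h : (curve a b).Point) := by
  have h1 : (x : ℝ) ≤ |(x.num : ℝ)| := by
    have e : (x : ℝ) * (x.den : ℝ) = (x.num : ℝ) := by exact_mod_cast Rat.mul_den_eq_num x
    have hd : (1 : ℝ) ≤ (x.den : ℝ) := by exact_mod_cast x.pos
    have hx0 : 0 < (x : ℝ) := lt_of_lt_of_le hX hx
    rw [← e, abs_mul, abs_of_pos hx0, Nat.abs_cast]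
    nlinarith
  unfold nh
  apply Real.log_le_log hX
  exact le_trans (le_trans hx h1) (le_max_left _ _)

open Classical in
private lemma Gap_lt {a b : ℤ} (hD : D a b ≠ 0) {z z' : ℤ × ℤ} (hz : z ∈ integralPoints a b)
    (hz' : z' ∈ integralPoints a b) (hlt : z.1 < z'.1) (h : 20 * L a b ≤ Real.log |(z.1 : ℝ)|)
    (h' : 20 * L a b ≤ Real.log |(z'.1 : ℝ)|) :
    Real.log |(z.1 : ℝ)| - 10 * L a b ≤ nh (toPt hD z - toPt hD z') := by
  obtain ⟨hp, -, hy2⟩ := large_pos hz h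
  obtain ⟨hp', -, hy2'⟩ := large_pos hz' h'
  have hpR : 0 < (z.1 : ℝ) := by exact_mod_cast hp
  have hpR' : 0 < (z'.1 : ℝ) := by exact_mod_cast hp'
  obtain ⟨h20, ha, hb⟩ := Gap_size (abs_pos.mpr hpR.ne') h
  rw [abs_of_pos hpR] at h20 ha hb
  have hz0 : z.2 ^ 2 = z.1 ^ 3 + a * z.1 + b := hz
  have hz0' : z'.2 ^ 2 = z'.1 ^ 3 + a * z'.1 + b := hz'
  have hX : (z.1 : ℚ) ≠ (z'.1 : ℚ) := by exact_mod_cast hlt.ne
  rw [sub_eq_add_neg (toPt hD z) (toPt hD z'), toPt_eq hD hz0, toPt_eq hD hz0',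
    WeierstrassCurve.Affine.Point.neg_some, WeierstrassCurve.Affine.Point.add_of_X_ne hX]
  have hu : ((((curve a b).addX (z.1 : ℚ) (z'.1 : ℚ) ((curve a b).slope (z.1 : ℚ) (z'.1 : ℚ)
      (z.2 : ℚ) ((curve a b).negY (z'.1 : ℚ) (z'.2 : ℚ)))) : ℚ) : ℝ)
      = (((z.2 : ℝ) + z'.2) / ((z.1 : ℝ) - z'.1)) ^ 2 - z.1 - z'.1 := by
    rw [WeierstrassCurve.Affine.slope_of_X_ne hX]
    simp only [WeierstrassCurve.Affine.addX, WeierstrassCurve.Affine.negY, curve]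
    push_cast
    ring
  have hne : (z.1 : ℝ) - z'.1 ≠ 0 := by
    have : (z.1 : ℝ) < z'.1 := by exact_mod_cast hlt
    linarith
  have hcore : (z.1 : ℝ) / 32 ≤ (((z.2 : ℝ) + z'.2) / ((z.1 : ℝ) - z'.1)) ^ 2 - z.1 - z'.1 := by
    apply Gap_core (a := a) (b := b) (x' := z'.1) (y := z.2) (y' := z'.2) h20
      (by exact_mod_cast hlt) ha hb (by exact_mod_cast hz0) (by exact_mod_cast hz0') hy2 hy2'
    rw [div_pow, mul_sub, mul_sub, mul_div_cancel₀ _ (pow_ne_zero 2 hne)]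
    ring
  rw [← hu] at hcore
  have hlog : Real.log |(z.1 : ℝ)| - 10 * L a b ≤ Real.log ((z.1 : ℝ) / 32) := by
    rw [abs_of_pos hpR, Real.log_div hpR.ne' (by norm_num)]
    have e : Real.log 32 = 5 * Real.log 2 := by
      rw [show (32 : ℝ) = 2 ^ 5 by norm_num, Real.log_pow]; push_cast; ring
    have hL := log_two_le_L a b
    have hl2 := Real.log_pos (by norm_num : (1 : ℝ) < 2)
    linarith
  exact le_trans hlog (Gap_nh_some _ (by positivity) hcore)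

open Classical in
theorem gap {a b : ℤ} (hD : D a b ≠ 0) {z z' : ℤ × ℤ} (hz : z ∈ integralPoints a b)
    (hz' : z' ∈ integralPoints a b) (hne : z ≠ z') (h : 20 * L a b ≤ Real.log |(z.1 : ℝ)|)
    (h' : 20 * L a b ≤ Real.log |(z'.1 : ℝ)|) :
    min (Real.log |(z.1 : ℝ)|) (Real.log |(z'.1 : ℝ)|) - 10 * L a b
      ≤ nh (toPt hD z - toPt hD z') := by
  rcases lt_trichotomy z.1 z'.1 with hlt | heq | hlt
  · have := Gap_lt hD hz hz' hlt h h'
    have := min_le_left (Real.log |(z.1 : ℝ)|) (Real.log |(z'.1 : ℝ)|)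
    linarith
  · obtain ⟨x, y⟩ := z
    obtain ⟨x', y'⟩ := z'
    simp only at heq
    subst heq
    have hz0 : y ^ 2 = x ^ 3 + a * x + b := hz
    have hz0' : y' ^ 2 = x ^ 3 + a * x + b := hz'
    have hy : y' = -y := by
      rcases sq_eq_sq_iff_eq_or_eq_neg.mp (hz0'.trans hz0.symm) with h1 | h1
      · exact absurd (by rw [h1]) hne
      · exact h1
    obtain ⟨hp, -, -⟩ := large_pos hz h
    have hpR : 0 < (x : ℝ) := by exact_mod_cast hp
    have e : toPt hD (x, y') = -toPt hD (x, y) := by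
      rw [toPt_eq hD (z := (x, y)) hz0, toPt_eq hD (z := (x, y')) hz0',
        WeierstrassCurve.Affine.Point.neg_some]
      congr 1
      rw [hy]
      simp [WeierstrassCurve.Affine.negY, curve]
    rw [e, sub_neg_eq_add]
    have h1 := (abs_le.mp (nh_two hD (toPt hD (x, y)))).1
    rw [nh_toPt hD hz] at h1
    simp only at h h1 ⊢
    have h2 : Real.log |(x : ℝ)| ≤ Real.log (max |(x : ℝ)| 1) :=
      Real.log_le_log (abs_pos.mpr hpR.ne') (le_max_left _ _)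
    rw [min_self]
    have hL := log_two_le_L a b
    have hl2 := Real.log_pos (by norm_num : (1 : ℝ) < 2)
    linarith
  · have h1 := Gap_lt hD hz' hz hlt h' h
    have h2 : nh (toPt hD z - toPt hD z') = nh (toPt hD z' - toPt hD z) := by
      rw [← nh_neg, neg_sub]
    rw [h2]
    have := min_le_right (Real.log |(z.1 : ℝ)|) (Real.log |(z'.1 : ℝ)|)
    linarith

end Pool.Agent.H24.LR
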