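import Pool.Agent.H24.LR.Pt
import Pool.Agent.H24.LR.Gap
import Pool.Agent.H24.LP.NT2

/-!
# LR Est

`x(P - P₀)` is close to `x(P₀) = x₀` if `x` is much larger: `x(P-P₀) = ((y+y₀)/(x-x₀))² - x - x₀`, and
`x(P-P₀) - x₀ = [a x + b + 2 y y₀ + y₀² + 3x₀² x - 2x₀³]/(x-x₀)²`; `y² ≤ 2x³`, `y₀² ≤ 2x₀³`, `|a|, |b| ≤ x₀`, `x ≥ x₀^{10}`,
`(x-x₀)² ≥ x²/4`: absolute value `≤ 100 x₀³ x^{-1/2} ≤ x₀^{10} x^{-1/2}`.
-/

namespace Pool.Agent.H24.LR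

open Pool.Agent.H24.LP Pool.Agent.H24.LQ Finset

/-- The real inequality, with `X = S ^ 2` and `X₀ = T ^ 2`. -/
private lemma est_real {A B Y Y₀ S T : ℝ} (hT : 2 ≤ T ^ 2) (hT0 : 1 ≤ T) (hS : T ≤ S)
    (h2 : 2 * T ^ 2 ≤ S ^ 2)
    (hY : Y ^ 2 = (S ^ 2) ^ 3 + A * S ^ 2 + B)
    (hY2 : Y ^ 2 ≤ 2 * (S ^ 2) ^ 3) (hY02 : Y₀ ^ 2 ≤ 2 * (T ^ 2) ^ 3)
    (hA : |A| ≤ T ^ 2) (hB : |B| ≤ T ^ 2) :
    |((Y + Y₀) / (S ^ 2 - T ^ 2)) ^ 2 - S ^ 2 - T ^ 2 - T ^ 2| ≤ (T ^ 2) ^ 10 / S := by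
  have hS1 : 1 ≤ S := le_trans hT0 hS
  have hS0 : 0 < S := by linarith
  have hT00 : 0 < T := by linarith
  have hd : 0 < S ^ 2 - T ^ 2 := by nlinarith
  have hYa : |Y| ≤ 2 * S ^ 3 := by
    apply abs_le_of_sq_le_sq _ (by positivity)
    have : (S ^ 2) ^ 3 = S ^ 6 := by ring
    have h6 : 0 < S ^ 6 := by positivity
    nlinarith
  have hY0a : |Y₀| ≤ 2 * T ^ 3 := by
    apply abs_le_of_sq_le_sq _ (by positivity)
    have : (T ^ 2) ^ 3 = T ^ 6 := by ring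
    have h6 : 0 < T ^ 6 := by positivity
    nlinarith
  have e : ((Y + Y₀) / (S ^ 2 - T ^ 2)) ^ 2 - S ^ 2 - T ^ 2 - T ^ 2
      = (A * S ^ 2 + B + 2 * (Y * Y₀) + Y₀ ^ 2 + 3 * S ^ 2 * T ^ 4 - 2 * T ^ 6)
        / (S ^ 2 - T ^ 2) ^ 2 := by
    rw [div_pow, eq_div_iff (by positivity), sub_mul, sub_mul, sub_mul,
      div_mul_cancel₀ _ (by positivity : (S ^ 2 - T ^ 2) ^ 2 ≠ 0)]
    linear_combination hY
  rw [e, abs_div, abs_of_pos (by positivity : 0 < (S ^ 2 - T ^ 2) ^ 2)]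
  -- bound of the numerator
  have p1 : |A * S ^ 2| ≤ T ^ 2 * S ^ 2 := by
    rw [abs_mul, abs_of_pos (by positivity : 0 < S ^ 2)]
    exact mul_le_mul_of_nonneg_right hA (by positivity)
  have p2 : |2 * (Y * Y₀)| ≤ 8 * (S ^ 3 * T ^ 3) := by
    rw [abs_mul, abs_mul, abs_of_pos (by norm_num : (0 : ℝ) < 2)]
    have := mul_le_mul hYa hY0a (abs_nonneg _) (by positivity)
    linarith
  have p3 : |Y₀ ^ 2| ≤ 2 * T ^ 6 := by
    rw [abs_of_nonneg (by positivity)]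
    have : (T ^ 2) ^ 3 = T ^ 6 := by ring
    linarith
  have q1 : T ^ 2 * S ^ 2 ≤ S ^ 3 * T ^ 4 := by
    have h1 : S ^ 2 ≤ S ^ 3 := pow_le_pow_right₀ hS1 (by norm_num)
    have h2 : T ^ 2 ≤ T ^ 4 := pow_le_pow_right₀ hT0 (by norm_num)
    calc T ^ 2 * S ^ 2 = S ^ 2 * T ^ 2 := by ring
      _ ≤ S ^ 3 * T ^ 4 := mul_le_mul h1 h2 (by positivity) (by positivity)
  have q2 : T ^ 2 ≤ S ^ 3 * T ^ 4 := by
    have h1 : 1 ≤ S ^ 3 := one_le_pow₀ hS1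
    have h2 : T ^ 2 ≤ T ^ 4 := pow_le_pow_right₀ hT0 (by norm_num)
    calc T ^ 2 = 1 * T ^ 2 := by ring
      _ ≤ S ^ 3 * T ^ 4 := mul_le_mul h1 h2 (by positivity) (by positivity)
  have q3 : S ^ 3 * T ^ 3 ≤ S ^ 3 * T ^ 4 := by
    have h2 : T ^ 3 ≤ T ^ 4 := pow_le_pow_right₀ hT0 (by norm_num)
    exact mul_le_mul_of_nonneg_left h2 (by positivity)
  have q4 : T ^ 6 ≤ S ^ 3 * T ^ 4 := by
    have h1 : T ^ 2 ≤ S ^ 3 := by
      calc T ^ 2 ≤ T ^ 3 := pow_le_pow_right₀ hT0 (by norm_num)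
        _ ≤ S ^ 3 := pow_le_pow_left₀ (by linarith) hS 3
    calc T ^ 6 = T ^ 2 * T ^ 4 := by ring
      _ ≤ S ^ 3 * T ^ 4 := mul_le_mul_of_nonneg_right h1 (by positivity)
  have q5 : S ^ 2 * T ^ 4 ≤ S ^ 3 * T ^ 4 := by
    have h1 : S ^ 2 ≤ S ^ 3 := pow_le_pow_right₀ hS1 (by norm_num)
    exact mul_le_mul_of_nonneg_right h1 (by positivity)
  have hnum : |A * S ^ 2 + B + 2 * (Y * Y₀) + Y₀ ^ 2 + 3 * S ^ 2 * T ^ 4 - 2 * T ^ 6|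
      ≤ 17 * (S ^ 3 * T ^ 4) := by
    have h6 : 0 < T ^ 6 := by positivity
    have h7 : 0 < S ^ 2 * T ^ 4 := by positivity
    rw [abs_le] at p1 p2 p3 hB ⊢
    constructor <;> linarith [p1.1, p1.2, p2.1, p2.2, p3.1, p3.2, hB.1, hB.2]
  have hden : S ^ 4 / 4 ≤ (S ^ 2 - T ^ 2) ^ 2 := by
    have h1 : S ^ 2 / 2 ≤ S ^ 2 - T ^ 2 := by linarith
    have h3 := pow_le_pow_left₀ (by positivity) h1 2
    calc S ^ 4 / 4 = (S ^ 2 / 2) ^ 2 := by ring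
      _ ≤ _ := h3
  have hTb : 68 * T ^ 4 ≤ (T ^ 2) ^ 10 := by
    have h1 : (2 : ℝ) ^ 8 ≤ (T ^ 2) ^ 8 := pow_le_pow_left₀ (by norm_num) hT 8
    have h3 : (T ^ 2) ^ 10 = (T ^ 2) ^ 8 * T ^ 4 := by ring
    rw [h3]
    apply mul_le_mul_of_nonneg_right _ (by positivity)
    norm_num at h1
    linarith
  rw [div_le_div_iff₀ (by positivity) hS0]
  calc |A * S ^ 2 + B + 2 * (Y * Y₀) + Y₀ ^ 2 + 3 * S ^ 2 * T ^ 4 - 2 * T ^ 6| * S
      ≤ 17 * (S ^ 3 * T ^ 4) * S := mul_le_mul_of_nonneg_right hnum hS0.le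
    _ = (68 * T ^ 4) * (S ^ 4 / 4) := by ring
    _ ≤ (T ^ 2) ^ 10 * (S ^ 2 - T ^ 2) ^ 2 :=
        mul_le_mul hTb hden (by positivity) (by positivity)

private lemma L_nonneg (a b : ℤ) : 0 ≤ L a b :=
  le_trans (Real.log_nonneg (by norm_num)) (le_max_left _ _)

private lemma abs_le_of_log {u : ℝ} {X : ℝ} (hX : 0 < X) (h : Real.log |u| ≤ Real.log X) :
    |u| ≤ X := by
  rcases eq_or_ne u 0 with rfl | hu
  · rw [abs_zero]; exact hX.le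
  · exact (Real.log_le_log_iff (abs_pos.mpr hu) hX).mp h

open Classical in
/-- The difference of two affine points with distinct abscissas. -/
lemma some_sub {a b : ℤ} {x₁ y₁ x₂ y₂ : ℚ} (h₁ : (curve a b).Nonsingular x₁ y₁)
    (h₂ : (curve a b).Nonsingular x₂ y₂) (hx : x₁ ≠ x₂) :
    ∃ (u v : ℚ) (h : (curve a b).Nonsingular u v),
      u = ((y₁ + y₂) / (x₁ - x₂)) ^ 2 - x₁ - x₂ ∧
      (.some x₁ y₁ h₁ : (curve a b).Point) - .some x₂ y₂ h₂ = .some u v h := by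
  have hn : (curve a b).negY x₂ y₂ = -y₂ := by
    simp only [WeierstrassCurve.Affine.negY, curve]
    ring
  have e := WeierstrassCurve.Affine.Point.add_of_X_ne (h₁ := h₁)
    (h₂ := (WeierstrassCurve.Affine.nonsingular_neg ..).mpr h₂) hx
  have hs := WeierstrassCurve.Affine.slope_of_X_ne (W := curve a b) (y₁ := y₁)
    (y₂ := (curve a b).negY x₂ y₂) hx
  refine ⟨_, _, _, ?_, (sub_eq_add_neg _ _).trans e⟩
  rw [hs, hn]
  simp only [WeierstrassCurve.Affine.addX, curve]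
  ring

open Classical in
/-- The difference of two integral points with distinct abscissas. -/
lemma toPt_sub {a b : ℤ} (hD : D a b ≠ 0) {z z₀ : ℤ × ℤ}
    (hz : z.2 ^ 2 = z.1 ^ 3 + a * z.1 + b) (hz₀ : z₀.2 ^ 2 = z₀.1 ^ 3 + a * z₀.1 + b)
    (hx : (z.1 : ℚ) ≠ (z₀.1 : ℚ)) :
    ∃ (u v : ℚ) (h : (curve a b).Nonsingular u v),
      u = (((z.2 : ℚ) + z₀.2) / (z.1 - z₀.1)) ^ 2 - z.1 - z₀.1 ∧
      toPt hD z - toPt hD z₀ = .some u v h := by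
  obtain ⟨u, v, h, hu, e⟩ := some_sub (nonsing hD hz) (nonsing hD hz₀) hx
  exact ⟨u, v, h, hu, (congrArg₂ (· - ·) (toPt_eq hD hz) (toPt_eq hD hz₀)).trans e⟩

open Classical in
theorem est {a b : ℤ} (hD : D a b ≠ 0) {z z₀ : ℤ × ℤ} (hz : z ∈ integralPoints a b)
    (hz₀ : z₀ ∈ integralPoints a b) (h₀ : 20 * L a b ≤ Real.log |(z₀.1 : ℝ)|)
    (h : 10 * Real.log |(z₀.1 : ℝ)| ≤ Real.log |(z.1 : ℝ)|) :
    repZ (toPt hD z - toPt hD z₀) ≠ 0 ∧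
    |(repX (toPt hD z - toPt hD z₀) : ℝ) / repZ (toPt hD z - toPt hD z₀) - z₀.1| ≤
      Real.exp (10 * Real.log |(z₀.1 : ℝ)| - Real.log |(z.1 : ℝ)| / 2) := by
  have hL := L_nonneg a b
  have hl2 : Real.log 2 ≤ L a b := le_max_left _ _
  have hlog2 : 0 < Real.log 2 := Real.log_pos (by norm_num)
  have hz' : 20 * L a b ≤ Real.log |(z.1 : ℝ)| := by linarith
  obtain ⟨hp, -, hy2⟩ := large_pos hz hz'
  obtain ⟨hp₀, -, hy02⟩ := large_pos hz₀ h₀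
  have hpR : (0 : ℝ) < z.1 := by exact_mod_cast hp
  have hp₀R : (0 : ℝ) < z₀.1 := by exact_mod_cast hp₀
  rw [abs_of_pos hpR] at h hz' ⊢
  rw [abs_of_pos hp₀R] at h h₀ ⊢
  have hx02 : (2 : ℝ) ≤ z₀.1 := by
    rw [← Real.log_le_log_iff (by norm_num) hp₀R]
    linarith
  have ha : |(a : ℝ)| ≤ z₀.1 := by
    apply abs_le_of_log hp₀R
    have h1 : Real.log |(a : ℝ)| / 2 ≤ L a b := le_trans (le_max_left _ _) (le_max_right _ _)
    linarith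
  have hb : |(b : ℝ)| ≤ z₀.1 := by
    apply abs_le_of_log hp₀R
    have h1 : Real.log |(b : ℝ)| / 3 ≤ L a b := le_trans (le_max_right _ _) (le_max_right _ _)
    linarith
  have hpow : (z₀.1 : ℝ) ^ 10 ≤ z.1 := by
    rw [← Real.log_le_log_iff (by positivity) hpR, Real.log_pow]
    push_cast
    exact h
  have h2 : 2 * (z₀.1 : ℝ) ≤ z.1 := by
    refine le_trans ?_ hpow
    have h1 : (2 : ℝ) ^ 9 ≤ (z₀.1 : ℝ) ^ 9 := pow_le_pow_left₀ (by norm_num) hx02 9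
    have h3 : (z₀.1 : ℝ) ^ 10 = (z₀.1 : ℝ) ^ 9 * z₀.1 := by ring
    rw [h3]
    apply mul_le_mul_of_nonneg_right _ hp₀R.le
    norm_num at h1
    linarith
  have hlt : (z₀.1 : ℝ) < z.1 := by linarith
  have hneZ : z.1 ≠ z₀.1 := by
    intro h1
    rw [h1] at hlt
    exact lt_irrefl _ hlt
  have hneQ : (z.1 : ℚ) ≠ (z₀.1 : ℚ) := by exact_mod_cast hneZ
  -- the difference
  have hz1 : z.2 ^ 2 = z.1 ^ 3 + a * z.1 + b := hz
  have hz1₀ : z₀.2 ^ 2 = z₀.1 ^ 3 + a * z₀.1 + b := hz₀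
  obtain ⟨u, v, hv, hu', e⟩ := toPt_sub hD hz1 hz1₀ hneQ
  have eX : repX (toPt hD z - toPt hD z₀) = u.num := congrArg repX e
  have eZ : repZ (toPt hD z - toPt hD z₀) = (u.den : ℤ) := congrArg repZ e
  rw [eX, eZ]
  refine ⟨by exact_mod_cast u.den_nz, ?_⟩
  have hcast : ((u.num : ℤ) : ℝ) / ((u.den : ℤ) : ℝ) = (u : ℝ) := by
    rw [Rat.cast_def]
    push_cast
    rfl
  rw [hcast, hu']
  push_cast
  set S : ℝ := Real.sqrt z.1 with hS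
  set T : ℝ := Real.sqrt z₀.1 with hT
  have hS2 : S ^ 2 = z.1 := Real.sq_sqrt hpR.le
  have hT2 : T ^ 2 = z₀.1 := Real.sq_sqrt hp₀R.le
  have hSpos : 0 < S := Real.sqrt_pos.mpr hpR
  have hexp : Real.exp (10 * Real.log (z₀.1 : ℝ) - Real.log (z.1 : ℝ) / 2) = (T ^ 2) ^ 10 / S := by
    rw [Real.exp_sub]
    congr 1
    · rw [hT2]
      have e1 : (10 : ℝ) * Real.log (z₀.1 : ℝ) = Real.log ((z₀.1 : ℝ) ^ 10) := by
        rw [Real.log_pow]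
        push_cast
        rfl
      rw [e1, Real.exp_log (by positivity)]
    · rw [← Real.log_sqrt hpR.le, Real.exp_log hSpos]
  rw [hexp]
  have hT1 : 1 ≤ T := by
    rw [hT, Real.one_le_sqrt]
    linarith
  have hST : T ≤ S := Real.sqrt_le_sqrt hlt.le
  have hYR : ((z.2 : ℤ) : ℝ) ^ 2 = (z.1 : ℝ) ^ 3 + a * z.1 + b := by exact_mod_cast hz1
  have key := est_real (A := a) (B := b) (Y := z.2) (Y₀ := z₀.2) (S := S) (T := T)
    (by rw [hT2]; exact hx02) hT1 hST (by rw [hT2, hS2]; exact h2)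
    (by rw [hS2]; exact hYR) (by rw [hS2]; exact hy2) (by rw [hT2]; exact hy02)
    (by rw [hT2]; exact ha) (by rw [hT2]; exact hb)
  rw [hS2] at key
  have e2 : (T ^ 2 : ℝ) = z₀.1 := hT2
  rw [e2] at key ⊢
  exact key

end Pool.Agent.H24.LR
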