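import Pool.Agent.H24.LQ.Defs

/-!
# LR F16

The polynomial of degree 16 of `4T = ..`: `f = Φ₂ - x₀ Ψ₂`, `(Φ₂, Ψ₂) = F(F(X, 1))`. `Φ₂` is monic of degree `16`, `Ψ₂` has degree `≤ 15`.
The sum of the absolute values of the coefficients is submultiplicative; every term is a product of at most `64` factors
`X, a, b, x₀` and constants.
-/

namespace Pool.Agent.H24.LR

open Pool.Agent.H24.LP Pool.Agent.H24.LQ Finset Polynomial

/-- The polynomial whose roots are the `x(R)` with `x(4R) = x₀`. -/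
noncomputable def F16 (a b x₀ : ℤ) : ℤ[X] :=
  Phi (C a) (C b) (Phi (C a) (C b) X 1) (Psi (C a) (C b) X 1)
    - C x₀ * Psi (C a) (C b) (Phi (C a) (C b) X 1) (Psi (C a) (C b) X 1)

private lemma phi_eq (a b : ℤ) : Phi (C a) (C b) X 1 =
    X ^ 4 + (C (-2 * a) * X ^ 2 + C (-8 * b) * X + C (a ^ 2)) := by
  simp only [Phi, C_mul, C_neg, C_pow, C_ofNat]
  ring

private lemma phi_monic (a b : ℤ) : (Phi (C a) (C b) X 1 : ℤ[X]).Monic := by
  rw [phi_eq]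
  refine (monic_X_pow 4).add_of_left ?_
  rw [degree_X_pow]
  refine lt_of_le_of_lt (b := (2 : WithBot ℕ)) ?_ (by norm_num)
  compute_degree

private lemma phi_natDegree (a b : ℤ) : (Phi (C a) (C b) X 1 : ℤ[X]).natDegree = 4 := by
  rw [phi_eq, natDegree_add_eq_left_of_natDegree_lt, natDegree_X_pow]
  rw [natDegree_X_pow]
  refine lt_of_le_of_lt (b := 2) ?_ (by norm_num)
  compute_degree

private lemma psi_natDegree (a b : ℤ) : (Psi (C a) (C b) X 1 : ℤ[X]).natDegree ≤ 3 := by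
  simp only [Psi]
  compute_degree

private lemma F16_eq (a b x₀ : ℤ) : ∃ R : ℤ[X], R.natDegree ≤ 15 ∧
    F16 a b x₀ = (Phi (C a) (C b) X 1) ^ 4 + R := by
  have h1 := phi_natDegree a b
  have h2 := psi_natDegree a b
  have hF : F16 a b x₀ = Phi (C a) (C b) (Phi (C a) (C b) X 1) (Psi (C a) (C b) X 1)
    - C x₀ * Psi (C a) (C b) (Phi (C a) (C b) X 1) (Psi (C a) (C b) X 1) := rfl
  rw [hF]
  generalize (Phi (C a) (C b) X 1 : ℤ[X]) = φ at *
  generalize (Psi (C a) (C b) X 1 : ℤ[X]) = ψ at *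
  have hm : ∀ (c : ℤ) (i j : ℕ), (C c * φ ^ i * ψ ^ j).natDegree ≤ 4 * i + 3 * j := by
    intro c i j
    refine natDegree_mul_le.trans (add_le_add ((natDegree_C_mul_le _ _).trans ?_) ?_)
    · refine natDegree_pow_le.trans ?_
      rw [h1, mul_comm]
    · refine natDegree_pow_le.trans ?_
      calc j * ψ.natDegree ≤ j * 3 := Nat.mul_le_mul_left _ h2
        _ = 3 * j := mul_comm _ _
  refine ⟨C (-2 * a) * φ ^ 2 * ψ ^ 2 + C (-8 * b) * φ ^ 1 * ψ ^ 3 + C (a ^ 2) * φ ^ 0 * ψ ^ 4 +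
    C (-4 * x₀) * φ ^ 3 * ψ ^ 1 + C (-4 * x₀ * a) * φ ^ 1 * ψ ^ 3 +
    C (-4 * x₀ * b) * φ ^ 0 * ψ ^ 4, ?_, ?_⟩
  · have g1 := hm (-2 * a) 2 2
    have g2 := hm (-8 * b) 1 3
    have g3 := hm (a ^ 2) 0 4
    have g4 := hm (-4 * x₀) 3 1
    have g5 := hm (-4 * x₀ * a) 1 3
    have g6 := hm (-4 * x₀ * b) 0 4
    exact (natDegree_add_le _ _).trans (max_le ((natDegree_add_le _ _).trans (max_le
      ((natDegree_add_le _ _).trans (max_le ((natDegree_add_le _ _).trans (max_le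
      ((natDegree_add_le _ _).trans (max_le (by omega) (by omega))) (by omega)))
      (by omega))) (by omega))) (by omega))
  · simp only [Phi, Psi, C_mul, C_neg, C_pow, C_ofNat]
    ring

lemma F16_monic (a b x₀ : ℤ) : (F16 a b x₀).Monic := by
  obtain ⟨R, hR, h⟩ := F16_eq a b x₀
  rw [h]
  refine ((phi_monic a b).pow 4).add_of_left ?_
  rw [degree_eq_natDegree ((phi_monic a b).pow 4).ne_zero, (phi_monic a b).natDegree_pow,
    phi_natDegree]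
  refine lt_of_le_of_lt degree_le_natDegree ?_
  exact_mod_cast (by omega : R.natDegree < 4 * 4)

lemma F16_natDegree (a b x₀ : ℤ) : (F16 a b x₀).natDegree = 16 := by
  obtain ⟨R, hR, h⟩ := F16_eq a b x₀
  rw [h, natDegree_add_eq_left_of_natDegree_lt, (phi_monic a b).natDegree_pow, phi_natDegree]
  rw [(phi_monic a b).natDegree_pow, phi_natDegree]
  omega

/-- `g` majorises `f` coefficient by coefficient. -/
private def Mj (f : ℤ[X]) (g : ℝ[X]) : Prop := ∀ i, |(f.coeff i : ℝ)| ≤ g.coeff i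

private lemma Mj.add {f f' : ℤ[X]} {g g' : ℝ[X]} (h : Mj f g) (h' : Mj f' g') :
    Mj (f + f') (g + g') := by
  intro i
  rw [coeff_add, coeff_add, Int.cast_add]
  exact (abs_add_le _ _).trans (add_le_add (h i) (h' i))

private lemma Mj.sub {f f' : ℤ[X]} {g g' : ℝ[X]} (h : Mj f g) (h' : Mj f' g') :
    Mj (f - f') (g + g') := by
  intro i
  rw [coeff_sub, coeff_add, Int.cast_sub]
  exact (abs_sub _ _).trans (add_le_add (h i) (h' i))

private lemma Mj.mul {f f' : ℤ[X]} {g g' : ℝ[X]} (h : Mj f g) (h' : Mj f' g') :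
    Mj (f * f') (g * g') := by
  intro i
  rw [coeff_mul, coeff_mul, Int.cast_sum]
  refine (Finset.abs_sum_le_sum_abs _ _).trans (Finset.sum_le_sum fun p _ => ?_)
  rw [Int.cast_mul, abs_mul]
  exact mul_le_mul (h _) (h' _) (abs_nonneg _) ((abs_nonneg _).trans (h _))

private lemma Mj.one : Mj 1 1 := by
  intro i
  rw [coeff_one, coeff_one]
  split_ifs <;> simp

private lemma Mj.pow {f : ℤ[X]} {g : ℝ[X]} (h : Mj f g) (n : ℕ) : Mj (f ^ n) (g ^ n) := by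
  induction n with
  | zero => rw [pow_zero, pow_zero]; exact Mj.one
  | succ n ih => rw [pow_succ, pow_succ]; exact ih.mul h

private lemma Mj.C (a : ℤ) : Mj (Polynomial.C a) (Polynomial.C |(a : ℝ)|) := by
  intro i
  rw [coeff_C, coeff_C]
  split_ifs <;> simp

private lemma Mj.X : Mj X X := by
  intro i
  rw [coeff_X, coeff_X]
  split_ifs <;> simp

private lemma Mj.two : Mj 2 2 := by
  have h := Mj.one.add Mj.one
  rwa [one_add_one_eq_two, one_add_one_eq_two] at h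

private lemma Mj.four : Mj 4 4 := by
  have h := Mj.two.add Mj.two
  rwa [two_add_two_eq_four, two_add_two_eq_four] at h

private lemma Mj.eight : Mj 8 8 := by
  have h := Mj.four.mul Mj.two
  have h1 : (4 * 2 : ℤ[X]) = 8 := by norm_num
  have h2 : (4 * 2 : ℝ[X]) = 8 := by norm_num
  rwa [h1, h2] at h

private lemma Mj.eval {f : ℤ[X]} {g : ℝ[X]} (h : Mj f g) (i : ℕ) :
    |(f.coeff i : ℝ)| ≤ g.eval 1 := by
  have h0 : ∀ j, 0 ≤ g.coeff j := fun j => (abs_nonneg _).trans (h j)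
  rw [eval_eq_sum_range]
  simp only [one_pow, mul_one]
  by_cases hi : i ≤ g.natDegree
  · exact (h i).trans (Finset.single_le_sum (f := fun j => g.coeff j) (fun j _ => h0 j)
      (Finset.mem_range.2 (Nat.lt_succ_of_le hi)))
  · have h1 := h i
    rw [coeff_eq_zero_of_natDegree_lt (not_le.1 hi)] at h1
    exact h1.trans (Finset.sum_nonneg fun j _ => h0 j)

private lemma Mj.phi {A B P Q : ℤ[X]} {A' B' P' Q' : ℝ[X]} (hA : Mj A A') (hB : Mj B B')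
    (hP : Mj P P') (hQ : Mj Q Q') : Mj (Phi A B P Q)
      (P' ^ 4 + 2 * A' * P' ^ 2 * Q' ^ 2 + 8 * B' * P' * Q' ^ 3 + A' ^ 2 * Q' ^ 4) := by
  unfold Phi
  exact (((hP.pow 4).sub (((Mj.two.mul hA).mul (hP.pow 2)).mul (hQ.pow 2))).sub
    (((Mj.eight.mul hB).mul hP).mul (hQ.pow 3))).add ((hA.pow 2).mul (hQ.pow 4))

private lemma Mj.psi {A B P Q : ℤ[X]} {A' B' P' Q' : ℝ[X]} (hA : Mj A A') (hB : Mj B B')
    (hP : Mj P P') (hQ : Mj Q Q') : Mj (Psi A B P Q)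
      (4 * Q' * (P' ^ 3 + A' * P' * Q' ^ 2 + B' * Q' ^ 3)) := by
  unfold Psi
  exact (Mj.four.mul hQ).mul (((hP.pow 3).add ((hA.mul hP).mul (hQ.pow 2))).add
    (hB.mul (hQ.pow 3)))

lemma F16_coeff : ∃ K : ℝ, 1 ≤ K ∧ ∀ (a b x₀ : ℤ) (A : ℝ), 1 ≤ A → |(a : ℝ)| ≤ Real.exp A →
    |(b : ℝ)| ≤ Real.exp A → |(x₀ : ℝ)| ≤ Real.exp A →
    ∀ i, |((F16 a b x₀).coeff i : ℝ)| ≤ Real.exp (K * A) := by
  refine ⟨27, by norm_num, fun a b x₀ A hA ha hb hx i => ?_⟩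
  have hE : 2 ≤ Real.exp A := by
    have h1 := Real.add_one_le_exp (1 : ℝ)
    have h2 := Real.exp_le_exp.2 hA
    linarith
  have hK : Real.exp (27 * A) = Real.exp A ^ 27 := by
    rw [← Real.exp_nat_mul]; norm_num
  rw [hK]
  have hφ := Mj.phi (Mj.C a) (Mj.C b) Mj.X Mj.one
  have hψ := Mj.psi (Mj.C a) (Mj.C b) Mj.X Mj.one
  have hF := ((Mj.phi (Mj.C a) (Mj.C b) hφ hψ).sub ((Mj.C x₀).mul
    (Mj.psi (Mj.C a) (Mj.C b) hφ hψ))).eval i
  refine hF.trans ?_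
  simp only [eval_add, eval_mul, eval_pow, eval_C, eval_X, eval_ofNat, one_pow, mul_one]
  generalize Real.exp A = E at *
  have ha0 := abs_nonneg (a : ℝ)
  have hb0 := abs_nonneg (b : ℝ)
  have hx0 := abs_nonneg (x₀ : ℝ)
  generalize |(a : ℝ)| = α at *
  generalize |(b : ℝ)| = β at *
  generalize |(x₀ : ℝ)| = ξ at *
  have h1 : 1 + 2 * α + 8 * β + α ^ 2 ≤ 12 * E ^ 2 := by nlinarith
  have h2 : 4 * (1 + α + β) ≤ 12 * E := by linarith
  have h1' : 0 ≤ 1 + 2 * α + 8 * β + α ^ 2 := by positivity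
  have h2' : 0 ≤ 4 * (1 + α + β) := by positivity
  generalize 1 + 2 * α + 8 * β + α ^ 2 = P at *
  generalize 4 * (1 + α + β) = Q at *
  have hE0 : 0 ≤ E := by linarith
  calc P ^ 4 + 2 * α * P ^ 2 * Q ^ 2 + 8 * β * P * Q ^ 3 + α ^ 2 * Q ^ 4 +
        ξ * (4 * Q * (P ^ 3 + α * P * Q ^ 2 + β * Q ^ 3))
      ≤ (12 * E ^ 2) ^ 4 + 2 * E * (12 * E ^ 2) ^ 2 * (12 * E) ^ 2 +
        8 * E * (12 * E ^ 2) * (12 * E) ^ 3 + E ^ 2 * (12 * E) ^ 4 +
        E * (4 * (12 * E) * ((12 * E ^ 2) ^ 3 + E * (12 * E ^ 2) * (12 * E) ^ 2 +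
          E * (12 * E) ^ 3)) := by gcongr
    _ = 103680 * E ^ 8 + 124416 * E ^ 7 + 269568 * E ^ 6 := by ring
    _ ≤ 524288 * E ^ 8 := by
        have g7 : E ^ 7 ≤ E ^ 8 := pow_le_pow_right₀ (by linarith) (by norm_num)
        have g6 : E ^ 6 ≤ E ^ 8 := pow_le_pow_right₀ (by linarith) (by norm_num)
        nlinarith [pow_nonneg hE0 8]
    _ = 2 ^ 19 * E ^ 8 := by norm_num
    _ ≤ E ^ 19 * E ^ 8 := by gcongr
    _ = E ^ 27 := by rw [← pow_add]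

/-- If `φ(α) = u ψ(α)` and `φ(u) = x₀ ψ(u)`, then `α` is a root. -/
lemma F16_root (a b x₀ : ℤ) {α u : ℂ} (h1 : Phi (a : ℂ) b α 1 = u * Psi (a : ℂ) b α 1)
    (h2 : Phi (a : ℂ) b u 1 = x₀ * Psi (a : ℂ) b u 1) : aeval α (F16 a b x₀) = 0 := by
  have t2 : aeval α (2 : ℤ[X]) = (2 : ℂ) := map_ofNat (aeval α) 2
  have t4 : aeval α (4 : ℤ[X]) = (4 : ℂ) := map_ofNat (aeval α) 4
  have t8 : aeval α (8 : ℤ[X]) = (8 : ℂ) := map_ofNat (aeval α) 8
  have e1 : aeval α (Phi (C a) (C b) X 1 : ℤ[X]) = Phi (a : ℂ) b α 1 := by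
    simp [Phi, t2, t8]
  have e2 : aeval α (Psi (C a) (C b) X 1 : ℤ[X]) = Psi (a : ℂ) b α 1 := by
    simp [Psi, t4]
  have e3 : aeval α (F16 a b x₀) = Phi (a : ℂ) b (Phi (a : ℂ) b α 1) (Psi (a : ℂ) b α 1) -
      x₀ * Psi (a : ℂ) b (Phi (a : ℂ) b α 1) (Psi (a : ℂ) b α 1) := by
    have hF : F16 a b x₀ = Phi (C a) (C b) (Phi (C a) (C b) X 1) (Psi (C a) (C b) X 1)
      - C x₀ * Psi (C a) (C b) (Phi (C a) (C b) X 1) (Psi (C a) (C b) X 1) := rfl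
    rw [hF, ← e1, ← e2]
    generalize (Phi (C a) (C b) X 1 : ℤ[X]) = φ
    generalize (Psi (C a) (C b) X 1 : ℤ[X]) = ψ
    simp [Phi, Psi, t2, t4, t8]
  rw [e3, h1]
  generalize Psi (a : ℂ) b α 1 = ψ
  have e4 : Phi (a : ℂ) b (u * ψ) ψ = ψ ^ 4 * Phi (a : ℂ) b u 1 := by
    simp only [Phi]; ring
  have e5 : Psi (a : ℂ) b (u * ψ) ψ = ψ ^ 4 * Psi (a : ℂ) b u 1 := by
    simp only [Psi]; ring
  rw [e4, e5, h2]
  ring

end Pool.Agent.H24.LR
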