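import Mathlib

/-!
# LR Lower

Lower bound: `q₁^m q₂^3 V` is an integer (`q_i` the denominators), so `V ≠ 0` gives `|V| ≥ q₁^{-m} q₂^{-3}`, and `q_i ≤ e^{h_i}`.
-/

namespace Pool.Agent.H24.LR

open Finset Polynomial

private lemma pow_int (β : ℚ) {i m : ℕ} (h : i ≤ m) :
    (β.den : ℚ) ^ m * β ^ i = (((β.den : ℤ) ^ (m - i) * β.num ^ i : ℤ) : ℚ) := by
  have hd : (β.den : ℚ) ≠ 0 := by exact_mod_cast β.den_nz
  have h1 : β = (β.num : ℚ) / (β.den : ℚ) := (Rat.num_div_den β).symm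
  have h2 : (β.den : ℚ) * β = β.num := by
    rw [mul_comm]
    exact Rat.mul_den_eq_num β
  have h3 : (β.den : ℚ) ^ m = (β.den : ℚ) ^ (m - i) * (β.den : ℚ) ^ i := by
    rw [← pow_add, Nat.sub_add_cancel h]
  rw [h3, mul_assoc, ← mul_pow, h2]
  push_cast
  rfl

private lemma eval_int (Q : ℤ[X]) {m : ℕ} (hQ : Q.natDegree ≤ m) (β : ℚ) :
    ∃ z : ℤ, (β.den : ℚ) ^ m * (Q.map (Int.castRingHom ℚ)).eval β = z := by
  refine ⟨∑ i ∈ range (m + 1), Q.coeff i * ((β.den : ℤ) ^ (m - i) * β.num ^ i), ?_⟩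
  have h1 : (Q.map (Int.castRingHom ℚ)).natDegree < m + 1 :=
    lt_of_le_of_lt natDegree_map_le (Nat.lt_succ_of_le hQ)
  rw [eval_eq_sum_range' h1, mul_sum, Int.cast_sum]
  apply sum_congr rfl
  intro i hi
  have h2 := pow_int β (Nat.le_of_lt_succ (mem_range.1 hi))
  rw [Int.cast_mul, ← h2, coeff_map]
  simp only [eq_intCast]
  ring

private lemma hasse_map (n : ℕ) (P : ℤ[X]) :
    hasseDeriv n (P.map (Int.castRingHom ℚ)) = (hasseDeriv n P).map (Int.castRingHom ℚ) := by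
  ext i
  rw [hasseDeriv_coeff, coeff_map, coeff_map, hasseDeriv_coeff]
  simp

theorem aux_lower {m n : ℕ} (P : Fin 4 → ℤ[X]) (hm : ∀ j, (P j).natDegree ≤ m) (β₁ β₂ : ℚ)
    (h₁ h₂ : ℝ) (hh₁ : Real.log β₁.den ≤ h₁) (hh₂ : Real.log β₂.den ≤ h₂)
    (hne : ∑ j : Fin 4, β₂ ^ (j : ℕ) * (hasseDeriv n ((P j).map (Int.castRingHom ℚ))).eval β₁ ≠ 0) :
    Real.exp (-(m * h₁ + 3 * h₂)) ≤
      |((∑ j : Fin 4, β₂ ^ (j : ℕ) * (hasseDeriv n ((P j).map (Int.castRingHom ℚ))).eval β₁ : ℚ) : ℝ)| := by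
  set V : ℚ := ∑ j : Fin 4, β₂ ^ (j : ℕ) * (hasseDeriv n ((P j).map (Int.castRingHom ℚ))).eval β₁
    with hV
  have hex : ∀ j : Fin 4, ∃ z : ℤ, (β₁.den : ℚ) ^ m * (β₂.den : ℚ) ^ 3 *
      (β₂ ^ (j : ℕ) * (hasseDeriv n ((P j).map (Int.castRingHom ℚ))).eval β₁) = z := by
    intro j
    have hdeg : (hasseDeriv n (P j)).natDegree ≤ m :=
      le_trans (natDegree_hasseDeriv_le (P j) n) (le_trans (Nat.sub_le _ _) (hm j))
    obtain ⟨z, hz⟩ := eval_int (hasseDeriv n (P j)) hdeg β₁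
    have h1 := pow_int β₂ (i := (j : ℕ)) (m := 3) (by omega)
    refine ⟨z * ((β₂.den : ℤ) ^ (3 - (j : ℕ)) * β₂.num ^ (j : ℕ)), ?_⟩
    rw [hasse_map, Int.cast_mul, ← hz, ← h1]
    ring
  choose z hz using hex
  have hsum : (β₁.den : ℚ) ^ m * (β₂.den : ℚ) ^ 3 * V = ((∑ j, z j : ℤ) : ℚ) := by
    rw [hV, mul_sum, Int.cast_sum]
    exact sum_congr rfl (fun j _ => hz j)
  have hd1 : (0 : ℚ) < β₁.den := by exact_mod_cast β₁.den_pos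
  have hd2 : (0 : ℚ) < β₂.den := by exact_mod_cast β₂.den_pos
  have hz0 : (∑ j, z j : ℤ) ≠ 0 := by
    intro h
    rw [h, Int.cast_zero] at hsum
    have h1 : (β₁.den : ℚ) ^ m * (β₂.den : ℚ) ^ 3 ≠ 0 := by positivity
    exact hne ((mul_eq_zero.1 hsum).resolve_left h1)
  have h1 : (1 : ℚ) ≤ |(β₁.den : ℚ) ^ m * (β₂.den : ℚ) ^ 3 * V| := by
    rw [hsum, ← Int.cast_abs]
    exact_mod_cast Int.one_le_abs hz0
  have h2 : (1 : ℝ) ≤ (β₁.den : ℝ) ^ m * (β₂.den : ℝ) ^ 3 * |(V : ℝ)| := by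
    have h3 : ((1 : ℚ) : ℝ) ≤ ((|(β₁.den : ℚ) ^ m * (β₂.den : ℚ) ^ 3 * V| : ℚ) : ℝ) :=
      Rat.cast_le.2 h1
    rw [Rat.cast_one, Rat.cast_abs, Rat.cast_mul, Rat.cast_mul, Rat.cast_pow, Rat.cast_pow,
      Rat.cast_natCast, Rat.cast_natCast, abs_mul] at h3
    rwa [abs_of_nonneg (by positivity : (0 : ℝ) ≤ (β₁.den : ℝ) ^ m * (β₂.den : ℝ) ^ 3)] at h3
  have hr1 : (0 : ℝ) < β₁.den := by exact_mod_cast β₁.den_pos
  have hr2 : (0 : ℝ) < β₂.den := by exact_mod_cast β₂.den_pos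
  have h4 : (β₁.den : ℝ) ^ m * (β₂.den : ℝ) ^ 3 ≤ Real.exp (m * h₁ + 3 * h₂) := by
    have e1 : (β₁.den : ℝ) ^ m = Real.exp (m * Real.log β₁.den) := by
      rw [mul_comm, Real.exp_mul, Real.exp_log hr1, Real.rpow_natCast]
    have e2 : (β₂.den : ℝ) ^ 3 = Real.exp (3 * Real.log β₂.den) := by
      rw [mul_comm, Real.exp_mul, Real.exp_log hr2]
      norm_num
    rw [e1, e2, ← Real.exp_add]
    apply Real.exp_le_exp.2
    have h5 : (m : ℝ) * Real.log β₁.den ≤ m * h₁ :=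
      mul_le_mul_of_nonneg_left hh₁ (Nat.cast_nonneg m)
    linarith
  rw [Real.exp_neg, inv_le_iff_one_le_mul₀ (Real.exp_pos _)]
  calc (1 : ℝ) ≤ (β₁.den : ℝ) ^ m * (β₂.den : ℝ) ^ 3 * |(V : ℝ)| := h2
    _ ≤ Real.exp (m * h₁ + 3 * h₂) * |(V : ℝ)| :=
        mul_le_mul_of_nonneg_right h4 (abs_nonneg _)
    _ = |(V : ℝ)| * Real.exp (m * h₁ + 3 * h₂) := mul_comm _ _

end Pool.Agent.H24.LR
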