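import Pool.Agent.H24.LR.Ord

/-!
# LR Upper

Upper bound. `V = ∑_j β₂^j P_j^[n](β₁)`, `P^[n] = hasseDeriv n P`. `|β₁|, |β₂|, |α| ≤ e^{A+2}` (`|α| ≤ e^{A+1}`). Write
`V = ∑_j (β₂^j - α^j) P_j^[n](β₁) + G_α^[n](β₁)`, `G_α = ∑ α^j P_j = (X - α)^k R`. First sum: `|β₂^j - α^j| ≤ 3 |β₂ - α| (e^{A+2})²`,
`|P_j^[n](β₁)| ≤ (m+1) 2^m exp(K(m+1)A) e^{(A+2)m}`. Second: Taylor at `α`:
`G^[n](β₁) = ∑_{i ≥ k} binom(i,n) G^[i](α) (β₁-α)^{i-n}` (`G^[i](α) = 0` for `i < k`), `n ≤ k`, `|β₁ - α| ≤ 1`: at most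
`(m+1) 2^m max|G^[i](α)| |β₁-α|^{k-n}`.
-/

namespace Pool.Agent.H24.LR

open Finset Polynomial

private lemma upper_eval_hasse (p : ℂ[X]) (m n : ℕ) (hp : p.natDegree ≤ m) (z : ℂ) :
    (hasseDeriv n p).eval z = ∑ i ∈ range (m + 1), ((i.choose n : ℕ) : ℂ) * p.coeff i * z ^ (i - n) := by
  rw [hasseDeriv_apply, Polynomial.sum_over_range' _ _ (m + 1) (by omega)]
  · rw [eval_finsetSum]
    refine Finset.sum_congr rfl fun i _ => ?_
    rw [eval_monomial]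
  · intro i
    simp

private lemma upper_choose_le (i n m : ℕ) (hi : i ≤ m) : ((i.choose n : ℕ) : ℝ) ≤ 2 ^ m := by
  have h1 : i.choose n ≤ 2 ^ i := Nat.choose_le_two_pow i n
  have h2 : (2 : ℕ) ^ i ≤ 2 ^ m := Nat.pow_le_pow_right (by norm_num) hi
  exact_mod_cast h1.trans h2

private lemma upper_hasse_bound (p : ℂ[X]) (m n : ℕ) (hp : p.natDegree ≤ m) (z : ℂ) (E R : ℝ)
    (hE : 0 ≤ E) (hR : 1 ≤ R) (hc : ∀ i, ‖p.coeff i‖ ≤ E) (hz : ‖z‖ ≤ R) :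
    ‖(hasseDeriv n p).eval z‖ ≤ (m + 1) * (2 ^ m * E * R ^ m) := by
  rw [upper_eval_hasse p m n hp z]
  refine (norm_sum_le _ _).trans ?_
  have hterm : ∀ i ∈ range (m + 1),
      ‖((i.choose n : ℕ) : ℂ) * p.coeff i * z ^ (i - n)‖ ≤ 2 ^ m * E * R ^ m := by
    intro i hi
    have hi' : i ≤ m := by
      have := Finset.mem_range.mp hi
      omega
    rw [norm_mul, norm_mul, norm_pow, Complex.norm_natCast]
    have h1 := upper_choose_le i n m hi'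
    have h2 : ‖z‖ ^ (i - n) ≤ R ^ m := by
      calc ‖z‖ ^ (i - n) ≤ R ^ (i - n) := pow_le_pow_left₀ (norm_nonneg _) hz _
        _ ≤ R ^ m := pow_le_pow_right₀ hR (by omega)
    have h3 : (0 : ℝ) ≤ ((i.choose n : ℕ) : ℝ) := Nat.cast_nonneg _
    have h4 : ((i.choose n : ℕ) : ℝ) * ‖p.coeff i‖ ≤ 2 ^ m * E :=
      mul_le_mul h1 (hc i) (norm_nonneg _) (by positivity)
    exact mul_le_mul h4 h2 (by positivity) (by positivity)
  refine (Finset.sum_le_sum hterm).trans ?_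
  rw [Finset.sum_const, Finset.card_range, nsmul_eq_mul]
  push_cast
  exact le_refl _

private lemma upper_pow_diff (a b : ℂ) (R : ℝ) (hR : 1 ≤ R) (ha : ‖a‖ ≤ R) (hb : ‖b‖ ≤ R)
    (j : Fin 4) : ‖b ^ (j : ℕ) - a ^ (j : ℕ)‖ ≤ 3 * R ^ 2 * ‖a - b‖ := by
  have hd : 0 ≤ ‖a - b‖ := norm_nonneg _
  have hR2 : R ≤ R ^ 2 := by nlinarith
  have hR1 : 1 ≤ R ^ 2 := by nlinarith
  have hsw : ‖b - a‖ = ‖a - b‖ := norm_sub_rev b a
  fin_cases j
  · simp only [pow_zero, sub_self, norm_zero]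
    positivity
  · simp only [pow_one]
    rw [hsw]
    nlinarith
  · have h : b ^ 2 - a ^ 2 = (b + a) * (b - a) := by ring
    have h1 : ‖b + a‖ ≤ 2 * R := by
      calc ‖b + a‖ ≤ ‖b‖ + ‖a‖ := norm_add_le _ _
        _ ≤ 2 * R := by linarith
    have h2 : ‖b ^ 2 - a ^ 2‖ ≤ 3 * R ^ 2 * ‖a - b‖ := by
      rw [h, norm_mul, hsw]
      exact mul_le_mul_of_nonneg_right (by nlinarith) hd
    exact h2
  · have h : b ^ 3 - a ^ 3 = (b ^ 2 + b * a + a ^ 2) * (b - a) := by ring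
    have h1 : ‖b ^ 2 + b * a + a ^ 2‖ ≤ 3 * R ^ 2 := by
      have h11 : ‖b ^ 2‖ ≤ R ^ 2 := by
        rw [norm_pow]
        exact pow_le_pow_left₀ (norm_nonneg _) hb 2
      have h12 : ‖a ^ 2‖ ≤ R ^ 2 := by
        rw [norm_pow]
        exact pow_le_pow_left₀ (norm_nonneg _) ha 2
      have h13 : ‖b * a‖ ≤ R ^ 2 := by
        rw [norm_mul, sq]
        exact mul_le_mul hb ha (norm_nonneg _) (by linarith)
      calc ‖b ^ 2 + b * a + a ^ 2‖ ≤ ‖b ^ 2 + b * a‖ + ‖a ^ 2‖ := norm_add_le _ _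
        _ ≤ ‖b ^ 2‖ + ‖b * a‖ + ‖a ^ 2‖ := by
            have := norm_add_le (b ^ 2) (b * a)
            linarith
        _ ≤ 3 * R ^ 2 := by linarith
    have h2 : ‖b ^ 3 - a ^ 3‖ ≤ 3 * R ^ 2 * ‖a - b‖ := by
      rw [h, norm_mul, hsw]
      exact mul_le_mul_of_nonneg_right h1 hd
    exact h2

/-- Taylor bound: if `(X - α)^k ∣ G` and the Taylor coefficients of `G` at `α` are at most `B`. -/
private lemma upper_taylor_bound (G : ℂ[X]) (m n k : ℕ) (hG : G.natDegree ≤ m) (α z : ℂ)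
    (hdvd : (X - C α) ^ k ∣ G) (B : ℝ) (hB : 0 ≤ B)
    (hT : ∀ i, ‖(hasseDeriv i G).eval α‖ ≤ B) (hz : ‖α - z‖ ≤ 1) (hn : n ≤ k) :
    ‖(hasseDeriv n G).eval z‖ ≤ (m + 1) * (2 ^ m * B * ‖α - z‖ ^ (k - n)) := by
  set T : ℂ[X] := taylor α G with hTdef
  have hTdeg : T.natDegree ≤ m := by
    rw [hTdef, natDegree_taylor]
    exact hG
  have hTc : ∀ i, T.coeff i = (hasseDeriv i G).eval α := by
    intro i
    rw [hTdef, taylor_coeff]
  have hT0 : ∀ i < k, T.coeff i = 0 := by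
    have h1 : X ^ k ∣ G.comp (X + C α) := (X_sub_C_pow_dvd_iff).mp hdvd
    have h2 := X_pow_dvd_iff.mp h1
    intro i hi
    rw [hTdef, taylor_apply]
    exact h2 i hi
  have hval : (hasseDeriv n G).eval z = (hasseDeriv n T).eval (z - α) := by
    have h1 : (taylor z G).coeff n = (hasseDeriv n G).eval z := taylor_coeff _ _ _
    have h2 : (taylor (z - α) T).coeff n = (hasseDeriv n T).eval (z - α) := taylor_coeff _ _ _
    have h3 : taylor (z - α) T = taylor z G := by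
      rw [hTdef, taylor_taylor, sub_add_cancel]
    rw [← h1, ← h2, h3]
  rw [hval, upper_eval_hasse T m n hTdeg (z - α)]
  refine (norm_sum_le _ _).trans ?_
  have hsw : ‖z - α‖ = ‖α - z‖ := norm_sub_rev z α
  have hterm : ∀ i ∈ range (m + 1),
      ‖((i.choose n : ℕ) : ℂ) * T.coeff i * (z - α) ^ (i - n)‖ ≤
        2 ^ m * B * ‖α - z‖ ^ (k - n) := by
    intro i hi
    have hi' : i ≤ m := by
      have := Finset.mem_range.mp hi
      omega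
    by_cases hik : i < k
    · rw [hT0 i hik, mul_zero, zero_mul, norm_zero]
      positivity
    · push Not at hik
      rw [norm_mul, norm_mul, norm_pow, Complex.norm_natCast, hsw]
      have h1 := upper_choose_le i n m hi'
      have h2 : ‖α - z‖ ^ (i - n) ≤ ‖α - z‖ ^ (k - n) :=
        pow_le_pow_of_le_one (norm_nonneg _) hz (by omega)
      have h4 : ((i.choose n : ℕ) : ℝ) * ‖T.coeff i‖ ≤ 2 ^ m * B := by
        refine mul_le_mul h1 ?_ (norm_nonneg _) (by positivity)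
        rw [hTc i]
        exact hT i
      exact mul_le_mul h4 h2 (by positivity) (by positivity)
  refine (Finset.sum_le_sum hterm).trans ?_
  rw [Finset.sum_const, Finset.card_range, nsmul_eq_mul]
  push_cast
  exact le_refl _

private lemma upper_const (K A : ℝ) (hA : 1 ≤ A) (m : ℕ) :
    12 * ((m : ℝ) + 1) ^ 2 * 4 ^ m * Real.exp (A + 2) ^ (m + 3) * Real.exp (K * (m + 1) * A) ≤
      Real.exp ((K + 16) * (m + 1) * A) := by
  have hm : (0 : ℝ) ≤ (m : ℝ) := Nat.cast_nonneg m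
  have hMA : (m : ℝ) + 1 ≤ ((m : ℝ) + 1) * A := by nlinarith
  have e3 : (12 : ℝ) ≤ Real.exp 3 := by
    have h1 : (2.7 : ℝ) ≤ Real.exp 1 := by
      have := Real.exp_one_gt_d9
      linarith
    have h2 : Real.exp 3 = Real.exp 1 ^ 3 := by
      rw [← Real.exp_nat_mul]
      norm_num
    rw [h2]
    have h3 : (2.7 : ℝ) ^ 3 ≤ Real.exp 1 ^ 3 := pow_le_pow_left₀ (by norm_num) h1 3
    have h4 : (12 : ℝ) ≤ 2.7 ^ 3 := by norm_num
    linarith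
  have e1 : (12 : ℝ) ≤ Real.exp (3 * (((m : ℝ) + 1) * A)) := by
    refine e3.trans (Real.exp_le_exp.mpr ?_)
    nlinarith
  have e2 : ((m : ℝ) + 1) ^ 2 ≤ Real.exp (2 * (((m : ℝ) + 1) * A)) := by
    have h1 : (m : ℝ) + 1 ≤ Real.exp ((m : ℝ) + 1) := by
      have := Real.add_one_le_exp ((m : ℝ) + 1)
      linarith
    have h2 : (m : ℝ) + 1 ≤ Real.exp (((m : ℝ) + 1) * A) :=
      h1.trans (Real.exp_le_exp.mpr hMA)
    have h3 : Real.exp (2 * (((m : ℝ) + 1) * A)) = Real.exp (((m : ℝ) + 1) * A) ^ 2 := by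
      rw [← Real.exp_nat_mul]
      norm_num
    rw [h3]
    exact pow_le_pow_left₀ (by linarith) h2 2
  have e4 : (4 : ℝ) ^ m ≤ Real.exp (2 * (((m : ℝ) + 1) * A)) := by
    have h1 : (4 : ℝ) ≤ Real.exp 2 := by
      have h1 : (2 : ℝ) ≤ Real.exp 1 := by
        have := Real.exp_one_gt_d9
        linarith
      have h2 : Real.exp 2 = Real.exp 1 ^ 2 := by
        rw [← Real.exp_nat_mul]
        norm_num
      rw [h2]
      nlinarith
    calc (4 : ℝ) ^ m ≤ Real.exp 2 ^ m := pow_le_pow_left₀ (by norm_num) h1 m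
      _ = Real.exp ((m : ℝ) * 2) := by rw [← Real.exp_nat_mul]
      _ ≤ Real.exp (2 * (((m : ℝ) + 1) * A)) := by
          refine Real.exp_le_exp.mpr ?_
          linarith
  have e5 : Real.exp (A + 2) ^ (m + 3) ≤ Real.exp (9 * (((m : ℝ) + 1) * A)) := by
    rw [← Real.exp_nat_mul]
    refine Real.exp_le_exp.mpr ?_
    push_cast
    have h1 : A + 2 ≤ 3 * A := by linarith
    have h2 : ((m : ℝ) + 3) * (A + 2) ≤ ((m : ℝ) + 3) * (3 * A) :=
      mul_le_mul_of_nonneg_left h1 (by linarith)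
    nlinarith
  have hsplit : Real.exp ((K + 16) * (m + 1) * A) =
      Real.exp (3 * (((m : ℝ) + 1) * A)) * Real.exp (2 * (((m : ℝ) + 1) * A)) *
        Real.exp (2 * (((m : ℝ) + 1) * A)) * Real.exp (9 * (((m : ℝ) + 1) * A)) *
        Real.exp (K * (m + 1) * A) := by
    rw [← Real.exp_add, ← Real.exp_add, ← Real.exp_add, ← Real.exp_add]
    ring_nf
  rw [hsplit]
  gcongr

theorem aux_upper (K : ℝ) (hK : 1 ≤ K) : ∃ K' : ℝ, 1 ≤ K' ∧ ∀ (g : ℤ[X]) (k m : ℕ)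
    (P : Fin 4 → ℤ[X]), IsAux g k m P → ∀ A : ℝ, 1 ≤ A →
    (∀ j i, |((P j).coeff i : ℝ)| ≤ Real.exp (K * (m + 1) * A)) →
    ∀ (α : ℂ) (β₁ β₂ : ℚ), aeval α g = 0 → ‖α‖ ≤ Real.exp (A + 1) → ‖α - (β₁ : ℂ)‖ ≤ 1 →
    ‖α - (β₂ : ℂ)‖ ≤ 1 → ∀ n ≤ k,
    |((∑ j : Fin 4, β₂ ^ (j : ℕ) * (hasseDeriv n ((P j).map (Int.castRingHom ℚ))).eval β₁ : ℚ) : ℝ)|
      ≤ Real.exp (K' * (m + 1) * A) * (‖α - (β₁ : ℂ)‖ ^ (k - n) + ‖α - (β₂ : ℂ)‖) := by
  refine ⟨K + 16, by linarith, ?_⟩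
  intro g k m P hP A hA hc α β₁ β₂ hα hαn h1 h2 n hn
  obtain ⟨hP0, hPdeg, hPdvd⟩ := id hP
  set E : ℝ := Real.exp (K * (m + 1) * A) with hE
  set R : ℝ := Real.exp (A + 2) with hR
  have hEpos : 0 < E := Real.exp_pos _
  have hRpos : 0 < R := Real.exp_pos _
  have hR1 : 1 ≤ R := Real.one_le_exp (by linarith)
  have hαR' : ‖α‖ + 1 ≤ R := by
    have hexp1 : (1 : ℝ) ≤ Real.exp (A + 1) := Real.one_le_exp (by linarith)
    have hexp2 : R = Real.exp (A + 1) * Real.exp 1 := by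
      rw [hR, ← Real.exp_add]
      ring_nf
    have hexp3 : (2 : ℝ) ≤ Real.exp 1 := by
      have := Real.exp_one_gt_d9
      linarith
    nlinarith
  have hαR : ‖α‖ ≤ R := by linarith
  have hb1R : ‖(β₁ : ℂ)‖ ≤ R := by
    have h3 : (β₁ : ℂ) = α - (α - (β₁ : ℂ)) := by ring
    rw [h3]
    exact (norm_sub_le _ _).trans (by linarith)
  have hb2R : ‖(β₂ : ℂ)‖ ≤ R := by
    have h3 : (β₂ : ℂ) = α - (α - (β₂ : ℂ)) := by ring
    rw [h3]
    exact (norm_sub_le _ _).trans (by linarith)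
  set Q : Fin 4 → ℂ[X] := fun j => (P j).map (Int.castRingHom ℂ) with hQ
  have hQdeg : ∀ j, (Q j).natDegree ≤ m := fun j => natDegree_map_le.trans (hPdeg j)
  have hQc : ∀ j i, ‖(Q j).coeff i‖ ≤ E := by
    intro j i
    have h3 : (Q j).coeff i = (((P j).coeff i : ℤ) : ℂ) := by
      simp only [hQ, coeff_map, eq_intCast]
    rw [h3, Complex.norm_intCast]
    exact hc j i
  set G : ℂ[X] := ∑ j : Fin 4, C (α ^ (j : ℕ)) * Q j with hG
  have hGdvd : (X - C α) ^ k ∣ G := aux_root hP hα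
  have hGdeg : G.natDegree ≤ m := by
    refine natDegree_sum_le_of_forall_le _ _ fun j _ => ?_
    exact (natDegree_C_mul_le _ _).trans (hQdeg j)
  have hapow : ∀ j : Fin 4, ‖α ^ (j : ℕ)‖ ≤ R ^ 3 := by
    intro j
    rw [norm_pow]
    calc ‖α‖ ^ (j : ℕ) ≤ R ^ (j : ℕ) := pow_le_pow_left₀ (norm_nonneg _) hαR _
      _ ≤ R ^ 3 := pow_le_pow_right₀ hR1 (by have := j.isLt; omega)
  have hGc : ∀ i, ‖G.coeff i‖ ≤ 4 * (R ^ 3 * E) := by
    intro i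
    rw [hG, finsetSum_coeff]
    refine (norm_sum_le _ _).trans ?_
    have hterm : ∀ j ∈ (Finset.univ : Finset (Fin 4)), ‖(C (α ^ (j : ℕ)) * Q j).coeff i‖ ≤ R ^ 3 * E := by
      intro j _
      rw [coeff_C_mul, norm_mul]
      exact mul_le_mul (hapow j) (hQc j i) (norm_nonneg _) (by positivity)
    refine (Finset.sum_le_sum hterm).trans ?_
    rw [Finset.sum_const, Finset.card_univ, Fintype.card_fin, nsmul_eq_mul]
    norm_num
  have hGT : ∀ i, ‖(hasseDeriv i G).eval α‖ ≤ (m + 1) * (2 ^ m * (4 * (R ^ 3 * E)) * R ^ m) := by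
    intro i
    exact upper_hasse_bound G m i hGdeg α (4 * (R ^ 3 * E)) R (by positivity) hR1 hGc hαR
  have hpart2 := upper_taylor_bound G m n k hGdeg α (β₁ : ℂ) hGdvd
    ((m + 1) * (2 ^ m * (4 * (R ^ 3 * E)) * R ^ m)) (by positivity) hGT h1 hn
  -- the value
  have hval : (((∑ j : Fin 4, β₂ ^ (j : ℕ) *
      (hasseDeriv n ((P j).map (Int.castRingHom ℚ))).eval β₁ : ℚ)) : ℂ) =
      ∑ j : Fin 4, (β₂ : ℂ) ^ (j : ℕ) * (hasseDeriv n (Q j)).eval (β₁ : ℂ) := by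
    rw [Rat.cast_sum]
    refine Finset.sum_congr rfl fun j _ => ?_
    rw [Rat.cast_mul, Rat.cast_pow]
    congr 1
    have h3 : Q j = ((P j).map (Int.castRingHom ℚ)).map (Rat.castHom ℂ) := by
      simp only [hQ]
      rw [Polynomial.map_map]
      congr 1
    have h4 : hasseDeriv n (Q j) =
        (hasseDeriv n ((P j).map (Int.castRingHom ℚ))).map (Rat.castHom ℂ) := by
      ext i
      rw [h3, hasseDeriv_coeff, coeff_map, coeff_map, coeff_map, hasseDeriv_coeff, map_mul,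
        map_natCast, coeff_map]
    rw [h4]
    have h5 : (β₁ : ℂ) = Rat.castHom ℂ β₁ := rfl
    rw [h5, eval_map_apply]
    rfl
  have habs : |((∑ j : Fin 4, β₂ ^ (j : ℕ) *
      (hasseDeriv n ((P j).map (Int.castRingHom ℚ))).eval β₁ : ℚ) : ℝ)| =
      ‖∑ j : Fin 4, (β₂ : ℂ) ^ (j : ℕ) * (hasseDeriv n (Q j)).eval (β₁ : ℂ)‖ := by
    rw [← hval, ← Complex.ofReal_ratCast, Complex.norm_real, Real.norm_eq_abs]
  rw [habs]
  have hGev : (hasseDeriv n G).eval (β₁ : ℂ) =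
      ∑ j : Fin 4, α ^ (j : ℕ) * (hasseDeriv n (Q j)).eval (β₁ : ℂ) := by
    rw [hG, map_sum, eval_finsetSum]
    refine Finset.sum_congr rfl fun j _ => ?_
    rw [← smul_eq_C_mul, map_smul, eval_smul, smul_eq_mul]
  have hdecomp : ∑ j : Fin 4, (β₂ : ℂ) ^ (j : ℕ) * (hasseDeriv n (Q j)).eval (β₁ : ℂ) =
      (∑ j : Fin 4, ((β₂ : ℂ) ^ (j : ℕ) - α ^ (j : ℕ)) * (hasseDeriv n (Q j)).eval (β₁ : ℂ)) +
        (hasseDeriv n G).eval (β₁ : ℂ) := by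
    rw [hGev, ← Finset.sum_add_distrib]
    refine Finset.sum_congr rfl fun j _ => ?_
    ring
  rw [hdecomp]
  refine (norm_add_le _ _).trans ?_
  have hpart1 : ‖∑ j : Fin 4, ((β₂ : ℂ) ^ (j : ℕ) - α ^ (j : ℕ)) *
      (hasseDeriv n (Q j)).eval (β₁ : ℂ)‖ ≤
      4 * ((3 * R ^ 2 * ‖α - (β₂ : ℂ)‖) * ((m + 1) * (2 ^ m * E * R ^ m))) := by
    refine (norm_sum_le _ _).trans ?_
    have hterm : ∀ j ∈ (Finset.univ : Finset (Fin 4)),
        ‖((β₂ : ℂ) ^ (j : ℕ) - α ^ (j : ℕ)) * (hasseDeriv n (Q j)).eval (β₁ : ℂ)‖ ≤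
        (3 * R ^ 2 * ‖α - (β₂ : ℂ)‖) * ((m + 1) * (2 ^ m * E * R ^ m)) := by
      intro j _
      rw [norm_mul]
      exact mul_le_mul (upper_pow_diff α (β₂ : ℂ) R hR1 hαR hb2R j)
        (upper_hasse_bound (Q j) m n (hQdeg j) (β₁ : ℂ) E R hEpos.le hR1 (hQc j) hb1R)
        (norm_nonneg _) (by positivity)
    refine (Finset.sum_le_sum hterm).trans ?_
    rw [Finset.sum_const, Finset.card_univ, Fintype.card_fin, nsmul_eq_mul]
    norm_num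
  have hconst := upper_const K A hA m
  rw [← hE, ← hR] at hconst
  set d1 : ℝ := ‖α - (β₁ : ℂ)‖ ^ (k - n) with hd1
  set d2 : ℝ := ‖α - (β₂ : ℂ)‖ with hd2
  have hd1n : 0 ≤ d1 := by positivity
  have hd2n : 0 ≤ d2 := norm_nonneg _
  have hm1 : (1 : ℝ) ≤ (m : ℝ) + 1 := by
    have : (0 : ℝ) ≤ (m : ℝ) := Nat.cast_nonneg m
    linarith
  have h24 : (2 : ℝ) ^ m * 2 ^ m = 4 ^ m := by
    rw [← mul_pow]
    norm_num
  have h2le4 : (2 : ℝ) ^ m ≤ 4 ^ m := pow_le_pow_left₀ (by norm_num) (by norm_num) m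
  have hB1 : 4 * ((3 * R ^ 2 * d2) * ((m + 1) * (2 ^ m * E * R ^ m))) ≤
      (12 * ((m : ℝ) + 1) ^ 2 * 4 ^ m * R ^ (m + 3) * E) * d2 := by
    have e1 : 4 * ((3 * R ^ 2 * d2) * (((m : ℝ) + 1) * (2 ^ m * E * R ^ m))) =
        (12 * ((m : ℝ) + 1) * 2 ^ m * (R ^ m * R ^ 2) * E) * d2 := by ring
    rw [e1]
    have e2 : R ^ m * R ^ 2 ≤ R ^ (m + 3) := by
      rw [← pow_add]
      exact pow_le_pow_right₀ hR1 (by omega)
    have e3 : (m : ℝ) + 1 ≤ ((m : ℝ) + 1) ^ 2 := by nlinarith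
    gcongr
  have hB2 : (m + 1) * (2 ^ m * ((m + 1) * (2 ^ m * (4 * (R ^ 3 * E)) * R ^ m)) * d1) ≤
      (12 * ((m : ℝ) + 1) ^ 2 * 4 ^ m * R ^ (m + 3) * E) * d1 := by
    have e1 : ((m : ℝ) + 1) * (2 ^ m * (((m : ℝ) + 1) * (2 ^ m * (4 * (R ^ 3 * E)) * R ^ m)) * d1) =
        (4 * ((m : ℝ) + 1) ^ 2 * (2 ^ m * 2 ^ m) * (R ^ (m + 3)) * E) * d1 := by ring
    rw [e1, h24]
    gcongr
    norm_num
  calc _ ≤ 4 * ((3 * R ^ 2 * d2) * ((m + 1) * (2 ^ m * E * R ^ m))) +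
        (m + 1) * (2 ^ m * ((m + 1) * (2 ^ m * (4 * (R ^ 3 * E)) * R ^ m)) * d1) :=
        add_le_add hpart1 hpart2
    _ ≤ (12 * ((m : ℝ) + 1) ^ 2 * 4 ^ m * R ^ (m + 3) * E) * d2 +
        (12 * ((m : ℝ) + 1) ^ 2 * 4 ^ m * R ^ (m + 3) * E) * d1 := add_le_add hB1 hB2
    _ = (12 * ((m : ℝ) + 1) ^ 2 * 4 ^ m * R ^ (m + 3) * E) * (d1 + d2) := by ring
    _ ≤ Real.exp ((K + 16) * (m + 1) * A) * (d1 + d2) :=
        mul_le_mul_of_nonneg_right hconst (by positivity)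

end Pool.Agent.H24.LR
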