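import Pool.Agent.H24.LR.Auxil
import Pool.Agent.H24.LR.Upper
import Pool.Agent.H24.LR.Lower

/-!
# LR Irr

The irreducible case, degree `4 ≤ d ≤ 16`. `|α| ≤ 2e^A ≤ e^{A+1}` (Cauchy). Suppose `h₂ > C h₁`, `h₁ ≥ C A`, `C` huge.
`k = ⌈(h₂/h₁ + 51)/0.984⌉`, `m + 1 = ⌈1001 d k/4000⌉` (so `m ≤ 1001 d k/4000`, `k` is large, `3m < d(k-2)`). `exists_aux`, `aux_order`: `n ≤ 4m + 3 - d(k-3)
≤ dk/1000 + 3 + 3d ≤ 0.016 k + 51`, so `k - n ≥ 0.984 k - 51 ≥ h₂/h₁`, and `|α-β₁|^{k-n} ≤ exp(-7.5 h₁ (k-n)) ≤ exp(-7.5 h₂)`.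
`aux_upper`, `aux_lower`: `exp(-(m h₁ + 3 h₂)) ≤ exp(K'(m+1)A) 2 exp(-7.5 h₂)`; `m h₁ ≤ 4.004 k h₁ ≤ 4.07 h₂ + 300 h₁ ≤ 4.1 h₂`,
`K'(m+1)A ≤ 0.1 h₂`, `log 2 ≤ 0.1 h₂`: `7.5 ≤ 4.1 + 3 + 0.1 + 0.1`, a contradiction. (Choose `k` first, everything else is linear arithmetic.)
-/

namespace Pool.Agent.H24.LR

open Finset Polynomial

/-- Cauchy: a root of a monic integral polynomial with coefficients at most `e^A` is at most `e^(A+1)`. -/
private theorem irr_cauchy {g : ℤ[X]} (hg : g.Monic) {A : ℝ} (hA : 1 ≤ A)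
    (hc : ∀ i, |(g.coeff i : ℝ)| ≤ Real.exp A) {α : ℂ} (hα : aeval α g = 0) :
    ‖α‖ ≤ Real.exp (A + 1) := by
  have hE : 1 ≤ Real.exp A := Real.one_le_exp (by linarith)
  have h2 : (2 : ℝ) ≤ Real.exp 1 := by
    have := Real.exp_one_gt_d9
    linarith
  have hb : 1 + Real.exp A ≤ Real.exp (A + 1) := by
    rw [Real.exp_add]
    nlinarith
  refine le_trans ?_ hb
  by_contra hcon
  rw [not_le] at hcon
  set r : ℝ := ‖α‖ with hr
  have hr1 : 0 < r - 1 := by linarith [Real.exp_pos A]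
  have hd : g.natDegree ≠ 0 := by
    intro h
    have h3 : g = 1 := hg.natDegree_eq_zero.mp h
    rw [h3, map_one] at hα
    exact one_ne_zero hα
  have h4 : α ^ g.natDegree = -∑ i ∈ range g.natDegree, (g.coeff i : ℂ) * α ^ i := by
    have h5 : aeval α g = ∑ i ∈ range (g.natDegree + 1), (g.coeff i : ℂ) * α ^ i := by
      rw [aeval_eq_sum_range]
      refine Finset.sum_congr rfl fun i _ => ?_
      rw [zsmul_eq_mul]
    rw [hα, Finset.sum_range_succ] at h5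
    have h6 : g.coeff g.natDegree = 1 := hg
    rw [h6, Int.cast_one, one_mul] at h5
    exact eq_neg_of_add_eq_zero_right h5.symm
  have h7 : r ^ g.natDegree ≤ Real.exp A * ∑ i ∈ range g.natDegree, r ^ i := by
    rw [hr, ← norm_pow, h4, norm_neg, Finset.mul_sum]
    refine (norm_sum_le _ _).trans (Finset.sum_le_sum fun i _ => ?_)
    rw [norm_mul, norm_pow, Complex.norm_intCast]
    exact mul_le_mul_of_nonneg_right (hc i) (by positivity)
  have h8 : (∑ i ∈ range g.natDegree, r ^ i) * (r - 1) = r ^ g.natDegree - 1 :=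
    geom_sum_mul r g.natDegree
  have h9 : r ^ g.natDegree * (r - 1) ≤ Real.exp A * (r ^ g.natDegree - 1) := by
    rw [← h8, ← mul_assoc]
    exact mul_le_mul_of_nonneg_right h7 hr1.le
  have h10 : 0 < r ^ g.natDegree := by
    have : 0 < r := by linarith
    positivity
  nlinarith [Real.exp_pos A]

/-- The choice of `m`. -/
private theorem irr_m (d k : ℕ) (hd : 0 < d) (hk : 0 < k) : ∃ m : ℕ,
    1001 * (d * k) ≤ 4000 * (m + 1) ∧ 4000 * m < 1001 * (d * k) := by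
  have h : 0 < d * k := Nat.mul_pos hd hk
  exact ⟨(1001 * (d * k) - 1) / 4000, by omega, by omega⟩

private theorem irr_km (d k m : ℕ) (hk : 10000 < k) (hm : 4000 * m < 1001 * (d * k)) :
    3 * m < d * (k - 2) := by
  obtain ⟨k', rfl⟩ : ∃ k', k = k' + 2 := ⟨k - 2, by omega⟩
  rw [Nat.add_sub_cancel]
  have h3 : 9000 * d ≤ d * k' := by
    rw [Nat.mul_comm 9000]
    exact Nat.mul_le_mul_left d (by omega)
  rw [Nat.mul_add] at hm
  omega

private theorem irr_n (d k m n : ℕ) (hd : d ≤ 16) (hk : 3 ≤ k) (hm : 4000 * m < 1001 * (d * k))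
    (hn : d * (k - 3) + n ≤ 4 * m + 3) : 1000 * n ≤ 16 * k + 51000 := by
  obtain ⟨k', rfl⟩ : ∃ k', k = k' + 3 := ⟨k - 3, by omega⟩
  rw [Nat.add_sub_cancel] at hn
  have h3 : d * k' ≤ 16 * k' := Nat.mul_le_mul_right _ hd
  rw [Nat.mul_add] at hm
  omega

theorem ts_irr : ∃ C : ℝ, 1 ≤ C ∧ ∀ (g : ℤ[X]), g.Monic →
    Irreducible (g.map (Int.castRingHom ℚ)) → 4 ≤ g.natDegree → g.natDegree ≤ 16 →
    ∀ A : ℝ, 1 ≤ A → (∀ i, |(g.coeff i : ℝ)| ≤ Real.exp A) →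
    ∀ (α : ℂ) (β₁ β₂ : ℚ) (h₁ h₂ : ℝ), aeval α g = 0 →
    Real.log β₁.den ≤ h₁ → Real.log β₂.den ≤ h₂ → C * A ≤ h₁ →
    ‖α - (β₁ : ℂ)‖ ≤ Real.exp (-(7.5 * h₁)) → ‖α - (β₂ : ℂ)‖ ≤ Real.exp (-(7.5 * h₂)) →
    h₂ ≤ C * h₁ := by
  obtain ⟨K, hK, haux⟩ := exists_aux
  obtain ⟨K', hK', hupp⟩ := aux_upper K hK
  refine ⟨10000 * K', by linarith, ?_⟩
  intro g hg hirr hd4 hd16 A hA hc α β₁ β₂ h₁ h₂ hα hb1 hb2 hCA hn1 hn2
  by_contra hcon
  rw [not_le] at hcon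
  have hKA : K' ≤ K' * A := by nlinarith
  have hh1 : 10000 ≤ h₁ := by nlinarith
  have hh1K : 10000 * h₁ ≤ 10000 * K' * h₁ := by nlinarith
  have hh2 : 10000 * h₁ < h₂ := by linarith
  have hh10 : 0 < h₁ := by linarith
  have hh20 : 0 < h₂ := by linarith
  set d := g.natDegree with hd
  set x : ℝ := h₂ / h₁ with hx
  have hx1 : x * h₁ = h₂ := div_mul_cancel₀ _ hh10.ne'
  have hx2 : 10000 < x := by
    rw [hx, lt_div_iff₀ hh10]
    exact hh2
  -- the choice of `k`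
  set k : ℕ := ⌈(x + 51) / 0.984⌉₊ with hk
  have hk1 : (x + 51) / 0.984 ≤ k := Nat.le_ceil _
  have hk2 : (k : ℝ) < (x + 51) / 0.984 + 1 := Nat.ceil_lt_add_one (by positivity)
  have hk3 : x + 51 ≤ 0.984 * k := by
    rw [div_le_iff₀ (by norm_num)] at hk1
    linarith
  have hk4 : 0.984 * (k : ℝ) < x + 52 := by
    have h3 : (x + 51) / 0.984 + 1 = (x + 51.984) / 0.984 := by
      rw [div_add_one (by norm_num)]
      congr 1
      ring
    rw [h3, lt_div_iff₀ (by norm_num)] at hk2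
    linarith
  have hk5 : (10000 : ℝ) < k := by linarith
  have hk6 : 10000 < k := by exact_mod_cast hk5
  -- the choice of `m`
  obtain ⟨m, hm1, hm2⟩ := irr_m d k (by omega) (by omega)
  have hkm : 3 * m < d * (k - 2) := irr_km d k m hk6 hm2
  obtain ⟨P, hP, hPc⟩ := haux g hg (by omega) A hA hc k m (by omega) hm1
  obtain ⟨n, hn, hne⟩ := aux_order hg hirr hd4 hP hkm β₁ β₂
  -- the order
  have hnk : 1000 * n ≤ 16 * k + 51000 := irr_n d k m n hd16 (by omega) hm2 hn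
  have hnk2 : n ≤ k := by omega
  have hnk3 : x ≤ ((k - n : ℕ) : ℝ) := by
    rw [Nat.cast_sub hnk2]
    have h3 : 1000 * (n : ℝ) ≤ 16 * k + 51000 := by exact_mod_cast hnk
    linarith
  have hle1 : ∀ h : ℝ, 0 < h → Real.exp (-(7.5 * h)) ≤ 1 := fun h hh =>
    Real.exp_le_one_iff.mpr (by linarith)
  have hup := hupp g k m P hP A hA hPc α β₁ β₂ hα (irr_cauchy hg hA hc hα)
    (hn1.trans (hle1 _ hh10)) (hn2.trans (hle1 _ hh20)) n hnk2
  have hlow := aux_lower P hP.2.1 β₁ β₂ h₁ h₂ hb1 hb2 hne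
  have hpow : ‖α - (β₁ : ℂ)‖ ^ (k - n) ≤ Real.exp (-(7.5 * h₂)) := by
    calc ‖α - (β₁ : ℂ)‖ ^ (k - n) ≤ Real.exp (-(7.5 * h₁)) ^ (k - n) :=
          pow_le_pow_left₀ (norm_nonneg _) hn1 _
      _ = Real.exp (((k - n : ℕ) : ℝ) * (-(7.5 * h₁))) := by rw [← Real.exp_nat_mul]
      _ ≤ Real.exp (-(7.5 * h₂)) := by
          refine Real.exp_le_exp.mpr ?_
          have h3 : x * h₁ ≤ ((k - n : ℕ) : ℝ) * h₁ := mul_le_mul_of_nonneg_right hnk3 hh10.le
          rw [hx1] at h3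
          linarith
  have htot : Real.exp (-(m * h₁ + 3 * h₂)) ≤
      Real.exp (K' * (m + 1) * A + 1 - 7.5 * h₂) := by
    have h2e : (2 : ℝ) ≤ Real.exp 1 := by
      have := Real.exp_one_gt_d9
      linarith
    calc Real.exp (-(m * h₁ + 3 * h₂))
        ≤ Real.exp (K' * (m + 1) * A) * (‖α - (β₁ : ℂ)‖ ^ (k - n) + ‖α - (β₂ : ℂ)‖) :=
          hlow.trans hup
      _ ≤ Real.exp (K' * (m + 1) * A) * (Real.exp 1 * Real.exp (-(7.5 * h₂))) := by
          refine mul_le_mul_of_nonneg_left ?_ (Real.exp_pos _).le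
          have h3 := Real.exp_pos (-(7.5 * h₂))
          nlinarith
      _ = Real.exp (K' * (m + 1) * A + 1 - 7.5 * h₂) := by
          rw [← Real.exp_add, ← Real.exp_add]
          congr 1
          ring
  have hfin := Real.exp_le_exp.mp htot
  -- linear arithmetic
  have hmk : 4000 * m < 16016 * k := by
    have h3 : d * k ≤ 16 * k := Nat.mul_le_mul_right _ hd16
    omega
  have hmk2 : 4000 * (m : ℝ) < 16016 * k := by exact_mod_cast hmk
  have hm3 : (m : ℝ) ≤ 4.07 * x + 212 := by linarith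
  have hmh : (m : ℝ) * h₁ ≤ 4.07 * h₂ + 212 * h₁ := by
    have h3 := mul_le_mul_of_nonneg_right hm3 hh10.le
    have h4 : (4.07 * x + 212) * h₁ = 4.07 * h₂ + 212 * h₁ := by
      rw [← hx1]
      ring
    linarith
  have hKm : K' * (m + 1) * A ≤ 0.001 * (4.07 * h₂ + 213 * h₁) := by
    have h3 : K' * (m + 1) * A = (m + 1) * (K' * A) := by ring
    have h4 : K' * A ≤ 0.0001 * h₁ := by linarith
    have h5 : (0 : ℝ) ≤ m + 1 := by positivity
    have h6 := mul_le_mul_of_nonneg_left h4 h5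
    rw [h3]
    linarith
  linarith

end Pool.Agent.H24.LR
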