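import Mathlib

/-!
# LR Liou

Liouville. `g` monic, irreducible over `ℚ`, degree `d ≤ 3`, root `α`, `|α| ≤ e^{A+1}`. `β = p/q` with `g(β) ≠ 0`: `|g(β)| ≥ q^{-d} ≥ e^{-3h}`, and
`|g(β)| = |g(β) - g(α)| ≤ |β - α| e^{const A}`; with `|α - β| ≤ e^{-7.5h}`, `h ≥ C A` a contradiction. So `g(β₁) = 0`, `g` irreducible with a rational root:
`d = 1` and `α = β₁`. The same for `β₂` (`h₂ ≥ h₁` may be assumed: the conclusion `h₂ ≤ h₁` is wanted otherwise), so `β₁ = β₂`.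
-/

namespace Pool.Agent.H24.LR

open Finset Polynomial

private theorem root_bound (g : ℤ[X]) (hg : g.Monic) (hdeg : g.natDegree ≤ 3) (A : ℝ) (hA : 1 ≤ A)
    (hc : ∀ i, |(g.coeff i : ℝ)| ≤ Real.exp A) (α : ℂ) (hα : aeval α g = 0) :
    ‖α‖ ≤ 3 * Real.exp A := by
  have hE : (1 : ℝ) ≤ Real.exp A := Real.one_le_exp (by linarith)
  by_contra hlt
  push Not at hlt
  have h1 : 1 ≤ ‖α‖ := by linarith
  have hsum := Polynomial.aeval_eq_sum_range (p := g) α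
  rw [hα, Finset.sum_range_succ] at hsum
  have hlead : g.coeff g.natDegree = 1 := hg
  rw [hlead, one_smul] at hsum
  have h2 : α ^ g.natDegree = - ∑ i ∈ range g.natDegree, g.coeff i • α ^ i := by
    linear_combination (-1 : ℂ) * hsum
  have hd0 : g.natDegree ≠ 0 := by
    intro h0
    rw [h0] at h2
    simp at h2
  obtain ⟨d, hd⟩ := Nat.exists_eq_succ_of_ne_zero hd0
  have h3 : ‖α‖ ^ g.natDegree ≤ ∑ i ∈ range g.natDegree, Real.exp A * ‖α‖ ^ d := by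
    rw [← norm_pow, h2, norm_neg]
    refine (norm_sum_le _ _).trans (Finset.sum_le_sum fun i hi => ?_)
    have hi' : i ≤ d := by
      have := Finset.mem_range.1 hi
      omega
    have : ‖g.coeff i • α ^ i‖ = |(g.coeff i : ℝ)| * ‖α‖ ^ i := by
      rw [zsmul_eq_mul, norm_mul, norm_pow, Complex.norm_intCast]
    rw [this]
    exact mul_le_mul (hc i) (pow_le_pow_right₀ h1 hi') (by positivity) (by positivity)
  rw [Finset.sum_const, Finset.card_range, nsmul_eq_mul, hd, pow_succ] at h3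
  have hpos : 0 < ‖α‖ ^ d := by positivity
  have h4 : ‖α‖ ≤ ((d.succ : ℕ) : ℝ) * Real.exp A := by
    have h5 : ‖α‖ ^ d * ‖α‖ ≤ ‖α‖ ^ d * (((d.succ : ℕ) : ℝ) * Real.exp A) := by
      calc ‖α‖ ^ d * ‖α‖ ≤ _ := h3
        _ = _ := by ring
    exact le_of_mul_le_mul_left h5 hpos
  have h6 : ((d.succ : ℕ) : ℝ) ≤ 3 := by
    have : d.succ ≤ 3 := by omega
    exact_mod_cast this
  have h7 : ((d.succ : ℕ) : ℝ) * Real.exp A ≤ 3 * Real.exp A :=
    mul_le_mul_of_nonneg_right h6 (by positivity)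
  linarith

private theorem pow_sub_bound (x y : ℂ) (M : ℝ) (hM : 1 ≤ M) (hx : ‖x‖ ≤ M) (hy : ‖y‖ ≤ M)
    (i : ℕ) (hi : i ≤ 3) : ‖x ^ i - y ^ i‖ ≤ 3 * M ^ 2 * ‖x - y‖ := by
  have hn : 0 ≤ ‖x - y‖ := norm_nonneg _
  have hM2 : 1 ≤ M ^ 2 := one_le_pow₀ hM
  have hM0 : 0 ≤ M := by linarith
  interval_cases i
  · simp
    positivity
  · simp only [pow_one]
    nlinarith
  · have : x ^ 2 - y ^ 2 = (x + y) * (x - y) := by ring
    rw [this, norm_mul]
    have h1 : ‖x + y‖ ≤ 2 * M := (norm_add_le _ _).trans (by linarith)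
    have h2 : 2 * M ≤ 3 * M ^ 2 := by nlinarith
    exact mul_le_mul_of_nonneg_right (h1.trans h2) hn
  · have : x ^ 3 - y ^ 3 = (x ^ 2 + x * y + y ^ 2) * (x - y) := by ring
    rw [this, norm_mul]
    have h1 : ‖x ^ 2 + x * y + y ^ 2‖ ≤ 3 * M ^ 2 := by
      have a1 : ‖x ^ 2‖ ≤ M ^ 2 := by
        rw [norm_pow]
        exact pow_le_pow_left₀ (norm_nonneg _) hx 2
      have a2 : ‖y ^ 2‖ ≤ M ^ 2 := by
        rw [norm_pow]
        exact pow_le_pow_left₀ (norm_nonneg _) hy 2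
      have a3 : ‖x * y‖ ≤ M ^ 2 := by
        rw [norm_mul, sq]
        exact mul_le_mul hx hy (norm_nonneg _) hM0
      have a4 := norm_add_le (x ^ 2 + x * y) (y ^ 2)
      have a5 := norm_add_le (x ^ 2) (x * y)
      linarith
    exact mul_le_mul_of_nonneg_right h1 hn

private theorem zero_of_close (g : ℤ[X]) (hg : g.Monic) (hdeg : g.natDegree ≤ 3) (A : ℝ)
    (hA : 1 ≤ A) (hc : ∀ i, |(g.coeff i : ℝ)| ≤ Real.exp A) (α : ℂ) (hα : aeval α g = 0)
    (β : ℚ) (h : ℝ) (hd : Real.log β.den ≤ h) (hh : 3 * A ≤ h)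
    (hb : ‖α - (β : ℂ)‖ ≤ Real.exp (-(7.5 * h))) :
    (g.map (Int.castRingHom ℚ)).eval β = 0 := by
  by_contra hne
  have hE : (1 : ℝ) ≤ Real.exp A := Real.one_le_exp (by linarith)
  -- lower bound
  have hden : (0 : ℤ) < β.den := by exact_mod_cast β.pos
  have hβ : ((β.num : ℚ) / ((β.den : ℤ) : ℚ)) = β := by
    have := Rat.num_div_den β
    exact_mod_cast this
  have hlow := one_le_pow_mul_abs_eval_div (K := ℚ) (f := g) (a := β.num) (b := β.den) hden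
    (by rw [hβ]; exact hne)
  rw [hβ] at hlow
  have hev : (((g.map (algebraMap ℤ ℚ)).eval β : ℚ) : ℂ) = aeval (β : ℂ) g := by
    rw [Polynomial.eval_map, Polynomial.aeval_def, Polynomial.eval₂_eq_sum_range,
      Polynomial.eval₂_eq_sum_range]
    push_cast
    refine Finset.sum_congr rfl fun i _ => ?_
    simp
  have hlow2 : (1 : ℝ) ≤ ((β.den : ℤ) : ℝ) ^ g.natDegree * ‖aeval (β : ℂ) g‖ := by
    rw [← hev]
    have : ‖(((g.map (algebraMap ℤ ℚ)).eval β : ℚ) : ℂ)‖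
        = ((|(g.map (algebraMap ℤ ℚ)).eval β| : ℚ) : ℝ) := by
      rw [Rat.cast_abs, ← Complex.ofReal_ratCast, Complex.norm_real, Real.norm_eq_abs]
    rw [this]
    exact_mod_cast hlow
  have hdpos : (0 : ℝ) < (β.den : ℝ) := by exact_mod_cast β.pos
  have hd1 : (1 : ℝ) ≤ (β.den : ℝ) := by exact_mod_cast β.pos
  have hdle : (β.den : ℝ) ≤ Real.exp h := by
    rw [← Real.exp_log hdpos]
    exact Real.exp_le_exp.2 hd
  have hdp : ((β.den : ℤ) : ℝ) ^ g.natDegree ≤ Real.exp (3 * h) := by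
    have e1 : ((β.den : ℤ) : ℝ) = (β.den : ℝ) := by push_cast; rfl
    rw [e1]
    calc (β.den : ℝ) ^ g.natDegree ≤ (β.den : ℝ) ^ 3 := pow_le_pow_right₀ hd1 hdeg
      _ ≤ Real.exp h ^ 3 := pow_le_pow_left₀ hdpos.le hdle 3
      _ = Real.exp (3 * h) := by rw [← Real.exp_nat_mul]; norm_num
  -- upper bound
  have hαn := root_bound g hg hdeg A hA hc α hα
  have hsmall : Real.exp (-(7.5 * h)) ≤ 1 := by
    rw [Real.exp_le_one_iff]
    nlinarith
  have hβn : ‖(β : ℂ)‖ ≤ 4 * Real.exp A := by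
    have : (β : ℂ) = α - (α - (β : ℂ)) := by ring
    rw [this]
    refine (norm_sub_le _ _).trans ?_
    linarith
  have hup : ‖aeval (β : ℂ) g‖ ≤ 192 * Real.exp A ^ 3 * ‖α - (β : ℂ)‖ := by
    have h0 : aeval (β : ℂ) g = aeval (β : ℂ) g - aeval α g := by rw [hα, sub_zero]
    rw [h0, Polynomial.aeval_eq_sum_range, Polynomial.aeval_eq_sum_range, ← Finset.sum_sub_distrib]
    refine (norm_sum_le _ _).trans ?_
    have hterm : ∀ i ∈ range (g.natDegree + 1),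
        ‖g.coeff i • (β : ℂ) ^ i - g.coeff i • α ^ i‖
          ≤ 48 * Real.exp A ^ 3 * ‖α - (β : ℂ)‖ := by
      intro i hi
      have hi3 : i ≤ 3 := by
        have := Finset.mem_range.1 hi
        omega
      rw [← smul_sub, zsmul_eq_mul, norm_mul, Complex.norm_intCast, norm_sub_rev α (β : ℂ)]
      have hb2 := pow_sub_bound (β : ℂ) α (4 * Real.exp A) (by linarith) hβn (by linarith) i hi3
      calc |(g.coeff i : ℝ)| * ‖(β : ℂ) ^ i - α ^ i‖
          ≤ Real.exp A * (3 * (4 * Real.exp A) ^ 2 * ‖(β : ℂ) - α‖) :=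
            mul_le_mul (hc i) hb2 (norm_nonneg _) (by positivity)
        _ = 48 * Real.exp A ^ 3 * ‖(β : ℂ) - α‖ := by ring
    refine (Finset.sum_le_sum hterm).trans ?_
    rw [Finset.sum_const, Finset.card_range, nsmul_eq_mul]
    have hc4 : ((g.natDegree + 1 : ℕ) : ℝ) ≤ 4 := by
      have : g.natDegree + 1 ≤ 4 := by omega
      exact_mod_cast this
    have hnn : 0 ≤ 48 * Real.exp A ^ 3 * ‖α - (β : ℂ)‖ := by positivity
    nlinarith
  have h192 : (192 : ℝ) ≤ Real.exp (6 * A) := by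
    have e1 : (2.7 : ℝ) < Real.exp 1 := lt_trans (by norm_num) Real.exp_one_gt_d9
    have e2 : (2.7 : ℝ) ^ 6 ≤ Real.exp 1 ^ 6 := pow_le_pow_left₀ (by norm_num) e1.le 6
    have e3 : Real.exp 1 ^ 6 = Real.exp 6 := by rw [← Real.exp_nat_mul]; norm_num
    have e4 : Real.exp 6 ≤ Real.exp (6 * A) := Real.exp_le_exp.2 (by linarith)
    have e5 : (192 : ℝ) ≤ 2.7 ^ 6 := by norm_num
    linarith
  have hA3 : Real.exp A ^ 3 = Real.exp (3 * A) := by rw [← Real.exp_nat_mul]; norm_num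
  have hfin : (1 : ℝ) ≤ Real.exp (3 * h) * (Real.exp (6 * A) * Real.exp (3 * A)
      * Real.exp (-(7.5 * h))) := by
    refine hlow2.trans ?_
    refine mul_le_mul hdp (hup.trans ?_) (norm_nonneg _) (by positivity)
    rw [hA3]
    refine mul_le_mul (mul_le_mul_of_nonneg_right h192 (by positivity)) hb (norm_nonneg _)
      (by positivity)
  rw [← Real.exp_add, ← Real.exp_add, ← Real.exp_add, Real.one_le_exp_iff] at hfin
  nlinarith

theorem ts_liou : ∃ C : ℝ, 1 ≤ C ∧ ∀ (g : ℤ[X]), g.Monic →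
    Irreducible (g.map (Int.castRingHom ℚ)) → g.natDegree ≤ 3 →
    ∀ A : ℝ, 1 ≤ A → (∀ i, |(g.coeff i : ℝ)| ≤ Real.exp A) →
    ∀ (α : ℂ) (β₁ β₂ : ℚ) (h₁ h₂ : ℝ), aeval α g = 0 →
    Real.log β₁.den ≤ h₁ → Real.log β₂.den ≤ h₂ → C * A ≤ h₁ → β₁ ≠ β₂ →
    ‖α - (β₁ : ℂ)‖ ≤ Real.exp (-(7.5 * h₁)) → ‖α - (β₂ : ℂ)‖ ≤ Real.exp (-(7.5 * h₂)) →
    h₂ ≤ h₁ := by
  refine ⟨3, by norm_num, ?_⟩
  intro g hg hirr hdeg A hA hc α β₁ β₂ h₁ h₂ hα hd1 hd2 hC hne hb1 hb2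
  by_contra hlt
  push Not at hlt
  have r1 := zero_of_close g hg hdeg A hA hc α hα β₁ h₁ hd1 hC hb1
  have r2 := zero_of_close g hg hdeg A hA hc α hα β₂ h₂ hd2 (by linarith) hb2
  have hm : (g.map (Int.castRingHom ℚ)).Monic := hg.map _
  have hdg : (g.map (Int.castRingHom ℚ)).natDegree = 1 :=
    natDegree_eq_of_degree_eq_some
      (Polynomial.degree_eq_one_of_irreducible_of_root hirr (IsRoot.def.2 r1))
  have hX := hm.eq_X_add_C hdg
  rw [hX] at r1 r2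
  simp only [eval_add, eval_X, eval_C] at r1 r2
  exact hne (by linarith)

end Pool.Agent.H24.LR
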