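import Mathlib

/-!
# LR Min

The minimal polynomial over `ℤ` (`minpoly ℤ α`, `minpoly.isIntegrallyClosed_eq_field_fractions`, `minpoly.isIntegrallyClosed_dvd`): monic, divides `f`, irreducible over `ℚ` after the
map. Its complex roots are roots of `f`, of absolute value `≤ 2 e^A ≤ e^{A+1}` (Cauchy: `|α|^n ≤ e^A (1 + |α| + .. + |α|^{n-1})`), so its coefficients are
`≤ 2^16 e^{16(A+1)} ≤ e^{50A}` (`Polynomial.coeff_le_of_roots_le` or the product of linear factors).
-/

namespace Pool.Agent.H24.LR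

open Finset Polynomial

theorem cauchy_root {f : ℤ[X]} (hf : f.Monic) {A : ℝ} (hA : 1 ≤ A)
    (hc : ∀ i, |(f.coeff i : ℝ)| ≤ Real.exp A) {α : ℂ} (hα : aeval α f = 0) :
    ‖α‖ ≤ Real.exp (A + 1) := by
  obtain ⟨p, hp⟩ : ∃ p : ℂ[X], p = f.map (Int.castRingHom ℂ) := ⟨_, rfl⟩
  have hpm : p.Monic := by rw [hp]; exact hf.map _
  have hroot : p.IsRoot α := by
    rw [hp, IsRoot.def, eval_map]
    exact hα
  have h1 : ‖α‖₊ < cauchyBound p := IsRoot.norm_lt_cauchyBound hpm.ne_zero hroot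
  have h3 : (range p.natDegree).sup (fun i => ‖p.coeff i‖₊) ≤ Real.toNNReal (Real.exp A) := by
    refine Finset.sup_le fun i _ => ?_
    rw [Real.le_toNNReal_iff_coe_le (Real.exp_pos A).le, coe_nnnorm, hp, coeff_map,
      eq_intCast, Complex.norm_intCast]
    exact hc i
  have h2 : (cauchyBound p : ℝ) ≤ Real.exp A + 1 := by
    have h4 : cauchyBound p ≤ Real.toNNReal (Real.exp A) + 1 := by
      unfold cauchyBound
      rw [hpm.leadingCoeff, nnnorm_one, div_one]
      exact add_le_add_left h3 1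
    have h5 : (cauchyBound p : ℝ) ≤ ((Real.toNNReal (Real.exp A) + 1 : NNReal) : ℝ) :=
      NNReal.coe_le_coe.2 h4
    rwa [NNReal.coe_add, Real.coe_toNNReal _ (Real.exp_pos A).le, NNReal.coe_one] at h5
  have h6 : ‖α‖ ≤ (cauchyBound p : ℝ) := by
    have := NNReal.coe_le_coe.2 h1.le
    rwa [coe_nnnorm] at this
  have h7 : Real.exp A + 1 ≤ Real.exp (A + 1) := by
    rw [Real.exp_add]
    have h8 := Real.exp_one_gt_d9
    have h9 : A + 1 ≤ Real.exp A := Real.add_one_le_exp A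
    nlinarith
  linarith

private theorem Min_exp_ten : (12870 : ℝ) ≤ Real.exp 10 := by
  have h1 := Real.exp_one_gt_d9
  have h2 : Real.exp 10 = Real.exp 1 ^ 10 := by
    rw [← Real.exp_nat_mul]
    norm_num
  have h3 : (2.7 : ℝ) ^ 10 ≤ Real.exp 1 ^ 10 := pow_le_pow_left₀ (by norm_num) (by linarith) _
  rw [h2]
  refine le_trans ?_ h3
  norm_num

theorem exists_min {f : ℤ[X]} (hf : f.Monic) (hd : f.natDegree ≤ 16) {A : ℝ} (hA : 1 ≤ A)
    (hc : ∀ i, |(f.coeff i : ℝ)| ≤ Real.exp A) {α : ℂ} (hα : aeval α f = 0) :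
    ∃ g : ℤ[X], g.Monic ∧ Irreducible (g.map (Int.castRingHom ℚ)) ∧ g.natDegree ≤ 16 ∧
      aeval α g = 0 ∧ ∀ i, |(g.coeff i : ℝ)| ≤ Real.exp (50 * A) := by
  have hint : IsIntegral ℤ α := ⟨f, hf, hα⟩
  have hdvd : minpoly ℤ α ∣ f := minpoly.isIntegrallyClosed_dvd hint hα
  have hmm : (minpoly ℤ α).Monic := minpoly.monic hint
  have hdeg : (minpoly ℤ α).natDegree ≤ 16 := (natDegree_le_of_dvd hdvd hf.ne_zero).trans hd
  refine ⟨minpoly ℤ α, hmm, ?_, hdeg, minpoly.aeval _ _, fun i => ?_⟩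
  · have h1 := minpoly.isIntegrallyClosed_eq_field_fractions' ℚ hint
    rw [algebraMap_int_eq] at h1
    rw [← h1]
    exact minpoly.irreducible (hint.tower_top)
  · have h4 : ∀ z ∈ ((minpoly ℤ α).map (Int.castRingHom ℂ)).roots, ‖z‖ ≤ Real.exp (A + 1) := by
      intro z hz
      refine cauchy_root hf hA hc ?_
      have h5 := isRoot_of_mem_roots hz
      rw [IsRoot.def, eval_map] at h5
      obtain ⟨k, hk⟩ := hdvd
      rw [hk, map_mul]
      have h6 : aeval z (minpoly ℤ α) = 0 := h5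
      rw [h6, zero_mul]
    have h7 := coeff_bdd_of_roots_le (Int.castRingHom ℂ) hmm (IsAlgClosed.splits _) hdeg h4 i
    rw [coeff_map, eq_intCast, Complex.norm_intCast] at h7
    refine h7.trans ?_
    have h8 : max (Real.exp (A + 1)) 1 = Real.exp (A + 1) :=
      max_eq_left (Real.one_le_exp (by linarith))
    have h9 : (((16 : ℕ).choose (16 / 2) : ℕ) : ℝ) = 12870 := by
      norm_num [Nat.choose]
    rw [h8, h9, ← Real.exp_nat_mul]
    calc Real.exp (((16 : ℕ) : ℝ) * (A + 1)) * 12870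
        ≤ Real.exp (((16 : ℕ) : ℝ) * (A + 1)) * Real.exp 10 :=
          mul_le_mul_of_nonneg_left Min_exp_ten (Real.exp_pos _).le
      _ = Real.exp (((16 : ℕ) : ℝ) * (A + 1) + 10) := (Real.exp_add _ _).symm
      _ ≤ Real.exp (50 * A) := by
          refine Real.exp_le_exp.2 ?_
          push_cast
          linarith

end Pool.Agent.H24.LR
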