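import Mathlib

/-!
# LR Near

The nearest root: `q = ∏ (X - r_i)` over `ℂ`, `r` the root nearest to `β`: `|β - r_i| ≥ |r - r_i|/2`, `q'(r) = ∏_{i ≠ 0} (r - r_i)`.
-/

namespace Pool.Agent.H24.LR

open Finset Polynomial

private theorem near_prod (β r : ℂ) (s : Multiset ℂ) (h : ∀ a ∈ s, ‖β - r‖ ≤ ‖β - a‖) :
    ‖(s.map fun a => r - a).prod‖ ≤ 2 ^ (Multiset.card s) * ‖(s.map fun a => β - a).prod‖ := by
  induction s using Multiset.induction_on with
  | empty => simp
  | cons a s ih =>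
    have h1 := ih (fun b hb => h b (Multiset.mem_cons_of_mem hb))
    have h2 : ‖β - r‖ ≤ ‖β - a‖ := h a (Multiset.mem_cons_self a s)
    have h3 : ‖r - a‖ ≤ 2 * ‖β - a‖ := by
      have h4 : r - a = (β - a) - (β - r) := by ring
      calc ‖r - a‖ = ‖(β - a) - (β - r)‖ := by rw [← h4]
        _ ≤ ‖β - a‖ + ‖β - r‖ := norm_sub_le _ _
        _ ≤ 2 * ‖β - a‖ := by linarith
    rw [Multiset.map_cons, Multiset.map_cons, Multiset.prod_cons, Multiset.prod_cons, norm_mul,
      norm_mul, Multiset.card_cons, pow_succ]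
    calc ‖r - a‖ * ‖(s.map fun a => r - a).prod‖
        ≤ (2 * ‖β - a‖) * (2 ^ (Multiset.card s) * ‖(s.map fun a => β - a).prod‖) :=
          mul_le_mul h3 h1 (norm_nonneg _) (by positivity)
      _ = 2 ^ (Multiset.card s) * 2 * (‖β - a‖ * ‖(s.map fun a => β - a).prod‖) := by ring

theorem near_root (q : ℂ[X]) (hq : q.Monic) (hd : 0 < q.natDegree) (β : ℂ) :
    ∃ r : ℂ, q.eval r = 0 ∧
      ‖β - r‖ * ‖q.derivative.eval r‖ ≤ 2 ^ (q.natDegree - 1) * ‖q.eval β‖ := by
  classical
  have hs : q.Splits := IsAlgClosed.splits q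
  have hq0 : q ≠ 0 := hq.ne_zero
  have hcard : Multiset.card q.roots = q.natDegree := hs.natDegree_eq_card_roots.symm
  have hne : q.roots.toFinset.Nonempty := by
    rw [Multiset.toFinset_nonempty]
    intro h0
    rw [h0, Multiset.card_zero] at hcard
    omega
  obtain ⟨r, hr, hmin⟩ := Finset.exists_min_image q.roots.toFinset (fun a => ‖β - a‖) hne
  have hrm : r ∈ q.roots := Multiset.mem_toFinset.1 hr
  refine ⟨r, (mem_roots hq0).1 hrm, ?_⟩
  rw [hs.eval_root_derivative hq hrm, hs.eval_eq_prod_roots_of_monic hq β]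
  have h1 := near_prod β r (q.roots.erase r) (fun a ha =>
    hmin a (Multiset.mem_toFinset.2 (Multiset.mem_of_mem_erase ha)))
  have hc : Multiset.card (q.roots.erase r) = q.natDegree - 1 := by
    rw [Multiset.card_erase_of_mem hrm, hcard]; rfl
  rw [hc] at h1
  have h2 : (q.roots.map fun a => β - a).prod
      = (β - r) * ((q.roots.erase r).map fun a => β - a).prod := by
    conv_lhs => rw [← Multiset.cons_erase hrm]
    rw [Multiset.map_cons, Multiset.prod_cons]
  rw [h2, norm_mul]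
  calc ‖β - r‖ * ‖((q.roots.erase r).map fun a => r - a).prod‖
      ≤ ‖β - r‖ * (2 ^ (q.natDegree - 1) * ‖((q.roots.erase r).map fun a => β - a).prod‖) :=
        mul_le_mul_of_nonneg_left h1 (norm_nonneg _)
    _ = 2 ^ (q.natDegree - 1) * (‖β - r‖ * ‖((q.roots.erase r).map fun a => β - a).prod‖) := by
        ring

end Pool.Agent.H24.LR
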