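import Pool.Agent.H24.LR.Wr

/-!
# LR Ord

`P = (P_0, .., P_3)` not all zero, degree `≤ m`, with `g ∣ ∑_j X^j hasseDeriv i P_j` for all `i < k`; `g` monic, irreducible over `ℚ` of degree `d ≥ 4`.
(1) For each of the `d` distinct complex roots `α` of `g`, `G_α = ∑ α^j P_j` has `hasseDeriv i G_α` vanishing at `α` for `i < k`, so
`(X - α)^k ∣ G_α` (`Polynomial.taylor_coeff`, `X_sub_C_pow_dvd_iff`). (2) The `P_j` are linearly independent over `ℚ`: let `U_0..U_ρ` be a basis of their
span, `P_j = ∑_l c_{jl} U_l`, suppose `ρ ≤ 2`; `V_l(y) = ∑_j c_{jl} y^j` is not the zero polynomial for some (each) `l`, has degree `≤ 3 < d`, so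
`V_l(α) ≠ 0` (`g` is the minimal polynomial of `α`); `G_α = ∑_l V_l(α) U_l`; `wr_bound` with `Z` = the roots: `d (k - ρ) ≤ (ρ+1) m`, so
`d (k-2) ≤ 3m`, a contradiction. (3) `wr_bound` for `P` itself, `ρ = 3`, with `Z` = the roots and `β₁` (not a root of `g`, as `d ≥ 2`),
vector `(β₂^j)_j`: `d (k-3) + (n-3) ≤ 4m`.
-/

namespace Pool.Agent.H24.LR

open Finset Polynomial

/-- The conditions on the auxiliary polynomial `∑ P_j(x) y^j`. -/
def IsAux (g : ℤ[X]) (k m : ℕ) (P : Fin 4 → ℤ[X]) : Prop :=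
  P ≠ 0 ∧ (∀ j, (P j).natDegree ≤ m) ∧
    ∀ i < k, g ∣ ∑ j : Fin 4, X ^ (j : ℕ) * hasseDeriv i (P j)

private theorem hasseDeriv_map_c {R S : Type*} [Ring R] [Ring S] (φ : R →+* S) (k : ℕ) (f : R[X]) :
    (hasseDeriv k f).map φ = hasseDeriv k (f.map φ) := by
  ext n
  rw [coeff_map, hasseDeriv_coeff, hasseDeriv_coeff, coeff_map, map_mul, map_natCast]

/-- Divisibility by a power of `X - z` and Hasse derivatives. -/
private theorem pow_dvd_of_hasse {F : Type*} [Field F] {z : F} {k : ℕ} {G : F[X]}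
    (h : ∀ i < k, (hasseDeriv i G).eval z = 0) : (X - C z) ^ k ∣ G := by
  rw [X_sub_C_pow_dvd_iff, X_pow_dvd_iff]
  intro i hi
  have h1 : G.comp (X + C z) = taylor z G := by rw [taylor_apply]
  rw [h1, taylor_coeff]
  exact h i hi

theorem aux_root {g : ℤ[X]} {k m : ℕ} {P : Fin 4 → ℤ[X]} (hP : IsAux g k m P) {α : ℂ}
    (hα : aeval α g = 0) : (X - C α) ^ k ∣
      ∑ j : Fin 4, C (α ^ (j : ℕ)) * (P j).map (Int.castRingHom ℂ) := by
  refine pow_dvd_of_hasse fun i hi => ?_
  obtain ⟨q, hq⟩ := hP.2.2 i hi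
  have h1 : aeval α (∑ j : Fin 4, X ^ (j : ℕ) * hasseDeriv i (P j)) = 0 := by
    rw [hq, map_mul, hα, zero_mul]
  rw [map_sum] at h1
  rw [map_sum, eval_finsetSum]
  rw [← h1]
  refine Finset.sum_congr rfl fun j _ => ?_
  rw [← smul_eq_C_mul, LinearMap.map_smul, smul_eq_C_mul, eval_mul, eval_C, map_mul, map_pow,
    aeval_X, ← hasseDeriv_map_c, eval_map, aeval_def]
  rfl

/-- The set of the complex roots of `g`. -/
private noncomputable def rts (g : ℤ[X]) : Finset ℂ :=
  ((g.map (Int.castRingHom ℚ)).map (algebraMap ℚ ℂ)).roots.toFinset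

private theorem map_map_c (f : ℤ[X]) : (f.map (Int.castRingHom ℚ)).map (algebraMap ℚ ℂ) =
    f.map (Int.castRingHom ℂ) := by
  rw [Polynomial.map_map]
  congr 1

private theorem card_rts {g : ℤ[X]} (hg : g.Monic)
    (hirr : Irreducible (g.map (Int.castRingHom ℚ))) : (rts g).card = g.natDegree := by
  unfold rts
  rw [Multiset.toFinset_card_of_nodup (nodup_roots hirr.separable.map),
    ← (IsAlgClosed.splits _).natDegree_eq_card_roots, natDegree_map, hg.natDegree_map]

private theorem root_of_mem {g : ℤ[X]} {α : ℂ} (h : α ∈ rts g) : aeval α g = 0 := by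
  unfold rts at h
  rw [Multiset.mem_toFinset, map_map_c] at h
  have h2 := (mem_roots'.1 h).2
  rw [IsRoot, eval_map] at h2
  rw [aeval_def]
  exact h2

/-- A rational polynomial of degree less than `natDegree g` that vanishes at a root of `g` is zero. -/
private theorem low_degree {g : ℤ[X]} (hg : g.Monic)
    (hirr : Irreducible (g.map (Int.castRingHom ℚ))) {α : ℂ} (hα : aeval α g = 0) {V : ℚ[X]}
    (hV : V.natDegree < g.natDegree) (h0 : aeval α V = 0) : V = 0 := by
  by_contra hne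
  have h1 : aeval α (g.map (Int.castRingHom ℚ)) = 0 := by
    rw [aeval_def, ← eval_map, map_map_c, eval_map]
    rw [aeval_def] at hα
    exact hα
  have h2 : minpoly ℚ α = g.map (Int.castRingHom ℚ) :=
    (minpoly.eq_of_irreducible_of_monic hirr h1 (hg.map _)).symm
  have h3 := minpoly.dvd ℚ α h0
  rw [h2] at h3
  have h4 := natDegree_le_of_dvd h3 hne
  rw [hg.natDegree_map] at h4
  omega

/-- The rational forms of the `P_j` are linearly independent. -/
private theorem indep {g : ℤ[X]} (hg : g.Monic) (hirr : Irreducible (g.map (Int.castRingHom ℚ)))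
    (hd : 4 ≤ g.natDegree) {k m : ℕ} {P : Fin 4 → ℤ[X]} (hP : IsAux g k m P)
    (hkm : 3 * m < g.natDegree * (k - 2)) :
    LinearIndependent ℚ (fun j => (P j).map (Int.castRingHom ℚ)) := by
  set p : Fin 4 → ℚ[X] := fun j => (P j).map (Int.castRingHom ℚ) with hp
  rw [linearIndependent_iff_card_le_finrank_span, Fintype.card_fin]
  by_contra hcon
  rw [not_le] at hcon
  set W : Submodule ℚ ℚ[X] := Submodule.span ℚ (Set.range p) with hW
  have hfin : Module.Finite ℚ W := Module.Finite.span_of_finite ℚ (Set.finite_range p)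
  have hr : Set.finrank ℚ (Set.range p) = Module.finrank ℚ W := rfl
  rw [hr] at hcon
  have hpW : ∀ j, p j ∈ W := fun j => Submodule.subset_span ⟨j, rfl⟩
  -- some `P_j` is not zero
  obtain ⟨j0, hj0⟩ := Function.ne_iff.1 hP.1
  have hpj0 : p j0 ≠ 0 := by
    intro h
    refine hj0 ?_
    have h2 : (P j0).map (Int.castRingHom ℚ) = 0 := h
    rw [Polynomial.map_eq_zero_iff (Int.castRingHom ℚ).injective_int] at h2
    exact h2
  have hpos : Module.finrank ℚ W ≠ 0 := by
    intro h
    rw [Module.finrank_eq_zero_iff_of_free, Submodule.subsingleton_iff_eq_bot] at h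
    have h2 := hpW j0
    rw [h, Submodule.mem_bot] at h2
    exact hpj0 h2
  obtain ⟨ρ, hρ⟩ := Nat.exists_eq_succ_of_ne_zero hpos
  have hρ2 : ρ ≤ 2 := by omega
  let b : Module.Basis (Fin (ρ + 1)) ℚ W := Module.finBasisOfFinrankEq ℚ W hρ
  let U : Fin (ρ + 1) → ℚ[X] := fun l => (b l : ℚ[X])
  have hU : LinearIndependent ℚ U := by
    have h := b.linearIndependent.map' W.subtype (Submodule.ker_subtype W)
    exact h
  have hWdeg : W ≤ degreeLE ℚ m := by
    rw [hW, Submodule.span_le]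
    rintro _ ⟨j, rfl⟩
    rw [SetLike.mem_coe, mem_degreeLE, ← natDegree_le_iff_degree_le]
    exact (natDegree_map_le).trans (hP.2.1 j)
  have hdeg : ∀ l, (U l).natDegree ≤ m := by
    intro l
    have h := hWdeg (b l).2
    rw [mem_degreeLE, ← natDegree_le_iff_degree_le] at h
    exact h
  -- coordinates
  let c : Fin 4 → Fin (ρ + 1) → ℚ := fun j l => b.repr ⟨p j, hpW j⟩ l
  have hc : ∀ j, p j = ∑ l, c j l • U l := by
    intro j
    have h := b.sum_repr ⟨p j, hpW j⟩
    have h2 := congrArg (W.subtype) h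
    rw [map_sum] at h2
    have h3 : W.subtype ⟨p j, hpW j⟩ = p j := rfl
    rw [h3] at h2
    refine h2.symm.trans (Finset.sum_congr rfl fun l _ => ?_)
    rw [LinearMap.map_smul, Submodule.subtype_apply]
  let V : Fin (ρ + 1) → ℚ[X] := fun l => ∑ j : Fin 4, C (c j l) * X ^ (j : ℕ)
  have hVcoeff : ∀ l (j : Fin 4), (V l).coeff (j : ℕ) = c j l := by
    intro l j
    show (∑ i : Fin 4, C (c i l) * X ^ (i : ℕ)).coeff (j : ℕ) = c j l
    rw [finsetSum_coeff, Finset.sum_eq_single j]
    · rw [coeff_C_mul, coeff_X_pow, if_pos rfl, mul_one]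
    · intro i _ hij
      rw [coeff_C_mul, coeff_X_pow, if_neg (fun h => hij (Fin.ext h.symm)), mul_zero]
    · intro h
      exact absurd (Finset.mem_univ j) h
  have hVdeg : ∀ l, (V l).natDegree < g.natDegree := by
    intro l
    refine lt_of_le_of_lt (natDegree_sum_le_of_forall_le (n := 3) _ _ fun j _ => ?_) (by omega)
    refine (natDegree_C_mul_X_pow_le _ _).trans ?_
    have := j.2
    omega
  obtain ⟨l0, hl0⟩ : ∃ l0, V l0 ≠ 0 := by
    by_contra hall
    push Not at hall
    refine hpj0 ?_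
    rw [hc j0]
    refine Finset.sum_eq_zero fun l _ => ?_
    rw [← hVcoeff l j0, hall l, coeff_zero, zero_smul]
  have hmain := wr_bound U hU hdeg (rts g) (fun _ => k) (by
    intro α hα
    have hα' := root_of_mem hα
    refine ⟨fun l => aeval α (V l), ?_, ?_⟩
    · intro h
      have h2 : aeval α (V l0) = 0 := congrFun h l0
      exact hl0 (low_degree hg hirr hα' (hVdeg l0) h2)
    · have h := aux_root hP hα'
      refine h.trans (dvd_of_eq ?_)
      have h3 : ∀ j : Fin 4, (P j).map (Int.castRingHom ℂ) =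
          ∑ l, C (algebraMap ℚ ℂ (c j l)) * (U l).map (algebraMap ℚ ℂ) := by
        intro j
        rw [← map_map_c]
        have h4 : (P j).map (Int.castRingHom ℚ) = ∑ l, c j l • U l := hc j
        rw [h4, Polynomial.map_sum]
        refine Finset.sum_congr rfl fun l _ => ?_
        rw [smul_eq_C_mul, Polynomial.map_mul, map_C]
      calc ∑ j : Fin 4, C (α ^ (j : ℕ)) * (P j).map (Int.castRingHom ℂ)
          = ∑ j : Fin 4, ∑ l, C (α ^ (j : ℕ)) *
              (C (algebraMap ℚ ℂ (c j l)) * (U l).map (algebraMap ℚ ℂ)) := by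
            refine Finset.sum_congr rfl fun j _ => ?_
            rw [h3 j, Finset.mul_sum]
        _ = ∑ l, ∑ j : Fin 4, C (α ^ (j : ℕ)) *
              (C (algebraMap ℚ ℂ (c j l)) * (U l).map (algebraMap ℚ ℂ)) := Finset.sum_comm
        _ = ∑ l, C (aeval α (V l)) * (U l).map (algebraMap ℚ ℂ) := by
            refine Finset.sum_congr rfl fun l _ => ?_
            have h5 : aeval α (V l) = ∑ j : Fin 4, algebraMap ℚ ℂ (c j l) * α ^ (j : ℕ) := by
              show aeval α (∑ j : Fin 4, C (c j l) * X ^ (j : ℕ)) = _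
              rw [map_sum]
              refine Finset.sum_congr rfl fun j _ => ?_
              rw [map_mul, aeval_C, map_pow, aeval_X]
            rw [h5, map_sum, Finset.sum_mul]
            refine Finset.sum_congr rfl fun j _ => ?_
            rw [C_mul]
            ring)
  rw [Finset.sum_const, card_rts hg hirr, smul_eq_mul] at hmain
  have h6 : g.natDegree * (k - 2) ≤ g.natDegree * (k - ρ) :=
    Nat.mul_le_mul_left _ (by omega)
  have h7 : (ρ + 1) * m ≤ 3 * m := Nat.mul_le_mul_right _ (by omega)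
  omega

theorem aux_order {g : ℤ[X]} (hg : g.Monic) (hirr : Irreducible (g.map (Int.castRingHom ℚ)))
    (hd : 4 ≤ g.natDegree) {k m : ℕ} {P : Fin 4 → ℤ[X]} (hP : IsAux g k m P)
    (hkm : 3 * m < g.natDegree * (k - 2)) (β₁ β₂ : ℚ) :
    ∃ n : ℕ, g.natDegree * (k - 3) + n ≤ 4 * m + 3 ∧
      ∑ j : Fin 4, β₂ ^ (j : ℕ) * (hasseDeriv n ((P j).map (Int.castRingHom ℚ))).eval β₁ ≠ 0 := by
  classical
  have hind := indep hg hirr hd hP hkm
  set p : Fin 4 → ℚ[X] := fun j => (P j).map (Int.castRingHom ℚ) with hp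
  set G : ℚ[X] := ∑ j : Fin 4, C (β₂ ^ (j : ℕ)) * p j with hG
  have hG0 : G ≠ 0 := by
    intro h
    have h1 : ∑ j : Fin 4, (β₂ ^ (j : ℕ)) • p j = 0 := by
      rw [← h, hG]
      refine Finset.sum_congr rfl fun j _ => ?_
      rw [smul_eq_C_mul]
    have h2 := Fintype.linearIndependent_iff.1 hind (fun j => β₂ ^ (j : ℕ)) h1 0
    have h3 : β₂ ^ ((0 : Fin 4) : ℕ) = 1 := pow_zero _
    rw [h3] at h2
    exact one_ne_zero h2
  have hhas : ∀ n, (hasseDeriv n G).eval β₁ =
      ∑ j : Fin 4, β₂ ^ (j : ℕ) * (hasseDeriv n ((P j).map (Int.castRingHom ℚ))).eval β₁ := by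
    intro n
    rw [hG, map_sum, eval_finsetSum]
    refine Finset.sum_congr rfl fun j _ => ?_
    rw [← smul_eq_C_mul, LinearMap.map_smul, eval_smul, smul_eq_mul]
  have hex : ∃ n, (hasseDeriv n G).eval β₁ ≠ 0 := by
    by_contra hall
    push Not at hall
    refine hG0 ?_
    have h1 : taylor β₁ G = 0 := by
      ext n
      rw [taylor_coeff, hall n, coeff_zero]
    exact taylor_injective β₁ (by rw [h1, map_zero])
  set n := Nat.find hex with hn
  have hn1 : (hasseDeriv n G).eval β₁ ≠ 0 := Nat.find_spec hex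
  have hn2 : ∀ i < n, (hasseDeriv i G).eval β₁ = 0 := fun i hi => by
    have := Nat.find_min hex hi
    push Not at this
    exact this
  refine ⟨n, ?_, by rw [← hhas n]; exact hn1⟩
  have hβ : ((β₁ : ℚ) : ℂ) ∉ rts g := by
    intro h
    have h1 := root_of_mem h
    have h2 : aeval ((β₁ : ℚ) : ℂ) (X - C β₁ : ℚ[X]) = 0 := by
      rw [map_sub, aeval_X, aeval_C]
      exact sub_self _
    have h3 := low_degree hg hirr h1 (V := X - C β₁) (by rw [natDegree_X_sub_C]; omega) h2
    exact X_sub_C_ne_zero β₁ h3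
  have hdvd : (X - C ((β₁ : ℚ) : ℂ)) ^ n ∣
      ∑ j : Fin 4, C (((β₂ : ℚ) : ℂ) ^ (j : ℕ)) * (p j).map (algebraMap ℚ ℂ) := by
    have h1 : (X - C β₁) ^ n ∣ G := pow_dvd_of_hasse hn2
    have h2 := Polynomial.map_dvd (algebraMap ℚ ℂ) h1
    rw [Polynomial.map_pow, Polynomial.map_sub, map_X, map_C, hG, Polynomial.map_sum] at h2
    refine h2.trans (dvd_of_eq ?_)
    refine Finset.sum_congr rfl fun j _ => ?_
    rw [Polynomial.map_mul, map_C, map_pow]
    rfl
  have hmain := wr_bound (ρ := 3) p hind (m := m)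
    (fun l => (natDegree_map_le).trans (hP.2.1 l)) (insert ((β₁ : ℚ) : ℂ) (rts g))
    (fun z => if z = ((β₁ : ℚ) : ℂ) then n else k) (by
      intro z hz
      rw [Finset.mem_insert] at hz
      by_cases hzb : z = ((β₁ : ℚ) : ℂ)
      · refine ⟨fun j => ((β₂ : ℚ) : ℂ) ^ (j : ℕ), ?_, ?_⟩
        · intro h
          have h2 := congrFun h 0
          have h3 : ((β₂ : ℚ) : ℂ) ^ ((0 : Fin 4) : ℕ) = 1 := pow_zero _
          have h4 : ((β₂ : ℚ) : ℂ) ^ ((0 : Fin 4) : ℕ) = 0 := h2
          rw [h3] at h4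
          exact one_ne_zero h4
        · rw [if_pos hzb, hzb]
          exact hdvd
      · have hz2 : z ∈ rts g := hz.resolve_left hzb
        refine ⟨fun j => z ^ (j : ℕ), ?_, ?_⟩
        · intro h
          have h3 : z ^ ((0 : Fin 4) : ℕ) = 1 := pow_zero _
          have h4 : z ^ ((0 : Fin 4) : ℕ) = 0 := congrFun h 0
          rw [h3] at h4
          exact one_ne_zero h4
        · rw [if_neg hzb]
          refine (aux_root hP (root_of_mem hz2)).trans (dvd_of_eq ?_)
          refine Finset.sum_congr rfl fun j _ => ?_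
          rw [← map_map_c])
  rw [Finset.sum_insert hβ, if_pos rfl] at hmain
  have h8 : ∑ z ∈ rts g, ((if z = ((β₁ : ℚ) : ℂ) then n else k) - 3) = g.natDegree * (k - 3) := by
    rw [← card_rts hg hirr, ← smul_eq_mul, ← Finset.sum_const]
    refine Finset.sum_congr rfl fun z hz => ?_
    rw [if_neg]
    intro h
    rw [h] at hz
    exact hβ hz
  rw [h8] at hmain
  omega

end Pool.Agent.H24.LR
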