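import Pool.Agent.H24.LR.Quad
import Pool.Agent.H24.LQ.Class

/-!
# LR Pack

Packing. Let `B(ρ) = {T | g T ≤ ρ}` (finite). The translates `P + B(R/16)`, `P ∈ S`, are pairwise disjoint: `P + b = P' + b'` gives
`g(P - P') = g(b' - b) ≤ 4 R/16 < R/2`; they lie in `B(9R)` (`g(P+b) ≤ 8R + R/8`). So `|S| |B(R/16)| ≤ |B(9R)|`. And
`|B(9R)| ≤ 24^r |B(R/16)|` by `Pool.Agent.H24.LQ.class_count'` with `n = 24`, `good T := g T ≤ R/16`: if `P - Q = 24 T + τ`
then `576 g T = g(P - Q - τ) = g(P - Q) ≤ 36 R`. `|B(R/16)| ≥ 1` (contains `0`).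
-/

namespace Pool.Agent.H24.LR

open Pool.Agent.H24.LQ Finset

theorem packing {A : Type*} [AddCommGroup A] {g : A → ℝ} (h : IsQuad g)
    (hfin : ∀ R : ℝ, {P : A | g P ≤ R}.Finite) (r : ℕ) (hr : Module.rank ℤ A ≤ r) {R : ℝ}
    (hR : 0 < R) (S : Finset A) (hS : ∀ P ∈ S, g P ≤ 4 * R)
    (hsep : ∀ P ∈ S, ∀ Q ∈ S, P ≠ Q → R / 2 ≤ g (P - Q)) : S.card ≤ 24 ^ r := by
  classical
  let B16 : Finset A := (hfin (R / 16)).toFinset
  let B9 : Finset A := (hfin (9 * R)).toFinset
  have m16 : ∀ T, T ∈ B16 ↔ g T ≤ R / 16 := fun T => by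
    rw [Set.Finite.mem_toFinset, Set.mem_setOf_eq]
  have m9 : ∀ T, T ∈ B9 ↔ g T ≤ 9 * R := fun T => by
    rw [Set.Finite.mem_toFinset, Set.mem_setOf_eq]
  have h1 : (S ×ˢ B16).card ≤ B9.card := by
    apply Finset.card_le_card_of_injOn (fun x : A × A => x.1 + x.2)
    · intro x hx
      obtain ⟨hx1, hx2⟩ := Finset.mem_product.1 (Finset.mem_coe.1 hx)
      rw [m16] at hx2
      rw [Finset.mem_coe, m9]
      have h2 := h.add_le x.1 x.2
      have h3 := hS x.1 hx1
      show g (x.1 + x.2) ≤ 9 * R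
      linarith
    · intro x hx y hy hxy
      obtain ⟨hx1, hx2⟩ := Finset.mem_product.1 (Finset.mem_coe.1 hx)
      obtain ⟨hy1, hy2⟩ := Finset.mem_product.1 (Finset.mem_coe.1 hy)
      rw [m16] at hx2 hy2
      have hxy' : x.1 + x.2 = y.1 + y.2 := hxy
      have h5 : x.1 = y.1 := by
        by_contra hne
        have h2 := hsep x.1 hx1 y.1 hy1 hne
        have h3 : x.1 - y.1 = y.2 - x.2 := by
          rw [sub_eq_sub_iff_add_eq_add, hxy', add_comm]
        rw [h3] at h2
        have h4 := h.sub_le y.2 x.2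
        linarith
      have h6 : x.2 = y.2 := by
        rw [h5] at hxy'
        exact add_left_cancel hxy'
      exact Prod.ext h5 h6
  have h2 : B9.card ≤ 24 ^ r * B16.card := by
    apply class_count' B9 r 24 (by norm_num) hr (fun T => g T ≤ R / 16) B16.card
    · intro s hs
      apply Finset.card_le_card
      intro T hT
      rw [m16]
      exact hs T hT
    · intro P hP Q hQ T τ k hk hτ hPQ
      rw [m9] at hP hQ
      have h3 := h.sub_le P Q
      rw [hPQ, h.add_torsion (24 • T) hk hτ, h.nsmul] at h3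
      show g T ≤ R / 16
      norm_num at h3
      linarith
  have h3 : 0 < B16.card := by
    apply Finset.card_pos.2
    refine ⟨0, ?_⟩
    rw [m16, h.zero]
    positivity
  rw [Finset.card_product] at h1
  exact Nat.le_of_mul_le_mul_right (h1.trans h2) h3

end Pool.Agent.H24.LR
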