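import Pool.Agent.H24.LQ.NaiveS

/-!
# LR ParS

The inequalities on rational numbers used in `Par` (in a module of its own, compiled in parallel).
-/

namespace Pool.Agent.H24.LR.ParS

open Pool.Agent.H24 Pool.Agent.H24.LP Pool.Agent.H24.LQ Finset

lemma int_pair {A B C U V U' V' : ℤ} (hA : A ≠ 0) (hV : V ≠ 0) (hV' : V' ≠ 0)
    (hc : IsCoprime U V) (hc' : IsCoprime U' V')
    (h1 : A * (U * V' + U' * V) = B * (V * V')) (h2 : A * (U * U') = C * (V * V')) :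
    |V * V'| ≤ |A| ∧ |U * V' + U' * V| ≤ |B| ∧ |U * U'| ≤ |C| := by
  have c1 : V ∣ U * (A * V') := ⟨B * V' - A * U', by linear_combination h1⟩
  have c2 : V ∣ U * (A * U') := ⟨C * V', by linear_combination h2⟩
  have d1 : V ∣ A * V' := hc.symm.dvd_of_dvd_mul_left c1
  have d2 : V ∣ A * U' := hc.symm.dvd_of_dvd_mul_left c2
  have d3 : V ∣ A := by
    obtain ⟨r, s, hrs⟩ := hc'
    have e : A = r * (A * U') + s * (A * V') := by linear_combination (-A) * hrs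
    rw [e]
    exact dvd_add (Dvd.dvd.mul_left d2 _) (Dvd.dvd.mul_left d1 _)
  obtain ⟨A1, rfl⟩ := d3
  have g1 : A1 * (U * V' + U' * V) = B * V' := by
    apply mul_left_cancel₀ hV
    linear_combination h1
  have g2 : A1 * (U * U') = C * V' := by
    apply mul_left_cancel₀ hV
    linear_combination h2
  have c4 : V' ∣ U' * (A1 * V) := ⟨B - A1 * U, by linear_combination g1⟩
  have c5 : V' ∣ U' * (A1 * U) := ⟨C, by linear_combination g2⟩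
  have d4 : V' ∣ A1 * V := hc'.symm.dvd_of_dvd_mul_left c4
  have d5 : V' ∣ A1 * U := hc'.symm.dvd_of_dvd_mul_left c5
  have d6 : V' ∣ A1 := by
    obtain ⟨r, s, hrs⟩ := hc
    have e : A1 = r * (A1 * U) + s * (A1 * V) := by linear_combination (-A1) * hrs
    rw [e]
    exact dvd_add (Dvd.dvd.mul_left d5 _) (Dvd.dvd.mul_left d4 _)
  obtain ⟨c, rfl⟩ := d6
  have k1 : (U * V' + U' * V) * c = B := by
    apply mul_left_cancel₀ hV'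
    linear_combination g1
  have k2 : (U * U') * c = C := by
    apply mul_left_cancel₀ hV'
    linear_combination g2
  have hc0 : c ≠ 0 := by
    rintro rfl
    apply hA
    ring
  have hc1 : 1 ≤ |c| := Int.one_le_abs hc0
  refine ⟨?_, ?_, ?_⟩
  · have e : |V * (V' * c)| = |V * V'| * |c| := by rw [← abs_mul, mul_assoc]
    rw [e]
    exact le_mul_of_one_le_right (abs_nonneg _) hc1
  · rw [← k1, abs_mul]
    exact le_mul_of_one_le_right (abs_nonneg _) hc1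
  · rw [← k2, abs_mul (U * U')]
    exact le_mul_of_one_le_right (abs_nonneg _) hc1

lemma cross {u v u' v' m : ℝ} (h1 : |v * v'| ≤ m) (h2 : |u * v' + u' * v| ≤ m)
    (h3 : |u * u'| ≤ m) : |u| * |v'| ≤ 2 * m := by
  have hm : 0 ≤ m := le_trans (abs_nonneg _) h1
  have hx : |u * v'| ≤ m + |u' * v| := by
    have e : u * v' = (u * v' + u' * v) - u' * v := by ring
    calc |u * v'| = |(u * v' + u' * v) - u' * v| := by rw [← e]
      _ ≤ |u * v' + u' * v| + |u' * v| := abs_sub _ _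
      _ ≤ _ := by linarith
  have hxy : |u * v'| * |u' * v| ≤ m * m := by
    have e : |u * v'| * |u' * v| = |u * u'| * |v * v'| := by
      rw [abs_mul, abs_mul, abs_mul, abs_mul]; ring
    rw [e]
    exact mul_le_mul h3 h1 (abs_nonneg _) hm
  rw [← abs_mul]
  by_contra hne
  push Not at hne
  have hy : m < |u' * v| := by linarith
  nlinarith

lemma max_mul_le {u v u' v' m : ℝ} (h1 : |v * v'| ≤ m) (h2 : |u * v' + u' * v| ≤ m)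
    (h3 : |u * u'| ≤ m) : max |u| |v| * max |u'| |v'| ≤ 2 * m := by
  have hm : 0 ≤ m := le_trans (abs_nonneg _) h1
  rcases max_choice |u| |v| with h | h <;> rcases max_choice |u'| |v'| with h' | h' <;> rw [h, h']
  · rw [← abs_mul]; linarith
  · exact cross h1 h2 h3
  · rw [mul_comm]
    refine cross (u := u') (v := v') (u' := u) (v' := v) ?_ ?_ ?_
    · rw [mul_comm]; exact h1
    · rw [add_comm]; exact h2
    · rw [mul_comm]; exact h3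
  · rw [← abs_mul]; linarith

lemma chord_id {a b x₁ x₂ y₁ y₂ u : ℚ} (hx : x₁ ≠ x₂) (h1 : y₁ ^ 2 = x₁ ^ 3 + a * x₁ + b)
    (h2 : y₂ ^ 2 = x₂ ^ 3 + a * x₂ + b)
    (hu : u = ((y₁ - y₂) / (x₁ - x₂)) ^ 2 - x₁ - x₂) :
    (x₁ - x₂) ^ 2 * u = (x₁ * x₂ + a) * (x₁ + x₂) + 2 * b - 2 * y₁ * y₂ := by
  have h0 : x₁ - x₂ ≠ 0 := sub_ne_zero.mpr hx
  rw [hu, div_pow, mul_sub, mul_sub, mul_div_cancel₀ _ (pow_ne_zero 2 h0)]
  linear_combination h1 + h2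

lemma prod_id {a b x₁ x₂ y₁ y₂ u u' : ℚ} (hx : x₁ ≠ x₂)
    (h1 : y₁ ^ 2 = x₁ ^ 3 + a * x₁ + b) (h2 : y₂ ^ 2 = x₂ ^ 3 + a * x₂ + b)
    (hu : (x₁ - x₂) ^ 2 * u = (x₁ * x₂ + a) * (x₁ + x₂) + 2 * b - 2 * y₁ * y₂)
    (hu' : (x₁ - x₂) ^ 2 * u' = (x₁ * x₂ + a) * (x₁ + x₂) + 2 * b + 2 * y₁ * y₂) :
    (x₁ - x₂) ^ 2 * (u * u') = (x₁ * x₂ - a) ^ 2 - 4 * b * (x₁ + x₂) := by
  have h4 : (x₁ - x₂) ^ 2 ≠ 0 := pow_ne_zero 2 (sub_ne_zero.mpr hx)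
  apply mul_left_cancel₀ h4
  linear_combination ((x₁ - x₂) ^ 2 * u') * hu
    + ((x₁ * x₂ + a) * (x₁ + x₂) + 2 * b - 2 * y₁ * y₂) * hu'
    - 4 * y₂ ^ 2 * h1 - 4 * (x₁ ^ 3 + a * x₁ + b) * h2

lemma chord_num {a b : ℤ} {x₁ y₁ x₂ y₂ u u' : ℚ} {E : ℝ} (hE : 1 ≤ E)
    (ha : |(a : ℝ)| ≤ E ^ 2) (hb : |(b : ℝ)| ≤ E ^ 3) (hx : x₁ ≠ x₂)
    (e1 : y₁ ^ 2 = x₁ ^ 3 + a * x₁ + b) (e2 : y₂ ^ 2 = x₂ ^ 3 + a * x₂ + b)
    (hu2 : u = ((y₁ - y₂) / (x₁ - x₂)) ^ 2 - x₁ - x₂)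
    (hu2' : u' = ((y₁ - (-y₂)) / (x₁ - x₂)) ^ 2 - x₁ - x₂) :
    max |(u.num : ℝ)| |(u.den : ℝ)| * max |(u'.num : ℝ)| |(u'.den : ℝ)| ≤
      56 * E ^ 4 * (max |(x₁.num : ℝ)| |(x₁.den : ℝ)| ^ 2 *
        max |(x₂.num : ℝ)| |(x₂.den : ℝ)| ^ 2) := by
  have q1 := chord_id hx e1 e2 hu2
  have q2 := chord_id hx e1 (y₂ := -y₂) (by rw [neg_sq]; exact e2) hu2'
  have q2' : (x₁ - x₂) ^ 2 * u' = (x₁ * x₂ + a) * (x₁ + x₂) + 2 * b + 2 * y₁ * y₂ := by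
    rw [q2]; ring
  have q3 := prod_id hx e1 e2 q1 q2'
  have hZ1 : (x₁.den : ℚ) ≠ 0 := by exact_mod_cast x₁.den_nz
  have hZ2 : (x₂.den : ℚ) ≠ 0 := by exact_mod_cast x₂.den_nz
  have ex1 : x₁ * x₁.den = x₁.num := Rat.mul_den_eq_num x₁
  have ex2 : x₂ * x₂.den = x₂.num := Rat.mul_den_eq_num x₂
  have eu : u * u.den = u.num := Rat.mul_den_eq_num u
  have eu' : u' * u'.den = u'.num := Rat.mul_den_eq_num u'
  have hA0 : (x₁.num * (x₂.den : ℤ) - x₂.num * (x₁.den : ℤ)) ^ 2 ≠ 0 := by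
    apply pow_ne_zero
    intro h0
    have h0' : ((x₁.num * (x₂.den : ℤ) - x₂.num * (x₁.den : ℤ) : ℤ) : ℚ) = 0 := by
      rw [h0]; rfl
    push_cast at h0'
    rw [← ex1, ← ex2] at h0'
    have h3 : (x₁ - x₂) * ((x₁.den : ℚ) * x₂.den) = 0 := by linear_combination h0'
    rcases mul_eq_zero.mp h3 with h4 | h4
    · exact hx (sub_eq_zero.mp h4)
    · exact mul_ne_zero hZ1 hZ2 h4
  have z1 : (x₁.num * (x₂.den : ℤ) - x₂.num * (x₁.den : ℤ)) ^ 2 *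
        (u.num * (u'.den : ℤ) + u'.num * (u.den : ℤ))
      = (2 * ((x₁.num * x₂.num + a * (x₁.den : ℤ) * (x₂.den : ℤ))
        * (x₁.num * (x₂.den : ℤ) + x₂.num * (x₁.den : ℤ))
        + 2 * b * (x₁.den : ℤ) ^ 2 * (x₂.den : ℤ) ^ 2)) * ((u.den : ℤ) * (u'.den : ℤ)) := by
    have hz' : (((x₁.num * (x₂.den : ℤ) - x₂.num * (x₁.den : ℤ)) ^ 2 *
        (u.num * (u'.den : ℤ) + u'.num * (u.den : ℤ)) : ℤ) : ℚ)
      = (((2 * ((x₁.num * x₂.num + a * (x₁.den : ℤ) * (x₂.den : ℤ))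
        * (x₁.num * (x₂.den : ℤ) + x₂.num * (x₁.den : ℤ))
        + 2 * b * (x₁.den : ℤ) ^ 2 * (x₂.den : ℤ) ^ 2)) * ((u.den : ℤ) * (u'.den : ℤ)) : ℤ) : ℚ) := by
      push_cast
      rw [← ex1, ← ex2, ← eu, ← eu']
      linear_combination ((x₁.den : ℚ) ^ 2 * (x₂.den : ℚ) ^ 2 * (u.den : ℚ) * (u'.den : ℚ)) * (q1 + q2')
    exact_mod_cast hz'
  have z2 : (x₁.num * (x₂.den : ℤ) - x₂.num * (x₁.den : ℤ)) ^ 2 * (u.num * u'.num)
      = ((x₁.num * x₂.num - a * (x₁.den : ℤ) * (x₂.den : ℤ)) ^ 2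
        - 4 * b * (x₁.den : ℤ) * (x₂.den : ℤ)
          * (x₁.num * (x₂.den : ℤ) + x₂.num * (x₁.den : ℤ))) * ((u.den : ℤ) * (u'.den : ℤ)) := by
    have hz' : (((x₁.num * (x₂.den : ℤ) - x₂.num * (x₁.den : ℤ)) ^ 2 * (u.num * u'.num) : ℤ) : ℚ)
      = ((((x₁.num * x₂.num - a * (x₁.den : ℤ) * (x₂.den : ℤ)) ^ 2
        - 4 * b * (x₁.den : ℤ) * (x₂.den : ℤ)
          * (x₁.num * (x₂.den : ℤ) + x₂.num * (x₁.den : ℤ))) * ((u.den : ℤ) * (u'.den : ℤ)) : ℤ) : ℚ) := by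
      push_cast
      rw [← ex1, ← ex2, ← eu, ← eu']
      linear_combination ((x₁.den : ℚ) ^ 2 * (x₂.den : ℚ) ^ 2 * (u.den : ℚ) * (u'.den : ℚ)) * q3
    exact_mod_cast hz'
  have hcop : IsCoprime u.num (u.den : ℤ) := Int.isCoprime_iff_gcd_eq_one.mpr u.reduced
  have hcop' : IsCoprime u'.num (u'.den : ℤ) := Int.isCoprime_iff_gcd_eq_one.mpr u'.reduced
  obtain ⟨i1, i2, i3⟩ := int_pair hA0 (by exact_mod_cast u.den_nz) (by exact_mod_cast u'.den_nz)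
    hcop hcop' z1 z2
  have hc := LQ.NaiveS.chord_real hE ha hb
    (le_max_left |(x₁.num : ℝ)| |(x₁.den : ℝ)|) (le_max_right |(x₁.num : ℝ)| |(x₁.den : ℝ)|)
    (le_max_left |(x₂.num : ℝ)| |(x₂.den : ℝ)|) (le_max_right |(x₂.num : ℝ)| |(x₂.den : ℝ)|)
  have r1 : |(u.den : ℝ) * (u'.den : ℝ)| ≤ |((x₁.num : ℝ) * x₂.den - x₂.num * x₁.den) ^ 2| := by
    exact_mod_cast i1
  have r2 : |(u.num : ℝ) * (u'.den : ℝ) + (u'.num : ℝ) * (u.den : ℝ)| ≤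
      |2 * (((x₁.num : ℝ) * x₂.num + a * x₁.den * x₂.den)
        * (x₁.num * x₂.den + x₂.num * x₁.den) + 2 * b * (x₁.den : ℝ) ^ 2 * (x₂.den : ℝ) ^ 2)| := by
    exact_mod_cast i2
  have r3 : |(u.num : ℝ) * (u'.num : ℝ)| ≤ |((x₁.num : ℝ) * x₂.num - a * x₁.den * x₂.den) ^ 2
        - 4 * b * x₁.den * x₂.den * (x₁.num * x₂.den + x₂.num * x₁.den)| := by
    exact_mod_cast i3
  rw [abs_mul 2, abs_of_pos (by norm_num : (0 : ℝ) < 2)] at r2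
  have n1 := abs_nonneg (((x₁.num : ℝ) * x₂.den - x₂.num * x₁.den) ^ 2)
  have n2 := abs_nonneg (((x₁.num : ℝ) * x₂.num + a * x₁.den * x₂.den)
        * (x₁.num * x₂.den + x₂.num * x₁.den) + 2 * b * (x₁.den : ℝ) ^ 2 * (x₂.den : ℝ) ^ 2)
  have n3 := abs_nonneg (((x₁.num : ℝ) * x₂.num - a * x₁.den * x₂.den) ^ 2
        - 4 * b * x₁.den * x₂.den * (x₁.num * x₂.den + x₂.num * x₁.den))
  have hfin := max_mul_le (u := (u.num : ℝ)) (v := (u.den : ℝ)) (u' := (u'.num : ℝ))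
    (v' := (u'.den : ℝ)) (le_trans r1 (by linarith)) (le_trans r2 (by linarith))
    (le_trans r3 (by linarith)) (m := |((x₁.num : ℝ) * x₂.den - x₂.num * x₁.den) ^ 2| +
      (2 * |((x₁.num : ℝ) * x₂.num + a * x₁.den * x₂.den)
        * (x₁.num * x₂.den + x₂.num * x₁.den) + 2 * b * (x₁.den : ℝ) ^ 2 * (x₂.den : ℝ) ^ 2|
      + |((x₁.num : ℝ) * x₂.num - a * x₁.den * x₂.den) ^ 2
        - 4 * b * x₁.den * x₂.den * (x₁.num * x₂.den + x₂.num * x₁.den)|))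
  linarith

end Pool.Agent.H24.LR.ParS
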