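import Pool.Agent.H24.LQ.SStep
import Pool.Agent.H24.LQ.Total

/-!
# LR Pt

The points with integral coordinates (copied from LQ/Final.lean).
-/

namespace Pool.Agent.H24.LR

open Pool.Agent.H24.LP Pool.Agent.H24.LQ Finset

lemma nonsing {a b : ℤ} (hD : D a b ≠ 0) {x y : ℤ} (h : y ^ 2 = x ^ 3 + a * x + b) :
    (curve a b).Nonsingular (x : ℚ) (y : ℚ) := by
  have hΔ : (curve a b).Δ ≠ 0 := by
    have e : (curve a b).Δ = -16 * (4 * (a : ℚ) ^ 3 + 27 * (b : ℚ) ^ 2) := by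
      simp only [curve, WeierstrassCurve.Δ, WeierstrassCurve.b₂, WeierstrassCurve.b₄,
        WeierstrassCurve.b₆, WeierstrassCurve.b₈]
      ring
    rw [e]
    exact mul_ne_zero (by norm_num) (D_cast_ne hD)
  rw [← WeierstrassCurve.Affine.equation_iff_nonsingular_of_Δ_ne_zero hΔ,
    WeierstrassCurve.Affine.equation_iff]
  have h' : ((y ^ 2 : ℤ) : ℚ) = ((x ^ 3 + a * x + b : ℤ) : ℚ) := by rw [h]
  push_cast at h'
  simp only [curve]
  linear_combination h'

/-- The point of an integral point. -/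
noncomputable def toPt {a b : ℤ} (hD : D a b ≠ 0) (z : ℤ × ℤ) : (curve a b).Point := by
  classical
  exact if h : z.2 ^ 2 = z.1 ^ 3 + a * z.1 + b then
    WeierstrassCurve.Affine.Point.some (z.1 : ℚ) (z.2 : ℚ) (nonsing hD h) else 0

lemma toPt_eq {a b : ℤ} (hD : D a b ≠ 0) {z : ℤ × ℤ} (h : z.2 ^ 2 = z.1 ^ 3 + a * z.1 + b) :
    toPt hD z = WeierstrassCurve.Affine.Point.some (z.1 : ℚ) (z.2 : ℚ) (nonsing hD h) := by
  unfold toPt
  rw [dif_pos h]

lemma nh_toPt {a b : ℤ} (hD : D a b ≠ 0) {z : ℤ × ℤ} (h : z ∈ integralPoints a b) :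
    nh (toPt hD z) = Real.log (max |(z.1 : ℝ)| 1) := by
  rw [toPt_eq hD h]
  have e1 : repX (WeierstrassCurve.Affine.Point.some (z.1 : ℚ) (z.2 : ℚ) (nonsing hD h)) = z.1 := by
    simp [repX]
  have e2 : repZ (WeierstrassCurve.Affine.Point.some (z.1 : ℚ) (z.2 : ℚ) (nonsing hD h)) = 1 := by
    simp [repZ]
  unfold nh
  rw [e1, e2]
  simp

lemma toPt_injOn {a b : ℤ} (hD : D a b ≠ 0) : Set.InjOn (toPt hD) (integralPoints a b) := by
  intro z hz z' hz' h
  rw [toPt_eq hD hz, toPt_eq hD hz'] at h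
  have h1 := WeierstrassCurve.Affine.Point.some.inj h
  refine Prod.ext ?_ ?_
  · exact_mod_cast h1.1
  · exact_mod_cast h1.2

end Pool.Agent.H24.LR
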