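import Pool.Agent.H24.LR.Quad
import Pool.Agent.H24.LR.ParS
import Pool.Agent.H24.LR.Pt
import Pool.Agent.H24.LP.NT2

/-!
# LR Par

`nh_par_le`: if `P = 0`, `Q = 0`, `P = Q` or `P = -Q` use `nh_neg`, `nh_two` (LQ/Naive). Otherwise `x₁ ≠ x₂`; as in the proof of
`nh_add` (LQ/Naive): `A = (X₁Z₂-X₂Z₁)² ≠ 0`, `B = (X₁X₂+aZ₁Z₂)(X₁Z₂+X₂Z₁)+2bZ₁²Z₂²`, `C = (X₁X₂-aZ₁Z₂)²-4bZ₁Z₂(X₁Z₂+X₂Z₁)`, and
`u = U/V = x(P+Q)`, `u' = U'/V' = x(P-Q)` satisfy `u + u' = 2B/A`, `u u' = C/A`. So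
`(V T - U)(V' T - U') c = A T² - 2B T + C` with `c` an INTEGER (Gauss: the polynomial `(VT-U)(V'T-U')` is primitive; or by hand), hence
`max(|VV'|, |UV'+U'V|, |UU'|) ≤ max(|A|, 2|B|, |C|) ≤ const e^{4L} max(|X₁|,|Z₁|)² max(|X₂|,|Z₂|)²`, and
`max(|U|,|V|) max(|U'|,|V'|) ≤ 2 max(|VV'|, |UV'+U'V|, |UU'|)` (real numbers).
`nh_par_ge`: apply `nh_par_le` to `P+Q`, `P-Q` (sum `2P`, difference `2Q`) and `nh_two`.
-/

namespace Pool.Agent.H24.LR

open Pool.Agent.H24.LP Pool.Agent.H24.LQ Finset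

private noncomputable def Mx {a b : ℤ} (P : (curve a b).Point) : ℝ :=
  max |(repX P : ℝ)| |(repZ P : ℝ)|

private lemma nh_eq {a b : ℤ} (P : (curve a b).Point) : nh P = Real.log (Mx P) := rfl

private lemma one_le_Mx {a b : ℤ} (P : (curve a b).Point) : 1 ≤ Mx P := by
  rcases P with _ | ⟨x, y, h⟩
  · refine le_trans ?_ (le_max_left _ _)
    simp [repX]
  · refine le_trans ?_ (le_max_right _ _)
    have h1 : (1 : ℝ) ≤ (x.den : ℝ) := by exact_mod_cast x.pos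
    simp only [repZ, Int.cast_natCast, Nat.abs_cast]
    exact h1

private noncomputable def EE (a b : ℤ) : ℝ := Real.exp (L a b)

private lemma EE_a (a b : ℤ) : |(a : ℝ)| ≤ EE a b ^ 2 := by
  refine le_trans (abs_a_le a b) (le_of_eq ?_)
  rw [EE, ← Real.exp_nat_mul]; norm_num

private lemma EE_b (a b : ℤ) : |(b : ℝ)| ≤ EE a b ^ 3 := by
  refine le_trans (abs_b_le a b) (le_of_eq ?_)
  rw [EE, ← Real.exp_nat_mul]; norm_num

private lemma two_le_EE (a b : ℤ) : 2 ≤ EE a b := by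
  have h := Real.exp_le_exp.mpr (log_two_le_L a b)
  rwa [Real.exp_log (by norm_num)] at h

private lemma log_EE (a b : ℤ) : Real.log (EE a b) = L a b := Real.log_exp _

private lemma eq_xy {a b : ℤ} {x y : ℚ} (h : (curve a b).Nonsingular x y) :
    y ^ 2 = x ^ 3 + a * x + b := by
  have h1 := (WeierstrassCurve.Affine.equation_iff _ _).mp h.1
  simp only [curve] at h1
  linear_combination h1

private lemma Mx_some {a b : ℤ} {x y : ℚ} (h : (curve a b).Nonsingular x y) :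
    Mx (.some x y h : (curve a b).Point) = max |(x.num : ℝ)| |(x.den : ℝ)| := by
  simp only [Mx, repX, repZ, Int.cast_natCast]


open Classical in
private lemma Mx_add {a b : ℤ} {x₁ y₁ x₂ y₂ : ℚ} (h₁ : (curve a b).Nonsingular x₁ y₁)
    (h₂ : (curve a b).Nonsingular x₂ y₂) (hx : x₁ ≠ x₂) :
    ∃ u : ℚ, u = ((y₁ - y₂) / (x₁ - x₂)) ^ 2 - x₁ - x₂ ∧
      Mx ((.some x₁ y₁ h₁ : (curve a b).Point) + .some x₂ y₂ h₂) =
        max |(u.num : ℝ)| |(u.den : ℝ)| := by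
  have e := WeierstrassCurve.Affine.Point.add_of_X_ne (h₁ := h₁) (h₂ := h₂) hx
  have hs := WeierstrassCurve.Affine.slope_of_X_ne (W := curve a b) (y₁ := y₁) (y₂ := y₂) hx
  refine ⟨(curve a b).addX x₁ x₂ ((curve a b).slope x₁ x₂ y₁ y₂), ?_,
    (congrArg Mx e).trans (Mx_some _)⟩
  rw [hs]
  simp only [WeierstrassCurve.Affine.addX, curve]
  ring

open Classical in
private lemma chord_pair {a b : ℤ} {x₁ y₁ x₂ y₂ : ℚ} (h₁ : (curve a b).Nonsingular x₁ y₁)
    (h₂ : (curve a b).Nonsingular x₂ y₂) (hx : x₁ ≠ x₂) :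
    Mx ((.some x₁ y₁ h₁ : (curve a b).Point) + .some x₂ y₂ h₂) *
      Mx ((.some x₁ y₁ h₁ : (curve a b).Point) - .some x₂ y₂ h₂) ≤
      56 * EE a b ^ 4 * (Mx (.some x₁ y₁ h₁ : (curve a b).Point) ^ 2 *
        Mx (.some x₂ y₂ h₂ : (curve a b).Point) ^ 2) := by
  obtain ⟨u, hu, eu⟩ := Mx_add h₁ h₂ hx
  obtain ⟨u', hu', eu'⟩ :=
    Mx_add h₁ ((WeierstrassCurve.Affine.nonsingular_neg ..).mpr h₂) hx
  have hn : (curve a b).negY x₂ y₂ = -y₂ := by
    simp only [WeierstrassCurve.Affine.negY, curve]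
    ring
  rw [hn] at hu'
  have es : (WeierstrassCurve.Affine.Point.some x₁ y₁ h₁ : (curve a b).Point) -
      .some x₂ y₂ h₂ = .some x₁ y₁ h₁ + .some x₂ ((curve a b).negY x₂ y₂)
        ((WeierstrassCurve.Affine.nonsingular_neg ..).mpr h₂) := sub_eq_add_neg _ _
  have e3 := (congrArg Mx es).trans eu'
  refine (congrArg₂ (· * ·) eu e3).le.trans ?_
  rw [Mx_some h₁, Mx_some h₂]
  exact ParS.chord_num (by linarith [two_le_EE a b]) (EE_a a b) (EE_b a b) hx (eq_xy h₁)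
    (eq_xy h₂) hu hu'

private lemma nh_zero {a b : ℤ} : nh (0 : (curve a b).Point) = 0 := by
  change Real.log (max |((1 : ℤ) : ℝ)| |((0 : ℤ) : ℝ)|) = 0
  simp

private lemma log_key {E L m₁ m₂ m₃ m₄ : ℝ} (hL : Real.log 2 ≤ L) (hE : 2 ≤ E)
    (hl : Real.log E = L) (h1 : 1 ≤ m₁) (h2 : 1 ≤ m₂) (h3 : 1 ≤ m₃) (h4 : 1 ≤ m₄)
    (hc : m₃ * m₄ ≤ 56 * E ^ 4 * (m₁ ^ 2 * m₂ ^ 2)) :
    Real.log m₃ + Real.log m₄ ≤ 2 * Real.log m₁ + 2 * Real.log m₂ + 100 * L := by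
  have hl2 : 0 < Real.log 2 := Real.log_pos (by norm_num)
  have hE0 : 0 < E := by linarith
  have e1 : 0 < m₁ := by linarith
  have e2 : 0 < m₂ := by linarith
  have e3 : 0 < m₃ := by linarith
  have e4 : 0 < m₄ := by linarith
  have h := Real.log_le_log (mul_pos e3 e4) hc
  rw [Real.log_mul e3.ne' e4.ne', Real.log_mul (by positivity) (by positivity),
    Real.log_mul (by norm_num) (by positivity), Real.log_mul (by positivity) (by positivity),
    Real.log_pow, Real.log_pow, Real.log_pow, hl] at h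
  have h56 : Real.log 56 ≤ 6 * Real.log 2 := by
    have : Real.log 56 ≤ Real.log (2 ^ 6) := Real.log_le_log (by norm_num) (by norm_num)
    rwa [Real.log_pow] at this
  push_cast at h
  linarith

open Classical in
theorem nh_par_le {a b : ℤ} (hD : D a b ≠ 0) (P Q : (curve a b).Point) :
    nh (P + Q) + nh (P - Q) ≤ 2 * nh P + 2 * nh Q + 100 * L a b := by
  have hL := log_two_le_L a b
  have hl2 : 0 < Real.log 2 := Real.log_pos (by norm_num)
  rcases eq_or_ne P 0 with rfl | hP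
  · rw [zero_add, zero_sub, nh_neg, nh_zero]
    linarith
  rcases eq_or_ne Q 0 with rfl | hQ
  · rw [add_zero, sub_zero, nh_zero]
    linarith
  rcases eq_or_ne Q P with rfl | hPQ
  · rw [sub_self, nh_zero]
    have h := (abs_le.mp (nh_two hD Q)).2
    linarith
  rcases eq_or_ne Q (-P) with rfl | hPQ'
  · rw [add_neg_cancel, sub_neg_eq_add, nh_zero, nh_neg]
    have h := (abs_le.mp (nh_two hD P)).2
    linarith
  rcases P with _ | ⟨x₁, y₁, h₁⟩
  · exact absurd rfl hP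
  rcases Q with _ | ⟨x₂, y₂, h₂⟩
  · exact absurd rfl hQ
  have hx : x₁ ≠ x₂ := by
    rintro rfl
    rcases WeierstrassCurve.Affine.Y_eq_of_X_eq h₂.1 h₁.1 rfl with h | h
    · exact hPQ (by subst h; rfl)
    · apply hPQ'
      rw [WeierstrassCurve.Affine.Point.neg_some]
      subst h
      rfl
  exact log_key hL (two_le_EE a b) (log_EE a b) (one_le_Mx _) (one_le_Mx _) (one_le_Mx _)
    (one_le_Mx _) (chord_pair h₁ h₂ hx)

open Classical in
theorem nh_par_ge {a b : ℤ} (hD : D a b ≠ 0) (P Q : (curve a b).Point) :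
    2 * nh P + 2 * nh Q - 120 * L a b ≤ nh (P + Q) + nh (P - Q) := by
  have hL := log_two_le_L a b
  have hl2 : 0 < Real.log 2 := Real.log_pos (by norm_num)
  have h := nh_par_le hD (P + Q) (P - Q)
  have e1 : P + Q + (P - Q) = P + P := by abel
  have e2 : P + Q - (P - Q) = Q + Q := by abel
  rw [e1, e2] at h
  have h1 := (abs_le.mp (nh_two hD P)).1
  have h2 := (abs_le.mp (nh_two hD Q)).1
  linarith

end Pool.Agent.H24.LR
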