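import Pool.Agent.H24.LR.Pack
import Pool.Agent.H24.LR.Can
import Pool.Agent.H24.LR.Gap

/-!
# LR Shell

`exists_height` (LQ/SStep) gives `g` for some constant (only `g(2P) = 4g(P)` and `|g - nh| ≤ 20L` are used), `can_quad`, `can_finite`, `packing`.
`shell`: `g P ≤ 2R + 20L ≤ 4R`; for `z ≠ z'`: `g(P - P') ≥ nh(P - P') - 20 L ≥ R - 30 L ≥ R/2` (`gap`; `R ≥ 100 L`).
`shells`: cut `[R, ΛR]`, `Λ ≤ 2^n`, into `n` shells `[2^i R, 2^{i+1} R]`.
-/

namespace Pool.Agent.H24.LR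

open Pool.Agent.H24.LP Pool.Agent.H24.LQ Finset

theorem shell {a b : ℤ} (hD : D a b ≠ 0) (r : ℕ) (hr : Module.rank ℤ (curve a b).Point ≤ r)
    {R : ℝ} (hR : 100 * L a b ≤ R) (S : Finset (ℤ × ℤ)) (hS : ∀ z ∈ S, z ∈ integralPoints a b ∧
      R ≤ Real.log |(z.1 : ℝ)| ∧ Real.log |(z.1 : ℝ)| ≤ 2 * R) : S.card ≤ 24 ^ r := by
  classical
  obtain ⟨C, -, hht⟩ := exists_height
  obtain ⟨g, h1, h2, -⟩ := hht a b hD
  have hL : 0 < L a b := lt_of_lt_of_le (Real.log_pos (by norm_num)) (log_two_le_L a b)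
  have hR0 : 0 < R := by linarith
  have hinj : Set.InjOn (toPt hD) (S : Set (ℤ × ℤ)) :=
    (toPt_injOn hD).mono fun z hz => (hS z (Finset.mem_coe.mp hz)).1
  rw [← Finset.card_image_of_injOn hinj]
  refine packing (can_quad hD h1 h2) (can_finite h2) r hr hR0 _ ?_ ?_
  · intro P hP
    obtain ⟨z, hz, rfl⟩ := Finset.mem_image.mp hP
    obtain ⟨hz1, hz2, hz3⟩ := hS z hz
    have h3 : |(z.1 : ℝ)| ≥ 1 := by
      by_contra hlt
      push Not at hlt
      have := Real.log_nonpos (abs_nonneg _) hlt.le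
      linarith
    have h4 := (abs_le.mp (h2 (toPt hD z))).2
    rw [nh_toPt hD hz1, max_eq_left h3] at h4
    linarith
  · intro P hP Q hQ hPQ
    obtain ⟨z, hz, rfl⟩ := Finset.mem_image.mp hP
    obtain ⟨w, hw, rfl⟩ := Finset.mem_image.mp hQ
    obtain ⟨hz1, hz2, -⟩ := hS z hz
    obtain ⟨hw1, hw2, -⟩ := hS w hw
    have hne : z ≠ w := fun h => hPQ (by rw [h])
    have h3 := gap hD hz1 hw1 hne (by linarith) (by linarith)
    have h4 := (abs_le.mp (h2 (toPt hD z - toPt hD w))).1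
    have h5 : R ≤ min (Real.log |(z.1 : ℝ)|) (Real.log |(w.1 : ℝ)|) := le_min hz2 hw2
    linarith

theorem shells {a b : ℤ} (hD : D a b ≠ 0) (r : ℕ) (hr : Module.rank ℤ (curve a b).Point ≤ r)
    {R : ℝ} (hR : 100 * L a b ≤ R) (n : ℕ) (S : Finset (ℤ × ℤ))
    (hS : ∀ z ∈ S, z ∈ integralPoints a b ∧ R ≤ Real.log |(z.1 : ℝ)| ∧
      Real.log |(z.1 : ℝ)| ≤ 2 ^ n * R) : S.card ≤ (n + 1) * 24 ^ r := by
  classical
  have hL : 0 < L a b := lt_of_lt_of_le (Real.log_pos (by norm_num)) (log_two_le_L a b)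
  have hR0 : 0 < R := by linarith
  induction n generalizing S with
  | zero =>
    have := shell hD r hr hR S fun z hz =>
      ⟨(hS z hz).1, (hS z hz).2.1, by
        have h3 := (hS z hz).2.2
        rw [pow_zero, one_mul] at h3
        linarith⟩
    linarith
  | succ n ih =>
    rw [← Finset.card_filter_add_card_filter_not
      (fun z : ℤ × ℤ => Real.log |(z.1 : ℝ)| ≤ 2 ^ n * R)]
    have hA : (S.filter fun z : ℤ × ℤ => Real.log |(z.1 : ℝ)| ≤ 2 ^ n * R).card ≤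
        (n + 1) * 24 ^ r := by
      refine ih _ fun z hz => ?_
      obtain ⟨hz1, hz2⟩ := Finset.mem_filter.mp hz
      exact ⟨(hS z hz1).1, (hS z hz1).2.1, hz2⟩
    have hB : (S.filter fun z : ℤ × ℤ => ¬ Real.log |(z.1 : ℝ)| ≤ 2 ^ n * R).card ≤ 24 ^ r := by
      have hone : (1 : ℝ) ≤ 2 ^ n := one_le_pow₀ (by norm_num)
      have hR' : 100 * L a b ≤ 2 ^ n * R := by nlinarith
      refine shell hD r hr hR' _ fun z hz => ?_
      obtain ⟨hz1, hz2⟩ := Finset.mem_filter.mp hz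
      push Not at hz2
      refine ⟨(hS z hz1).1, hz2.le, ?_⟩
      have h3 := (hS z hz1).2.2
      rw [pow_succ] at h3
      linarith
    calc _ ≤ (n + 1) * 24 ^ r + 24 ^ r := Nat.add_le_add hA hB
      _ = (n + 1 + 1) * 24 ^ r := by ring

end Pool.Agent.H24.LR
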