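import Pool.Agent.H24.LR.Near
import Pool.Agent.H24.LQ.Defs

/-!
# LR Step

One duplication step over `ℂ`. `φ(x) = Phi a b x 1 = x⁴-2ax²-8bx+a²`, `ψ(x) = Psi a b x 1 = 4c(x)`, `c(x) = x³+ax+b`,
`ω(x) = x⁶+5ax⁴+20bx³-5a²x²-4abx-8b²-a³`. Identities (ring): `φ'ψ - φψ' = 4ω`, `ω² = φ³+aφψ²+bψ³`,
`4D = f₁φ - g₁ψ`, `f₁ = 12x²+16a`, `g₁ = 3x³-5ax-27b`, `D = 4a³+27b²`.
`q(X) = φ(X) - tψ(X)` is a monic quartic. (i) `|β| ≤ e^{20A}`: otherwise `|φ(β)| ≥ |β|⁴/2`, `|ψ(β)| ≤ 8|β|³`, so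
`|φ(β)/ψ(β)| ≥ |β|/16 > |t| + 1`. (ii) `|q(β)| = |ψ(β)| |φ(β)/ψ(β) - t| ≤ e^{const A} δ`. (iii) nearest root `r` (`near_root`):
`|β - r||q'(r)| ≤ 8|q(β)|`, `|r| ≤ e^{const A}`. (iv) at the root `φ(r) = tψ(r)`; `ψ(r) ≠ 0` and `|ψ(r)| ≥ e^{-const A}` from
`4D = (f₁(r) t - g₁(r)) ψ(r)`, `|D| ≥ 1`. (v) `q'(r) ψ(r) = φ'ψ - φψ' = 4ω(r)`, `ω(r)² = ψ(r)³ c(t)`, so
`|q'(r)|² = 16 |ψ(r)| |c(t)| ≥ e^{-const A}`. (vi) `c(r) = ψ(r)/4`.
-/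

namespace Pool.Agent.H24.LR

open Pool.Agent.H24.LP Pool.Agent.H24.LQ Finset Polynomial

private lemma phi_lower {a b x : ℂ} {E : ℝ} (hE : 2 ≤ E) (ha : ‖a‖ ≤ E) (hb : ‖b‖ ≤ E)
    (hx : 8 * E ≤ ‖x‖) : ‖x‖ ^ 4 / 2 ≤ ‖Phi a b x 1‖ := by
  have h1 : Phi a b x 1 = x ^ 4 - (2 * a * x ^ 2 + 8 * b * x - a ^ 2) := by
    unfold Phi; ring
  have h2 : ‖x ^ 4‖ - ‖2 * a * x ^ 2 + 8 * b * x - a ^ 2‖ ≤ ‖Phi a b x 1‖ := by
    rw [h1]; exact norm_sub_norm_le _ _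
  have h3 : ‖2 * a * x ^ 2 + 8 * b * x - a ^ 2‖ ≤ 2 * E * ‖x‖ ^ 2 + 8 * E * ‖x‖ + E ^ 2 := by
    have e1 : ‖2 * a * x ^ 2‖ ≤ 2 * E * ‖x‖ ^ 2 := by
      rw [norm_mul, norm_mul, norm_pow, Complex.norm_ofNat]
      gcongr
    have e2 : ‖8 * b * x‖ ≤ 8 * E * ‖x‖ := by
      rw [norm_mul, norm_mul, Complex.norm_ofNat]
      gcongr
    have e3 : ‖a ^ 2‖ ≤ E ^ 2 := by
      rw [norm_pow]
      gcongr
    calc ‖2 * a * x ^ 2 + 8 * b * x - a ^ 2‖ ≤ ‖2 * a * x ^ 2 + 8 * b * x‖ + ‖a ^ 2‖ :=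
          norm_sub_le _ _
      _ ≤ ‖2 * a * x ^ 2‖ + ‖8 * b * x‖ + ‖a ^ 2‖ := by
          gcongr
          exact norm_add_le _ _
      _ ≤ _ := by linarith
  rw [norm_pow] at h2
  set X := ‖x‖ with hX
  have hX16 : 16 ≤ X := by linarith
  have hEX : E ≤ X / 8 := by linarith
  have hX2 : 0 ≤ X ^ 2 := by positivity
  have i1 : 2 * E * X ^ 2 ≤ X ^ 4 / 64 := by
    have : 2 * E * X ^ 2 ≤ 2 * (X / 8) * X ^ 2 := by gcongr
    have h5 : X ^ 3 * 16 ≤ X ^ 3 * X := by gcongr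
    nlinarith
  have i2 : 8 * E * X ≤ X ^ 4 / 256 := by
    have h4 : 8 * E * X ≤ 8 * (X / 8) * X := by gcongr
    have h5 : X ^ 2 * 16 ^ 2 ≤ X ^ 2 * X ^ 2 := by gcongr
    nlinarith
  have i3 : E ^ 2 ≤ X ^ 4 / 256 := by
    have h4 : E ^ 2 ≤ (X / 8) ^ 2 := by
      have : 0 ≤ E := by linarith
      gcongr
    have h5 : X ^ 2 * 16 ^ 2 ≤ X ^ 2 * X ^ 2 := by gcongr
    nlinarith
  have i4 : 0 ≤ X ^ 4 := by positivity
  linarith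

private lemma psi_le {a b x : ℂ} {E R : ℝ} (ha : ‖a‖ ≤ E) (hb : ‖b‖ ≤ E)
    (hx : ‖x‖ ≤ R) : ‖Psi a b x 1‖ ≤ 4 * (R ^ 3 + E * R + E) := by
  have hR : 0 ≤ R := (norm_nonneg _).trans hx
  have hE : 0 ≤ E := (norm_nonneg _).trans ha
  have h1 : Psi a b x 1 = 4 * (x ^ 3 + a * x + b) := by
    unfold Psi; ring
  rw [h1, norm_mul, Complex.norm_ofNat]
  have e1 : ‖x ^ 3‖ ≤ R ^ 3 := by
    rw [norm_pow]; gcongr
  have e2 : ‖a * x‖ ≤ E * R := by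
    rw [norm_mul]; gcongr
  have e3 : ‖x ^ 3 + a * x + b‖ ≤ ‖x ^ 3‖ + ‖a * x‖ + ‖b‖ := norm_add₃_le
  linarith

private lemma psi_upper {a b x : ℂ} {E : ℝ} (hE : 2 ≤ E) (ha : ‖a‖ ≤ E) (hb : ‖b‖ ≤ E)
    (hx : 8 * E ≤ ‖x‖) : ‖Psi a b x 1‖ ≤ 8 * ‖x‖ ^ 3 := by
  have h := psi_le ha hb (le_refl ‖x‖)
  set X := ‖x‖ with hX
  have hX16 : 16 ≤ X := by linarith
  have i1 : E * X ≤ X ^ 3 / 128 := by
    have h4 : E * X ≤ (X / 8) * X := by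
      have : E ≤ X / 8 := by linarith
      gcongr
    have h5 : X ^ 2 * 16 ≤ X ^ 2 * X := by gcongr
    nlinarith
  have i2 : E ≤ X ^ 3 / 128 := by
    have h4 : E * 1 ≤ E * X := by
      have : (1 : ℝ) ≤ X := by linarith
      gcongr
    linarith
  have i3 : 0 ≤ X ^ 3 := by positivity
  linarith

private lemma key {a b t : ℂ} {E : ℝ} (hE : 2 ≤ E) (ha : ‖a‖ ≤ E) (hb : ‖b‖ ≤ E)
    (ht : ‖t‖ ≤ E) (hD : 1 ≤ ‖4 * a ^ 3 + 27 * b ^ 2‖) (hc : 1 / E ≤ ‖t ^ 3 + a * t + b‖)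
    {β : ℂ} {δ : ℝ} (hδ : δ ≤ 1) (hψ : Psi a b β 1 ≠ 0)
    (h : ‖Phi a b β 1 / Psi a b β 1 - t‖ ≤ δ) :
    ∃ r : ℂ, Phi a b r 1 = t * Psi a b r 1 ∧ ‖β - r‖ ≤ 2 ^ 25 * E ^ 5 * δ ∧
      ‖r‖ ≤ 16 * E ∧ 1 / (2 ^ 14 * E ^ 3) ≤ ‖r ^ 3 + a * r + b‖ := by
  have hE0 : 0 < E := by linarith
  have hδ0 : 0 ≤ δ := (norm_nonneg _).trans h
  -- (i)
  have hβ : ‖β‖ ≤ 32 * E := by
    by_contra hcon
    push Not at hcon
    have h8 : 8 * E ≤ ‖β‖ := by linarith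
    have l1 := phi_lower hE ha hb h8
    have l2 := psi_upper hE ha hb h8
    have l3 : ‖Phi a b β 1 / Psi a b β 1‖ ≤ 2 * E := by
      have := norm_sub_norm_le (Phi a b β 1 / Psi a b β 1) t
      linarith
    have hp : 0 < ‖Psi a b β 1‖ := norm_pos_iff.2 hψ
    rw [norm_div, div_le_iff₀ hp] at l3
    have l4 : ‖β‖ ^ 4 / 2 ≤ 2 * E * (8 * ‖β‖ ^ 3) := by
      refine l1.trans (l3.trans ?_)
      gcongr
    have hβ0 : 0 < ‖β‖ := by linarith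
    have hβ3 : 0 < ‖β‖ ^ 3 := by positivity
    have l5 : ‖β‖ ^ 3 * (32 * E) < ‖β‖ ^ 3 * ‖β‖ := by gcongr
    nlinarith
  -- the quartic
  set q : ℂ[X] := X ^ 4 + (-(C (4 * t) * X ^ 3) - C (2 * a) * X ^ 2 - C (8 * b + 4 * t * a) * X
    + C (a ^ 2 - 4 * t * b)) with hq
  have hqe : ∀ x : ℂ, q.eval x = Phi a b x 1 - t * Psi a b x 1 := by
    intro x
    simp only [hq, Phi, Psi, eval_add, eval_sub, eval_neg, eval_mul, eval_pow, eval_X, eval_C]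
    ring
  have hqd : ∀ x : ℂ, q.derivative.eval x * Psi a b x 1 =
      (4 * x ^ 3 - 4 * a * x - 8 * b) * Psi a b x 1 - t * Psi a b x 1 * (4 * (3 * x ^ 2 + a)) := by
    intro x
    simp only [hq, Psi, derivative_add, derivative_sub, derivative_neg, derivative_mul,
      derivative_X_pow, derivative_C, derivative_X, eval_add, eval_sub, eval_neg, eval_mul,
      eval_pow, eval_X, eval_C, eval_zero, eval_one, map_ofNat, Nat.cast_ofNat, eval_ofNat]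
    ring
  have hdeg : (-(C (4 * t) * X ^ 3) - C (2 * a) * X ^ 2 - C (8 * b + 4 * t * a) * X
    + C (a ^ 2 - 4 * t * b) : ℂ[X]).degree < (4 : ℕ) := by
    have : (-(C (4 * t) * X ^ 3) - C (2 * a) * X ^ 2 - C (8 * b + 4 * t * a) * X
      + C (a ^ 2 - 4 * t * b) : ℂ[X]).degree ≤ (3 : ℕ) := by
      compute_degree
      exact le_rfl
    exact this.trans_lt (by exact_mod_cast (by norm_num : (3 : ℕ) < 4))
  have hmon : q.Monic := monic_X_pow_add hdeg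
  have hnd : q.natDegree = 4 := by
    have h4 : (X ^ 4 : ℂ[X]).degree = (4 : ℕ) := degree_X_pow 4
    exact natDegree_eq_of_degree_eq_some ((degree_add_eq_left_of_degree_lt (by rw [h4]; exact hdeg)).trans h4)
  obtain ⟨r, hr0, hr⟩ := near_root q hmon (by rw [hnd]; norm_num) β
  rw [hnd] at hr
  have hr1 : Phi a b r 1 = t * Psi a b r 1 := by
    have := hqe r
    rw [hr0] at this
    exact (sub_eq_zero.1 this.symm)
  -- bound for r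
  have hrb : ‖r‖ ≤ 16 * E := by
    by_contra hcon
    push Not at hcon
    have h8 : 8 * E ≤ ‖r‖ := by linarith
    have l1 := phi_lower hE ha hb h8
    have l2 := psi_upper hE ha hb h8
    have l3 : ‖Phi a b r 1‖ ≤ E * (8 * ‖r‖ ^ 3) := by
      rw [hr1, norm_mul]
      gcongr
    have hr0 : 0 < ‖r‖ := by linarith
    have hr3 : 0 < ‖r‖ ^ 3 := by positivity
    have l5 : ‖r‖ ^ 3 * (16 * E) < ‖r‖ ^ 3 * ‖r‖ := by gcongr
    nlinarith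
  -- lower bound for psi r
  have hψr : 1 / (2 ^ 12 * E ^ 3) ≤ ‖Psi a b r 1‖ := by
    have id1 : 4 * (4 * a ^ 3 + 27 * b ^ 2) =
        ((12 * r ^ 2 + 16 * a) * t - (3 * r ^ 3 - 5 * a * r - 27 * b)) * Psi a b r 1 := by
      have : 4 * (4 * a ^ 3 + 27 * b ^ 2) =
        (12 * r ^ 2 + 16 * a) * Phi a b r 1 - (3 * r ^ 3 - 5 * a * r - 27 * b) * Psi a b r 1 := by
        unfold Phi Psi; ring
      rw [this, hr1]; ring
    have n1 : ‖(12 * r ^ 2 + 16 * a) * t - (3 * r ^ 3 - 5 * a * r - 27 * b)‖ ≤ 2 ^ 14 * E ^ 3 := by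
      have e1 : ‖(12 * r ^ 2 + 16 * a) * t‖ ≤ (12 * (16 * E) ^ 2 + 16 * E) * E := by
        rw [norm_mul]
        have : ‖12 * r ^ 2 + 16 * a‖ ≤ 12 * (16 * E) ^ 2 + 16 * E := by
          refine (norm_add_le _ _).trans ?_
          rw [norm_mul, norm_mul, norm_pow, Complex.norm_ofNat, Complex.norm_ofNat]
          gcongr
        gcongr
      have e2 : ‖3 * r ^ 3 - 5 * a * r - 27 * b‖ ≤ 3 * (16 * E) ^ 3 + 5 * E * (16 * E) + 27 * E := by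
        refine (norm_sub_le _ _).trans ?_
        have : ‖3 * r ^ 3 - 5 * a * r‖ ≤ 3 * (16 * E) ^ 3 + 5 * E * (16 * E) := by
          refine (norm_sub_le _ _).trans ?_
          rw [norm_mul, norm_mul, norm_mul, norm_pow, Complex.norm_ofNat, Complex.norm_ofNat]
          gcongr
        have h27 : ‖27 * b‖ ≤ 27 * E := by
          rw [norm_mul, Complex.norm_ofNat]
          gcongr
        linarith
      refine (norm_sub_le _ _).trans ((add_le_add e1 e2).trans ?_)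
      have k1 : E ^ 2 * 1 ≤ E ^ 2 * E := by
        have : (1 : ℝ) ≤ E := by linarith
        gcongr
      have k2 : E * 1 ≤ E * E := by
        have : (1 : ℝ) ≤ E := by linarith
        gcongr
      nlinarith
    have n2 : (4 : ℝ) ≤ 2 ^ 14 * E ^ 3 * ‖Psi a b r 1‖ := by
      have : ‖4 * (4 * a ^ 3 + 27 * b ^ 2)‖ =
        ‖(12 * r ^ 2 + 16 * a) * t - (3 * r ^ 3 - 5 * a * r - 27 * b)‖ * ‖Psi a b r 1‖ := by
        rw [id1, norm_mul]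
      rw [norm_mul, Complex.norm_ofNat] at this
      calc (4 : ℝ) ≤ 4 * ‖4 * a ^ 3 + 27 * b ^ 2‖ := by linarith
        _ = _ := this
        _ ≤ _ := by gcongr
    rw [div_le_iff₀ (by positivity)]
    nlinarith
  have hψr0 : 0 < ‖Psi a b r 1‖ := lt_of_lt_of_le (by positivity) hψr
  have hψrne : Psi a b r 1 ≠ 0 := norm_pos_iff.1 hψr0
  -- the derivative
  have hder : 1 / (2 ^ 4 * E ^ 2) ≤ ‖q.derivative.eval r‖ := by
    have id2 : (q.derivative.eval r) ^ 2 = 16 * Psi a b r 1 * (t ^ 3 + a * t + b) := by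
      have e1 := hqd r
      rw [← hr1] at e1
      have e2 : (4 * r ^ 3 - 4 * a * r - 8 * b) * Psi a b r 1 - Phi a b r 1 * (4 * (3 * r ^ 2 + a)) =
        4 * (r ^ 6 + 5 * a * r ^ 4 + 20 * b * r ^ 3 - 5 * a ^ 2 * r ^ 2 - 4 * a * b * r
          - 8 * b ^ 2 - a ^ 3) := by
        unfold Phi Psi; ring
      have e3 : (r ^ 6 + 5 * a * r ^ 4 + 20 * b * r ^ 3 - 5 * a ^ 2 * r ^ 2 - 4 * a * b * r
          - 8 * b ^ 2 - a ^ 3) ^ 2 = Phi a b r 1 ^ 3 + a * Phi a b r 1 * Psi a b r 1 ^ 2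
            + b * Psi a b r 1 ^ 3 := by
        unfold Phi Psi; ring
      have e4 : (q.derivative.eval r) ^ 2 * Psi a b r 1 ^ 2 =
          (16 * Psi a b r 1 * (t ^ 3 + a * t + b)) * Psi a b r 1 ^ 2 := by
        rw [← mul_pow, e1, e2, mul_pow, e3, hr1]; ring
      exact mul_right_cancel₀ (pow_ne_zero 2 hψrne) e4
    have n3 : (1 / (2 ^ 4 * E ^ 2)) ^ 2 ≤ ‖q.derivative.eval r‖ ^ 2 := by
      rw [← norm_pow, id2, norm_mul, norm_mul, Complex.norm_ofNat]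
      have : 16 * (1 / (2 ^ 12 * E ^ 3)) * (1 / E) ≤ 16 * ‖Psi a b r 1‖ * ‖t ^ 3 + a * t + b‖ := by
        gcongr
      refine le_trans (le_of_eq ?_) this
      field_simp
      norm_num
    exact le_of_sq_le_sq n3 (norm_nonneg _)
  have hder0 : 0 < ‖q.derivative.eval r‖ := lt_of_lt_of_le (by positivity) hder
  refine ⟨r, hr1, ?_, hrb, ?_⟩
  · have n1 : ‖q.eval β‖ ≤ 2 ^ 18 * E ^ 3 * δ := by
      have e1 : q.eval β = (Phi a b β 1 / Psi a b β 1 - t) * Psi a b β 1 := by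
        rw [hqe, sub_mul, div_mul_cancel₀ _ hψ]
      rw [e1, norm_mul, mul_comm]
      have e2 : ‖Psi a b β 1‖ ≤ 2 ^ 18 * E ^ 3 := by
        refine (psi_le ha hb hβ).trans ?_
        have k1 : E ^ 2 * 1 ≤ E ^ 2 * E := by
          have : (1 : ℝ) ≤ E := by linarith
          gcongr
        have k2 : E * 1 ≤ E * E := by
          have : (1 : ℝ) ≤ E := by linarith
          gcongr
        nlinarith
      gcongr
    have n2 : ‖β - r‖ * (1 / (2 ^ 4 * E ^ 2)) ≤ 2 ^ 3 * (2 ^ 18 * E ^ 3 * δ) := by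
      calc ‖β - r‖ * (1 / (2 ^ 4 * E ^ 2)) ≤ ‖β - r‖ * ‖q.derivative.eval r‖ := by gcongr
        _ ≤ 2 ^ (4 - 1) * ‖q.eval β‖ := hr
        _ ≤ _ := by
          norm_num only
          norm_num only at n1
          linarith
    rw [mul_one_div, div_le_iff₀ (by positivity)] at n2
    refine n2.trans (le_of_eq ?_)
    ring
  · have e1 : Psi a b r 1 = 4 * (r ^ 3 + a * r + b) := by
      unfold Psi; ring
    have e2 : ‖Psi a b r 1‖ = 4 * ‖r ^ 3 + a * r + b‖ := by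
      rw [e1, norm_mul, Complex.norm_ofNat]
    rw [e2] at hψr
    have e3 : 1 / (2 ^ 14 * E ^ 3) = (1 / (2 ^ 12 * E ^ 3)) / 4 := by
      field_simp
      norm_num
    rw [e3]
    linarith

theorem dup_step : ∃ K : ℝ, 1 ≤ K ∧ ∀ (a b : ℤ), D a b ≠ 0 → ∀ A : ℝ, 1 ≤ A →
    |(a : ℝ)| ≤ Real.exp A → |(b : ℝ)| ≤ Real.exp A → ∀ (t β : ℂ) (δ : ℝ), δ ≤ 1 →
    ‖t‖ ≤ Real.exp A → Real.exp (-A) ≤ ‖t ^ 3 + a * t + b‖ →
    Psi (a : ℂ) b β 1 ≠ 0 → ‖Phi (a : ℂ) b β 1 / Psi (a : ℂ) b β 1 - t‖ ≤ δ →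
    ∃ r : ℂ, Phi (a : ℂ) b r 1 = t * Psi (a : ℂ) b r 1 ∧ ‖β - r‖ ≤ Real.exp (K * A) * δ ∧
      ‖r‖ ≤ Real.exp (K * A) ∧ Real.exp (-(K * A)) ≤ ‖r ^ 3 + a * r + b‖ := by
  refine ⟨30, by norm_num, ?_⟩
  intro a b hD A hA ha hb t β δ hδ ht hc hψ h
  have hE : 2 ≤ Real.exp A := by
    have := Real.add_one_le_exp A
    linarith
  have hE0 : 0 < Real.exp A := Real.exp_pos A
  have hE1 : (1 : ℝ) ≤ Real.exp A := by linarith
  have hδ0 : 0 ≤ δ := (norm_nonneg _).trans h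
  have hK : Real.exp (30 * A) = Real.exp A ^ 30 := by
    rw [← Real.exp_nat_mul]
    norm_num
  have hD1 : 1 ≤ ‖4 * (a : ℂ) ^ 3 + 27 * (b : ℂ) ^ 2‖ := by
    have h1 : 4 * (a : ℂ) ^ 3 + 27 * (b : ℂ) ^ 2 = ((D a b : ℤ) : ℂ) := by
      unfold D; push_cast; ring
    rw [h1, Complex.norm_intCast]
    have : (1 : ℤ) ≤ |D a b| := Int.one_le_abs hD
    exact_mod_cast this
  have ha' : ‖(a : ℂ)‖ ≤ Real.exp A := by rwa [Complex.norm_intCast]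
  have hb' : ‖(b : ℂ)‖ ≤ Real.exp A := by rwa [Complex.norm_intCast]
  have hc' : 1 / Real.exp A ≤ ‖t ^ 3 + (a : ℂ) * t + b‖ := by
    rw [one_div, ← Real.exp_neg]
    exact hc
  obtain ⟨r, h1, h2, h3, h4⟩ := key hE ha' hb' ht hD1 hc' hδ hψ h
  have p25 : (2 : ℝ) ^ 25 ≤ Real.exp A ^ 25 := pow_le_pow_left₀ (by norm_num) hE 25
  have p14 : (2 : ℝ) ^ 14 ≤ Real.exp A ^ 14 := pow_le_pow_left₀ (by norm_num) hE 14
  have p4 : (2 : ℝ) ^ 4 ≤ Real.exp A ^ 4 := pow_le_pow_left₀ (by norm_num) hE 4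
  refine ⟨r, h1, ?_, ?_, ?_⟩
  · rw [hK]
    refine h2.trans ?_
    have : (2 : ℝ) ^ 25 * Real.exp A ^ 5 ≤ Real.exp A ^ 30 := by
      calc (2 : ℝ) ^ 25 * Real.exp A ^ 5 ≤ Real.exp A ^ 25 * Real.exp A ^ 5 := by gcongr
        _ = Real.exp A ^ 30 := by ring
    gcongr
  · rw [hK]
    refine h3.trans ?_
    calc 16 * Real.exp A = 2 ^ 4 * Real.exp A := by norm_num
      _ ≤ Real.exp A ^ 4 * Real.exp A := by gcongr
      _ = Real.exp A ^ 5 := by ring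
      _ ≤ Real.exp A ^ 30 := pow_le_pow_right₀ hE1 (by norm_num)
  · rw [Real.exp_neg, hK]
    refine le_trans ?_ h4
    rw [one_div]
    apply inv_anti₀ (by positivity)
    calc (2 : ℝ) ^ 14 * Real.exp A ^ 3 ≤ Real.exp A ^ 14 * Real.exp A ^ 3 := by gcongr
      _ = Real.exp A ^ 17 := by ring
      _ ≤ Real.exp A ^ 30 := pow_le_pow_right₀ hE1 (by norm_num)

end Pool.Agent.H24.LR
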