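import Pool.Agent.H24.LR.Irr
import Pool.Agent.H24.LR.Liou
import Pool.Agent.H24.LR.Min

/-!
# LR TS

Thue-Siegel, final form: from `exists_min`, `ts_irr`, `ts_liou`.
-/

namespace Pool.Agent.H24.LR

open Finset Polynomial

/-- Thue-Siegel: of two very good approximations of the same algebraic integer of degree at most
`16`, the second is not much more complicated than the first. -/
theorem ts : ∃ C : ℝ, 1 ≤ C ∧ ∀ (f : ℤ[X]), f.Monic → f.natDegree ≤ 16 →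
    ∀ A : ℝ, 1 ≤ A → (∀ i, |(f.coeff i : ℝ)| ≤ Real.exp A) →
    ∀ (α : ℂ) (β₁ β₂ : ℚ) (h₁ h₂ : ℝ), aeval α f = 0 →
    Real.log β₁.den ≤ h₁ → Real.log β₂.den ≤ h₂ → C * A ≤ h₁ → β₁ ≠ β₂ →
    ‖α - (β₁ : ℂ)‖ ≤ Real.exp (-(7.5 * h₁)) → ‖α - (β₂ : ℂ)‖ ≤ Real.exp (-(7.5 * h₂)) →
    h₂ ≤ C * h₁ := by
  obtain ⟨C₁, hC₁, h₁⟩ := ts_irr
  obtain ⟨C₂, hC₂, h₂⟩ := ts_liou
  refine ⟨50 * (C₁ + C₂), by linarith, fun f hf hd A hA hc α β₁ β₂ u₁ u₂ hα hu₁ hu₂ hCA hne ha₁ ha₂ => ?_⟩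
  obtain ⟨g, hg, hirr, hgd, hgα, hgc⟩ := exists_min hf hd hA hc hα
  have hu0 : 0 ≤ u₁ := by nlinarith
  by_cases h4 : 4 ≤ g.natDegree
  · have := h₁ g hg hirr h4 hgd (50 * A) (by linarith) hgc α β₁ β₂ u₁ u₂ hgα hu₁ hu₂
      (by nlinarith) ha₁ ha₂
    nlinarith
  · have := h₂ g hg hirr (by omega) (50 * A) (by linarith) hgc α β₁ β₂ u₁ u₂ hgα hu₁ hu₂
      (by nlinarith) hne ha₁ ha₂
    nlinarith

end Pool.Agent.H24.LR
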