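import Pool.Agent.H24.LR.Pt

/-!
# LR Tors4

At most 8 halves of a point: `2T = Q`: for `Q ≠ 0`, `x(T)` is a root of the monic quartic `φ(X) - x_Q ψ(X)` (from `dup` in LQ/Dup or the
duplication formula), and `T` is determined by `x(T)` up to sign (`eq_or_neg` in LQ/Total); for `Q = 0`: `T = 0` or `x(T)` is a root of
`X³+aX+b` (then `y = 0`). So at most `64` points with `4T = 0`.
-/

namespace Pool.Agent.H24.LR

open Pool.Agent.H24.LP Pool.Agent.H24.LQ Finset

private lemma repZ_ne {a b : ℤ} {T : (curve a b).Point} (h : T ≠ 0) : (repZ T : ℚ) ≠ 0 := by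
  cases T with
  | zero => exact absurd rfl h
  | some x y h' =>
    show (((x.den : ℕ) : ℤ) : ℚ) ≠ 0
    have h1 := x.den_nz
    exact_mod_cast h1

private lemma card_le_aux {a b : ℤ} (s : Finset (curve a b).Point) (p : Polynomial ℚ) (hp : p ≠ 0)
    (hs : ∀ T ∈ s, T ≠ 0 ∧ p.IsRoot ((repX T : ℚ) / repZ T)) : s.card ≤ 2 * p.natDegree := by
  classical
  let f : (curve a b).Point → ℚ := fun T => (repX T : ℚ) / repZ T
  have h1 : s.card ≤ 2 * (s.image f).card := by
    refine Finset.card_le_mul_card_image s 2 fun u hu => ?_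
    obtain ⟨T₀, hT₀, hT₀u⟩ := Finset.mem_image.mp hu
    have h2 : (s.filter fun P => f P = u) ⊆ {T₀, -T₀} := by
      intro P hP
      rw [Finset.mem_filter] at hP
      have h3 : f P = f T₀ := hP.2.trans hT₀u.symm
      have z1 := repZ_ne (hs P hP.1).1
      have z2 := repZ_ne (hs T₀ hT₀).1
      have h4 : (repX P : ℚ) / repZ P = (repX T₀ : ℚ) / repZ T₀ := h3
      rw [div_eq_div_iff z1 z2] at h4
      have h5 : repX P * repZ T₀ - repX T₀ * repZ P = 0 := by
        have h6 : repX P * repZ T₀ = repX T₀ * repZ P := by exact_mod_cast h4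
        rw [h6, sub_self]
      obtain ⟨h6, h7⟩ := rep_eq h5
      rcases eq_or_neg h6 h7 with h | h <;> simp [h]
    exact (Finset.card_le_card h2).trans Finset.card_le_two
  have h2 : (s.image f).card ≤ p.natDegree := by
    have h3 : s.image f ⊆ p.roots.toFinset := by
      intro u hu
      obtain ⟨T, hT, rfl⟩ := Finset.mem_image.mp hu
      rw [Multiset.mem_toFinset, Polynomial.mem_roots hp]
      exact (hs T hT).2
    calc (s.image f).card ≤ p.roots.toFinset.card := Finset.card_le_card h3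
      _ ≤ Multiset.card p.roots := Multiset.toFinset_card_le _
      _ ≤ p.natDegree := p.card_roots'
  omega

private lemma Phi_cast {a b X Z : ℤ} (hZ : (Z : ℚ) ≠ 0) : ((Phi a b X Z : ℤ) : ℚ) = (Z : ℚ) ^ 4 *
    (((X : ℚ) / Z) ^ 4 - 2 * a * ((X : ℚ) / Z) ^ 2 - 8 * b * ((X : ℚ) / Z) + a ^ 2) := by
  unfold Phi
  push_cast
  field_simp

private lemma Psi_cast {a b X Z : ℤ} (hZ : (Z : ℚ) ≠ 0) : ((Psi a b X Z : ℤ) : ℚ) = (Z : ℚ) ^ 4 *
    (4 * (((X : ℚ) / Z) ^ 3 + a * ((X : ℚ) / Z) + b)) := by
  unfold Psi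
  push_cast
  field_simp

private lemma halves_zero {a b : ℤ} (hD : D a b ≠ 0)
    (s : Finset (curve a b).Point) (hs : ∀ T ∈ s, T ≠ 0 ∧ T + T = 0) : s.card ≤ 6 := by
  have h0 : (Polynomial.X ^ 3 + Polynomial.C (a : ℚ) * Polynomial.X + Polynomial.C (b : ℚ) :
      Polynomial ℚ).natDegree = 3 := by
    compute_degree!
  have hp : (Polynomial.X ^ 3 + Polynomial.C (a : ℚ) * Polynomial.X + Polynomial.C (b : ℚ) :
      Polynomial ℚ) ≠ 0 := by
    intro h
    rw [h, Polynomial.natDegree_zero] at h0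
    omega
  have h1 := card_le_aux s _ hp fun T hT => by
    refine ⟨(hs T hT).1, ?_⟩
    obtain ⟨m, -, -, -, h2⟩ := dup hD T
    rw [(hs T hT).2] at h2
    have h3 : repZ (0 : (curve a b).Point) = 0 := rfl
    rw [h3, mul_zero] at h2
    have h4 := Psi_cast (a := a) (b := b) (X := repX T) (repZ_ne (hs T hT).1)
    rw [h2, Int.cast_zero] at h4
    have h5 : (4 * (((repX T : ℚ) / repZ T) ^ 3 + a * ((repX T : ℚ) / repZ T) + b)) = 0 := by
      rcases mul_eq_zero.mp h4.symm with h | h
      · exact absurd h (pow_ne_zero 4 (repZ_ne (hs T hT).1))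
      · exact h
    simp only [Polynomial.IsRoot.def, Polynomial.eval_add, Polynomial.eval_mul, Polynomial.eval_pow,
      Polynomial.eval_X, Polynomial.eval_C]
    linarith
  rw [h0] at h1
  exact h1

theorem halves {a b : ℤ} (hD : D a b ≠ 0) (Q : (curve a b).Point)
    (s : Finset (curve a b).Point) (hs : ∀ T ∈ s, T + T = Q) : s.card ≤ 8 := by
  classical
  by_cases hQ : Q = 0
  · subst hQ
    have h1 : (s.erase 0).card ≤ 6 := by
      refine halves_zero hD _ fun T hT => ?_
      rw [Finset.mem_erase] at hT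
      exact ⟨hT.1, hs T hT.2⟩
    have h2 : s.card ≤ (s.erase 0).card + 1 := by
      by_cases h0 : (0 : (curve a b).Point) ∈ s
      · rw [Finset.card_erase_add_one h0]
      · rw [Finset.erase_eq_of_notMem h0]
        omega
    omega
  · have hz := repZ_ne hQ
    set q : ℚ := (repX Q : ℚ) / repZ Q with hq
    have h0 : (Polynomial.X ^ 4 - Polynomial.C (4 * q) * Polynomial.X ^ 3
        - Polynomial.C (2 * (a : ℚ)) * Polynomial.X ^ 2
        - Polynomial.C (8 * (b : ℚ) + 4 * a * q) * Polynomial.X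
        + Polynomial.C ((a : ℚ) ^ 2 - 4 * b * q) : Polynomial ℚ).natDegree = 4 := by
      compute_degree!
    have hp : (Polynomial.X ^ 4 - Polynomial.C (4 * q) * Polynomial.X ^ 3
        - Polynomial.C (2 * (a : ℚ)) * Polynomial.X ^ 2
        - Polynomial.C (8 * (b : ℚ) + 4 * a * q) * Polynomial.X
        + Polynomial.C ((a : ℚ) ^ 2 - 4 * b * q) : Polynomial ℚ) ≠ 0 := by
      intro h
      rw [h, Polynomial.natDegree_zero] at h0
      omega
    have h1 := card_le_aux s _ hp fun T hT => by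
      have hT0 : T ≠ 0 := by
        rintro rfl
        apply hQ
        rw [← hs 0 hT, add_zero]
      refine ⟨hT0, ?_⟩
      have hzT := repZ_ne hT0
      obtain ⟨m, hm, -, h1, h2⟩ := dup hD T
      rw [hs T hT] at h1 h2
      have h3 := Phi_cast (a := a) (b := b) (X := repX T) hzT
      have h4 := Psi_cast (a := a) (b := b) (X := repX T) hzT
      rw [h1] at h3
      rw [h2] at h4
      push_cast at h3 h4
      set t : ℚ := (repX T : ℚ) / repZ T with ht
      have h5 : (repX Q : ℚ) = q * repZ Q := by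
        rw [hq]; field_simp
      rw [h5] at h3
      have h6 : (repZ T : ℚ) ^ 4 * (t ^ 4 - 2 * a * t ^ 2 - 8 * b * t + a ^ 2
          - q * (4 * (t ^ 3 + a * t + b))) = 0 := by
        linear_combination (-1) * h3 + q * h4
      have h7 : t ^ 4 - 2 * a * t ^ 2 - 8 * b * t + a ^ 2 - q * (4 * (t ^ 3 + a * t + b)) = 0 := by
        rcases mul_eq_zero.mp h6 with h | h
        · exact absurd h (pow_ne_zero 4 hzT)
        · exact h
      simp only [Polynomial.IsRoot.def, Polynomial.eval_add, Polynomial.eval_sub,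
        Polynomial.eval_mul, Polynomial.eval_pow, Polynomial.eval_X, Polynomial.eval_C]
      linear_combination h7
    rw [h0] at h1
    exact h1

theorem tors4 {a b : ℤ} (hD : D a b ≠ 0) (s : Finset (curve a b).Point)
    (hs : ∀ T ∈ s, 4 • T = 0) : s.card ≤ 64 := by
  classical
  have h1 : s.card ≤ 8 * (s.image fun T => T + T).card := by
    refine Finset.card_le_mul_card_image s 8 fun Q hQ => ?_
    refine halves hD Q _ fun T hT => ?_
    rw [Finset.mem_filter] at hT
    exact hT.2
  have h2 : (s.image fun T => T + T).card ≤ 8 := by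
    refine halves hD 0 _ fun Q hQ => ?_
    obtain ⟨T, hT, rfl⟩ := Finset.mem_image.mp hQ
    have h3 := hs T hT
    rw [← h3]
    abel
  omega

end Pool.Agent.H24.LR
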