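import Pool.Agent.H24.LR.WrNe

/-!
# LR Wr

(a) `wr` commutes with the map `ℚ → ℂ`. (b) if `∑ c_l U_l` is divisible by `(X - z)^n`, `c_(l₀) ≠ 0`, then `(X - z)^{n-ρ}` divides `wr U`:
replace the column `l₀` by `∑ c_l U_l` (the determinant is multiplied by `c_(l₀)`), all entries `hasseDeriv i G`, `i ≤ ρ`, are divisible by
`(X - z)^{n-ρ}`. (c) `natDegree (wr U) ≤ (ρ+1) m`. (d) the powers for distinct `z` are coprime, so the product of the
`(X - z)^{n_z - ρ}` divides `wr U ≠ 0`.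
-/

namespace Pool.Agent.H24.LR

open Finset Polynomial

private theorem hasseDeriv_map' {F K : Type*} [Field F] [Field K] (φ : F →+* K) (k : ℕ) (f : F[X]) :
    (hasseDeriv k f).map φ = hasseDeriv k (f.map φ) := by
  ext n
  rw [coeff_map, hasseDeriv_coeff, hasseDeriv_coeff, coeff_map, map_mul, map_natCast]

private theorem wr_map {F K : Type*} [Field F] [Field K] (φ : F →+* K) {n : ℕ} (U : Fin n → F[X]) :
    (wr U).map φ = wr (fun l => (U l).map φ) := by
  unfold wr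
  have h := RingHom.map_det (mapRingHom φ) (Matrix.of fun i l : Fin n => hasseDeriv (i : ℕ) (U l))
  rw [coe_mapRingHom] at h
  rw [h]
  congr 1
  ext i l : 2
  rw [RingHom.mapMatrix_apply, Matrix.map_apply, Matrix.of_apply, Matrix.of_apply, coe_mapRingHom,
    hasseDeriv_map']

private theorem dvd_hasse {F : Type*} [Field F] [CharZero F] {p G : F[X]} {n : ℕ} (k : ℕ)
    (h : p ^ n ∣ G) : p ^ (n - k) ∣ hasseDeriv k G := by
  have h1 := pow_sub_dvd_iterate_derivative_of_pow_dvd k h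
  rw [← factorial_smul_hasseDeriv, LinearMap.smul_apply, nsmul_eq_mul] at h1
  have h2 : (k.factorial : F[X]) = C (k.factorial : F) := by simp
  rw [h2] at h1
  have h3 : IsUnit (C (k.factorial : F)) :=
    isUnit_C.2 (isUnit_iff_ne_zero.2 (Nat.cast_ne_zero.2 (Nat.factorial_ne_zero k)))
  exact (h3.dvd_mul_left).1 h1

private theorem pow_dvd_wr {F : Type*} [Field F] [CharZero F] {ρ : ℕ} (U : Fin (ρ + 1) → F[X])
    (p : F[X]) (n : ℕ) (c : Fin (ρ + 1) → F) (hc : c ≠ 0) (h : p ^ n ∣ ∑ l, C (c l) * U l) :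
    p ^ (n - ρ) ∣ wr U := by
  obtain ⟨l0, hl0⟩ := Function.ne_iff.1 hc
  rw [Pi.zero_apply] at hl0
  set A : Matrix (Fin (ρ + 1)) (Fin (ρ + 1)) F[X] :=
    Matrix.of fun i l : Fin (ρ + 1) => hasseDeriv (i : ℕ) (U l) with hA
  have h1 := Matrix.det_updateCol_sum A l0 (fun l => C (c l))
  have h2 : ∀ k : Fin (ρ + 1), p ^ (n - ρ) ∣ ∑ i, C (c i) • A k i := by
    intro k
    have h3 : ∑ i, C (c i) • A k i = hasseDeriv (k : ℕ) (∑ l, C (c l) * U l) := by
      rw [map_sum]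
      refine Finset.sum_congr rfl fun i _ => ?_
      rw [hA, Matrix.of_apply, smul_eq_mul, ← smul_eq_C_mul, ← smul_eq_C_mul, LinearMap.map_smul]
    rw [h3]
    refine (pow_dvd_pow p ?_).trans (dvd_hasse (k : ℕ) h)
    have := k.2
    omega
  choose w hw using h2
  have h4 : (fun k => ∑ i, C (c i) • A k i) = (p ^ (n - ρ)) • w := by
    funext k
    rw [hw k, Pi.smul_apply, smul_eq_mul]
  rw [h4, Matrix.det_updateCol_smul, smul_eq_mul] at h1
  have h5 : p ^ (n - ρ) ∣ C (c l0) * A.det := ⟨_, h1.symm⟩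
  have h6 : IsUnit (C (c l0)) := isUnit_C.2 (isUnit_iff_ne_zero.2 hl0)
  exact (h6.dvd_mul_left).1 h5

private theorem natDegree_wr_le {F : Type*} [Field F] {n m : ℕ} (U : Fin n → F[X])
    (hdeg : ∀ l, (U l).natDegree ≤ m) : (wr U).natDegree ≤ n * m := by
  unfold wr
  rw [Matrix.det_apply]
  refine natDegree_sum_le_of_forall_le _ _ fun σ _ => ?_
  refine (natDegree_smul_le _ _).trans ?_
  refine (natDegree_prod_le _ _).trans ?_
  calc ∑ i, ((Matrix.of fun i l : Fin n => hasseDeriv (i : ℕ) (U l)) (σ i) i).natDegree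
      ≤ ∑ _i : Fin n, m := by
        refine Finset.sum_le_sum fun i _ => ?_
        rw [Matrix.of_apply]
        exact (natDegree_hasseDeriv_le _ _).trans ((Nat.sub_le _ _).trans (hdeg i))
    _ = n * m := by rw [Finset.sum_const, Finset.card_univ, Fintype.card_fin, smul_eq_mul]

theorem wr_bound {ρ m : ℕ} (U : Fin (ρ + 1) → ℚ[X]) (hU : LinearIndependent ℚ U)
    (hdeg : ∀ l, (U l).natDegree ≤ m) (Z : Finset ℂ) (n : ℂ → ℕ)
    (hZ : ∀ z ∈ Z, ∃ c : Fin (ρ + 1) → ℂ, c ≠ 0 ∧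
      (X - C z) ^ (n z) ∣ ∑ l, C (c l) * (U l).map (algebraMap ℚ ℂ)) :
    ∑ z ∈ Z, (n z - ρ) ≤ (ρ + 1) * m := by
  have h0 : (wr U).map (algebraMap ℚ ℂ) ≠ 0 :=
    (Polynomial.map_ne_zero_iff (algebraMap ℚ ℂ).injective).2 (wr_ne_zero U hU)
  have h1 : ∏ z ∈ Z, (X - C z) ^ (n z - ρ) ∣ (wr U).map (algebraMap ℚ ℂ) := by
    refine Finset.prod_dvd_of_coprime ?_ ?_
    · intro a _ b _ hab
      exact (pairwise_coprime_X_sub_C (Function.injective_id) hab).pow
    · intro z hz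
      obtain ⟨c, hc, hd⟩ := hZ z hz
      rw [wr_map]
      exact pow_dvd_wr _ _ _ c hc hd
  have h2 := natDegree_le_of_dvd h1 h0
  have h3 : (∏ z ∈ Z, (X - C z) ^ (n z - ρ)).natDegree = ∑ z ∈ Z, (n z - ρ) := by
    rw [natDegree_prod_of_monic _ _ fun z _ => (monic_X_sub_C z).pow _]
    refine Finset.sum_congr rfl fun z _ => ?_
    rw [natDegree_pow, natDegree_X_sub_C, mul_one]
  rw [h3] at h2
  refine h2.trans ((natDegree_map_le).trans ?_)
  exact natDegree_wr_le U hdeg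

end Pool.Agent.H24.LR
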