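import Mathlib

/-!
# LR WrNe

The Wronskian with Hasse derivatives is not zero for linearly independent polynomials in characteristic `0`.
(1) The span of the `U_l` contains polynomials `p_j ≠ 0` with pairwise distinct degrees (the degrees `d` of the nonzero elements
of the span: the coefficients at these `d` determine an element, so there are at least `n` of them);
`p_j = ∑ c_(l j) U_l`, and the Wronskian of the `p_j` is the Wronskian of the `U_l` times `det c`.
(2) If the degrees `n_l` of `p_l` are distinct (leading coefficients `a_l`), the matrix with entries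
`X^i hasseDeriv i p_l` has entries of degree `≤ n_l` with coefficient of `X^(n_l)` equal to `binom(n_l, i) a_l`
(also if `i > n_l`: the entry is `0`), so the coefficient of `X^(∑ n_l)` of its determinant is `∏ a_l det(binom(n_l, i))`,
and it is a monomial times the Wronskian.
(3) `det (binom(n_l, i)) ≠ 0`: `i! binom(n, i) = descPochhammer`, `Matrix.det_eval_matrixOfPolynomials_eq_det_vandermonde`.
-/

namespace Pool.Agent.H24.LR

open Finset Polynomial

/-- The Wronskian with Hasse derivatives. -/
noncomputable def wr {F : Type*} [Field F] {n : ℕ} (U : Fin n → F[X]) : F[X] :=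
  Matrix.det (Matrix.of fun i l : Fin n => hasseDeriv (i : ℕ) (U l))

private theorem wrne_coeff_prod {R : Type*} [CommRing R] {ι : Type*} (s : Finset ι) (f : ι → R[X])
    (d : ι → ℕ) (h : ∀ i ∈ s, (f i).natDegree ≤ d i) :
    (∏ i ∈ s, f i).natDegree ≤ ∑ i ∈ s, d i ∧
      (∏ i ∈ s, f i).coeff (∑ i ∈ s, d i) = ∏ i ∈ s, (f i).coeff (d i) := by
  classical
  induction s using Finset.induction_on with
  | empty => simp
  | insert a s ha ih =>
    obtain ⟨h1, h2⟩ := ih fun i hi => h i (Finset.mem_insert_of_mem hi)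
    have h3 := h a (Finset.mem_insert_self a s)
    rw [Finset.prod_insert ha, Finset.sum_insert ha, Finset.prod_insert ha]
    exact ⟨natDegree_mul_le_of_le h3 h1, by rw [coeff_mul_add_eq_of_natDegree_le h3 h1, h2]⟩

private theorem wrne_coeff_det {R : Type*} [CommRing R] {n : ℕ} (M : Matrix (Fin n) (Fin n) R[X])
    (d : Fin n → ℕ) (h : ∀ i l, (M i l).natDegree ≤ d l) :
    M.det.coeff (∑ l, d l) = (Matrix.of fun i l => (M i l).coeff (d l)).det := by
  rw [Matrix.det_apply, Matrix.det_apply, finsetSum_coeff]
  refine Finset.sum_congr rfl fun σ _ => ?_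
  have h1 := (wrne_coeff_prod Finset.univ (fun l => M (σ l) l) d fun l _ => h (σ l) l).2
  rw [Units.smul_def, Units.smul_def, coeff_smul, h1]
  rfl

private theorem wrne_binom {F : Type*} [Field F] [CharZero F] {n : ℕ} (d : Fin n → ℕ)
    (hd : Function.Injective d) :
    (Matrix.of fun i l : Fin n => ((d l).choose (i : ℕ) : F)).det ≠ 0 := by
  intro h0
  have h1 := Matrix.det_eval_matrixOfPolynomials_eq_det_vandermonde (fun l : Fin n => (d l : F))
    (fun j => descPochhammer F (j : ℕ)) (fun j => descPochhammer_natDegree F j)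
    (fun j => monic_descPochhammer F j)
  have h2 : (Matrix.of fun i j : Fin n => eval ((d i : ℕ) : F) (descPochhammer F (j : ℕ))).det =
      (∏ j : Fin n, ((j : ℕ).factorial : F)) *
        (Matrix.of fun i l : Fin n => ((d l).choose (i : ℕ) : F)).det := by
    rw [← Matrix.det_mul_column, ← Matrix.det_transpose]
    congr 1
    ext i j
    rw [Matrix.transpose_apply, Matrix.of_apply, Matrix.of_apply, Matrix.of_apply,
      descPochhammer_eval_eq_descFactorial, Nat.descFactorial_eq_factorial_mul_choose]
    push_cast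
    rfl
  rw [h2, h0, mul_zero] at h1
  refine (Matrix.det_vandermonde_ne_zero_iff (v := fun l : Fin n => (d l : F))).2 ?_ h1
  intro a b hab
  exact hd (Nat.cast_injective hab)

private theorem wrne_distinct {F : Type*} [Field F] [CharZero F] {n : ℕ} (p : Fin n → F[X])
    (hp : ∀ j, p j ≠ 0) (hd : Function.Injective fun j => (p j).natDegree) : wr p ≠ 0 := by
  intro h0
  have h1 : (Matrix.of fun i l : Fin n => (X : F[X]) ^ (i : ℕ) *
      (Matrix.of fun i l : Fin n => hasseDeriv (i : ℕ) (p l)) i l).det = 0 := by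
    rw [Matrix.det_mul_column]
    unfold wr at h0
    rw [h0, mul_zero]
  have hdeg : ∀ i l : Fin n, ((Matrix.of fun i l : Fin n => (X : F[X]) ^ (i : ℕ) *
      (Matrix.of fun i l : Fin n => hasseDeriv (i : ℕ) (p l)) i l) i l).natDegree ≤
        (p l).natDegree := by
    intro i l
    rw [Matrix.of_apply, Matrix.of_apply]
    rcases Nat.lt_or_ge (p l).natDegree (i : ℕ) with hlt | hge
    · rw [hasseDeriv_eq_zero_of_lt_natDegree _ _ hlt, mul_zero, natDegree_zero]
      exact Nat.zero_le _
    · refine (natDegree_mul_le_of_le (natDegree_X_pow_le _) (natDegree_hasseDeriv_le _ _)).trans ?_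
      omega
  have h2 := wrne_coeff_det _ (fun l => (p l).natDegree) hdeg
  rw [h1, coeff_zero] at h2
  have h3 : (Matrix.of fun i l : Fin n => ((Matrix.of fun i l : Fin n => (X : F[X]) ^ (i : ℕ) *
      (Matrix.of fun i l : Fin n => hasseDeriv (i : ℕ) (p l)) i l) i l).coeff
        ((fun l => (p l).natDegree) l)) =
      Matrix.of fun i l : Fin n => (p l).leadingCoeff *
        (Matrix.of fun i l : Fin n => (((p l).natDegree).choose (i : ℕ) : F)) i l := by
    ext i l
    simp only [Matrix.of_apply]
    rw [coeff_X_pow_mul']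
    split_ifs with hil
    · rw [hasseDeriv_coeff, Nat.sub_add_cancel hil, leadingCoeff, mul_comm]
    · rw [Nat.choose_eq_zero_of_lt (by omega)]
      simp
  rw [h3, Matrix.det_mul_row] at h2
  rcases mul_eq_zero.1 h2.symm with h4 | h4
  · rw [Finset.prod_eq_zero_iff] at h4
    obtain ⟨j, -, hj⟩ := h4
    exact hp j (leadingCoeff_eq_zero.1 hj)
  · exact wrne_binom (fun l => (p l).natDegree) hd h4

private theorem wrne_exists {F : Type*} [Field F] {n : ℕ} (U : Fin n → F[X])
    (hU : LinearIndependent F U) : ∃ p : Fin n → F[X], (∀ j, p j ≠ 0) ∧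
      (Function.Injective fun j => (p j).natDegree) ∧
      ∀ j, p j ∈ Submodule.span F (Set.range U) := by
  classical
  set V := Submodule.span F (Set.range U) with hV
  set m := Finset.univ.sup fun l => (U l).natDegree with hm
  have hVm : ∀ q ∈ V, q.natDegree ≤ m := by
    intro q hq
    obtain ⟨c, rfl⟩ := (Submodule.mem_span_range_iff_exists_fun F).1 hq
    refine natDegree_sum_le_of_forall_le _ _ fun l _ => ?_
    refine (natDegree_smul_le _ _).trans ?_
    exact Finset.le_sup (f := fun l => (U l).natDegree) (Finset.mem_univ l)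
  set D : Finset ℕ := (Finset.range (m + 1)).filter fun d => ∃ q ∈ V, q ≠ 0 ∧ q.natDegree = d with hD
  have hDmem : ∀ q ∈ V, q ≠ 0 → q.natDegree ∈ D := by
    intro q hq hq0
    rw [hD, Finset.mem_filter, Finset.mem_range]
    exact ⟨Nat.lt_succ_of_le (hVm q hq), q, hq, hq0, rfl⟩
  have hcard : n ≤ D.card := by
    let φ : V →ₗ[F] (D → F) :=
      LinearMap.pi fun d : D => (lcoeff F (d : ℕ)).comp V.subtype
    have hφ : Function.Injective φ := by
      rw [← LinearMap.ker_eq_bot, LinearMap.ker_eq_bot']
      intro q hq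
      by_contra hq0
      have hq0' : (q : F[X]) ≠ 0 := fun h => hq0 (Subtype.ext h)
      have h1 := congrFun hq ⟨(q : F[X]).natDegree, hDmem q q.2 hq0'⟩
      have h2 : (q : F[X]).coeff (q : F[X]).natDegree = 0 := h1
      exact hq0' (leadingCoeff_eq_zero.1 h2)
    have h1 := LinearMap.finrank_le_finrank_of_injective hφ
    rw [hV, finrank_span_eq_card hU, Fintype.card_fin, Module.finrank_fintype_fun_eq_card,
      Fintype.card_coe] at h1
    exact h1
  obtain ⟨D', hD'D, hD'n⟩ := Finset.exists_subset_card_eq hcard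
  let e : Fin n → ℕ := fun j => D'.orderEmbOfFin hD'n j
  have he : ∀ j, e j ∈ D := fun j => hD'D (Finset.orderEmbOfFin_mem D' hD'n j)
  have hch : ∀ j, ∃ q, q ∈ V ∧ q ≠ 0 ∧ q.natDegree = e j := by
    intro j
    have h1 := he j
    rw [hD, Finset.mem_filter] at h1
    exact h1.2
  choose p hpV hp0 hpd using hch
  refine ⟨p, hp0, ?_, hpV⟩
  intro a b hab
  have hab' : (p a).natDegree = (p b).natDegree := hab
  rw [hpd, hpd] at hab'
  exact (D'.orderEmbOfFin hD'n).injective hab'

theorem wr_ne_zero {F : Type*} [Field F] [CharZero F] {n : ℕ} (U : Fin n → F[X])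
    (hU : LinearIndependent F U) : wr U ≠ 0 := by
  obtain ⟨p, hp0, hpd, hpV⟩ := wrne_exists U hU
  have hch : ∀ j, ∃ c : Fin n → F, ∑ l, c l • U l = p j := fun j =>
    (Submodule.mem_span_range_iff_exists_fun F).1 (hpV j)
  choose c hc using hch
  intro h0
  refine wrne_distinct p hp0 hpd ?_
  have h1 : (Matrix.of fun i l : Fin n => hasseDeriv (i : ℕ) (p l)) =
      (Matrix.of fun i l : Fin n => hasseDeriv (i : ℕ) (U l)) *
        (Matrix.of fun l j : Fin n => (C (c j l) : F[X])) := by
    ext1 i j
    rw [Matrix.mul_apply, Matrix.of_apply, ← hc j, map_sum]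
    refine Finset.sum_congr rfl fun l _ => ?_
    rw [map_smul, Matrix.of_apply, Matrix.of_apply, smul_eq_C_mul, mul_comm]
  unfold wr at h0 ⊢
  rw [h1, Matrix.det_mul, h0, zero_mul]

end Pool.Agent.H24.LR
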