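import Pool.Agent.H24.LR.Appr
import Pool.Agent.H24.LR.Auxil
import Pool.Agent.H24.LR.Can
import Pool.Agent.H24.LR.Cls4
import Pool.Agent.H24.LR.Est
import Pool.Agent.H24.LR.F16
import Pool.Agent.H24.LR.Gap
import Pool.Agent.H24.LR.Irr
import Pool.Agent.H24.LR.Liou
import Pool.Agent.H24.LR.Lower
import Pool.Agent.H24.LR.Min
import Pool.Agent.H24.LR.Near
import Pool.Agent.H24.LR.Ord
import Pool.Agent.H24.LR.Pack
import Pool.Agent.H24.LR.Par
import Pool.Agent.H24.LR.Pt
import Pool.Agent.H24.LR.Quad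
import Pool.Agent.H24.LR.Shell
import Pool.Agent.H24.LR.Step
import Pool.Agent.H24.LR.TS
import Pool.Agent.H24.LR.Tors4
import Pool.Agent.H24.LR.Upper
import Pool.Agent.H24.LR.Wr
import Pool.Agent.H24.LR.WrNe
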