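import Pool.Agent.H24.LR.Est
import Pool.Agent.H24.LR.Step
import Pool.Agent.H24.LR.F16
import Pool.Agent.H24.LR.Can
import Pool.Agent.H24.LP.NT2

/-!
# LR Appr

Let `A = log |z₀.1| ≥ 100 L`, `P - P₀ = 4T`, `log |z.1| ≥ C₁ A`. By `est`, `x(4T)` is within `δ = exp(10A - (log|z.1|)/2)` of `x₀`.
`4T = 2(2T)`; from `dup` (LQ/Dup) for `2T`: `Phi(rep 2T) = m X(4T)`, `Psi(rep 2T) = m Z(4T)`, so `Z(2T) ≠ 0` (otherwise
`Psi = 0`) and with `u = X(2T)/Z(2T)`: `ψ(u) ≠ 0`, `φ(u)/ψ(u) = x(4T)`. In the same way for `T`: `β = X(T)/Z(T)`,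
`φ(β)/ψ(β) = u` (`Z(T) ≠ 0`: `T = 0` would give `4T = 0`). Apply `dup_step` to `t = x₀`, `u` (`c(x₀) = y₀² ≥ 1`, `|a|, |b| ≤ e^A`), get `u*`;
then to `t = u*`, `β` with `δ' = e^{KA} δ` and `A' = KA` get `α`; `F16_root`. So `|β - α| ≤ e^{K'A} exp(-(log|z.1|)/2)
≤ exp(-(15/31) log|z.1|)` if `C₁` is large (`15/31 < 1/2`).
`nh T ≤ g T + 20L = g(P - P₀)/16 + 20 L ≤ ((1+1/100) g P + 101 g P₀)/16 + 20L ≤ (2/31) log|z.1|` for `C₁` large
(`g P ≤ log|z.1| + 20 L`, `L ≤ A/100`; `IsQuad.sub_le_eps`, `IsQuad.nsmul`; `g` from `exists_height`, `can_quad`).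
-/

namespace Pool.Agent.H24.LR

open Pool.Agent.H24.LP Pool.Agent.H24.LQ Finset Polynomial

/-- homogeneity -/
private lemma Phi_hom (a b : ℤ) {X Z : ℤ} (hZ : Z ≠ 0) :
    ((Phi a b X Z : ℤ) : ℂ) = (Z : ℂ) ^ 4 * Phi (a : ℂ) b ((X : ℂ) / Z) 1 := by
  have hZ' : (Z : ℂ) ≠ 0 := by exact_mod_cast hZ
  unfold Phi
  push_cast
  field_simp

private lemma Psi_hom (a b : ℤ) {X Z : ℤ} (hZ : Z ≠ 0) :
    ((Psi a b X Z : ℤ) : ℂ) = (Z : ℂ) ^ 4 * Psi (a : ℂ) b ((X : ℂ) / Z) 1 := by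
  have hZ' : (Z : ℂ) ≠ 0 := by exact_mod_cast hZ
  unfold Psi
  push_cast
  field_simp

open Classical in
/-- the duplication map on quotients -/
private lemma dup_ratio {a b : ℤ} (hD : D a b ≠ 0) (P : (curve a b).Point)
    (h : repZ (P + P) ≠ 0) :
    repZ P ≠ 0 ∧ Psi (a : ℂ) b ((repX P : ℂ) / repZ P) 1 ≠ 0 ∧
    Phi (a : ℂ) b ((repX P : ℂ) / repZ P) 1 / Psi (a : ℂ) b ((repX P : ℂ) / repZ P) 1
      = (repX (P + P) : ℂ) / repZ (P + P) := by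
  obtain ⟨m, hm, -, h1, h2⟩ := dup hD P
  have hZ : repZ P ≠ 0 := by
    intro h0
    rw [h0] at h2
    have h3 : Psi a b (repX P) 0 = 0 := by
      unfold Psi; ring
    rw [h3] at h2
    rcases mul_eq_zero.mp h2.symm with h4 | h4
    · exact hm h4
    · exact h h4
  have hZ' : (repZ P : ℂ) ≠ 0 := by exact_mod_cast hZ
  have hm' : (m : ℂ) ≠ 0 := by exact_mod_cast hm
  have h' : (repZ (P + P) : ℂ) ≠ 0 := by exact_mod_cast h
  have e1 := Phi_hom a b (X := repX P) hZ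
  have e2 := Psi_hom a b (X := repX P) hZ
  rw [h1] at e1
  rw [h2] at e2
  rw [Int.cast_mul] at e1 e2
  have hΨ : Psi (a : ℂ) b ((repX P : ℂ) / repZ P) 1 ≠ 0 := by
    intro h0
    rw [h0, mul_zero] at e2
    rcases mul_eq_zero.mp e2 with h4 | h4
    · exact hm' h4
    · exact h' h4
  refine ⟨hZ, hΨ, ?_⟩
  rw [div_eq_div_iff hΨ h']
  have h5 : (m : ℂ) * (repZ P : ℂ) ^ 4 ≠ 0 := mul_ne_zero hm' (pow_ne_zero 4 hZ')
  apply mul_left_cancel₀ h5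
  calc (m : ℂ) * (repZ P : ℂ) ^ 4 * (Phi (a : ℂ) b ((repX P : ℂ) / repZ P) 1 * repZ (P + P))
      = ((repZ P : ℂ) ^ 4 * Phi (a : ℂ) b ((repX P : ℂ) / repZ P) 1) * (m * repZ (P + P)) := by
        ring
    _ = (m * repX (P + P)) * ((repZ P : ℂ) ^ 4 * Psi (a : ℂ) b ((repX P : ℂ) / repZ P) 1) := by
        rw [← e1, ← e2]
    _ = _ := by ring

open Classical in
theorem approx : ∃ C₁ : ℝ, 10 ≤ C₁ ∧ ∀ (a b : ℤ) (hD : D a b ≠ 0) (z z₀ : ℤ × ℤ)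
    (T : (curve a b).Point), z ∈ integralPoints a b → z₀ ∈ integralPoints a b →
    100 * L a b ≤ Real.log |(z₀.1 : ℝ)| → C₁ * Real.log |(z₀.1 : ℝ)| ≤ Real.log |(z.1 : ℝ)| →
    toPt hD z - toPt hD z₀ = 4 • T →
    repZ T ≠ 0 ∧ nh T ≤ 2 / 31 * Real.log |(z.1 : ℝ)| ∧
    ∃ α : ℂ, aeval α (F16 a b z₀.1) = 0 ∧
      ‖α - (((repX T : ℚ) / (repZ T : ℚ) : ℚ) : ℂ)‖ ≤
        Real.exp (-(7.5 * (2 / 31 * Real.log |(z.1 : ℝ)|))) := by
  obtain ⟨K, hK1, hstep⟩ := dup_step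
  obtain ⟨_, _, hht⟩ := exists_height
  refine ⟨6000 + 62 * (K ^ 2 + K + 10), by nlinarith, ?_⟩
  intro a b hD z z₀ T hz hz₀ h₀ h hT
  set A : ℝ := Real.log |(z₀.1 : ℝ)| with hA
  set X : ℝ := Real.log |(z.1 : ℝ)| with hX
  have hL : (0.69 : ℝ) ≤ L a b := by
    have h1 : Real.log 2 ≤ L a b := le_max_left _ _
    linarith [Real.log_two_gt_d9]
  have hA1 : 1 ≤ A := by linarith
  have hA0 : 0 ≤ A := by linarith
  have hKA : A ≤ K * A := by nlinarith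
  have hX1 : 6000 * A ≤ X := by nlinarith
  have hX2 : 62 * ((K ^ 2 + K + 10) * A) ≤ X := by nlinarith
  have hx₀ : |(z₀.1 : ℝ)| = Real.exp A := by
    rw [hA, Real.exp_log]
    by_contra hc
    have h1 : |(z₀.1 : ℝ)| = 0 := le_antisymm (not_lt.mp hc) (abs_nonneg _)
    rw [hA, h1, Real.log_zero] at hA1
    linarith
  have hx : |(z.1 : ℝ)| = Real.exp X := by
    rw [hX, Real.exp_log]
    by_contra hc
    have h1 : |(z.1 : ℝ)| = 0 := le_antisymm (not_lt.mp hc) (abs_nonneg _)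
    rw [hX, h1, Real.log_zero] at hX1
    linarith
  -- the height of `T`
  have hnh : nh T ≤ 2 / 31 * X := by
    obtain ⟨g, h1, h2, -⟩ := hht a b hD
    have hq := can_quad hD h1 h2
    have h3 := hq.nsmul 4 T
    rw [← hT] at h3
    have h4 := hq.sub_le_eps (toPt hD z) (toPt hD z₀) (n := 100) (by norm_num)
    have h5 := abs_le.mp (h2 (toPt hD z))
    have h6 := abs_le.mp (h2 (toPt hD z₀))
    have h7 := abs_le.mp (h2 T)
    have e1 : nh (toPt hD z) = X := by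
      rw [nh_toPt hD hz, max_eq_left]
      rw [hx]
      exact Real.one_le_exp (by linarith)
    have e2 : nh (toPt hD z₀) = A := by
      rw [nh_toPt hD hz₀, max_eq_left]
      rw [hx₀]
      exact Real.one_le_exp (by linarith)
    rw [e1] at h5
    rw [e2] at h6
    push_cast at h3 h4
    linarith [h5.1, h5.2, h6.1, h6.2, h7.1, h7.2]
  -- the first step
  have h4T : toPt hD z - toPt hD z₀ = (T + T) + (T + T) := by
    rw [hT]; abel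
  obtain ⟨hZ4, hest⟩ := est hD hz hz₀ (by linarith) (by linarith)
  rw [h4T] at hZ4 hest
  obtain ⟨hZ2, hΨ2, hr2⟩ := dup_ratio hD (T + T) hZ4
  obtain ⟨hZ1, hΨ1, hr1⟩ := dup_ratio hD T hZ2
  refine ⟨hZ1, hnh, ?_⟩
  have ha : |(a : ℝ)| ≤ Real.exp A :=
    (abs_a_le a b).trans (Real.exp_le_exp.mpr (by linarith))
  have hb : |(b : ℝ)| ≤ Real.exp A :=
    (abs_b_le a b).trans (Real.exp_le_exp.mpr (by linarith))
  have ht : ‖((z₀.1 : ℤ) : ℂ)‖ ≤ Real.exp A := by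
    rw [Complex.norm_intCast, hx₀]
  have hc : Real.exp (-A) ≤ ‖((z₀.1 : ℤ) : ℂ) ^ 3 + a * ((z₀.1 : ℤ) : ℂ) + b‖ := by
    obtain ⟨h1, h2, -⟩ := large_pos hz₀ (by linarith)
    have e1 : ((z₀.1 : ℤ) : ℂ) ^ 3 + a * ((z₀.1 : ℤ) : ℂ) + b = ((z₀.2 ^ 2 : ℤ) : ℂ) := by
      have e2 : z₀.2 ^ 2 = z₀.1 ^ 3 + a * z₀.1 + b := hz₀
      rw [e2]
      push_cast
      ring
    rw [e1, Complex.norm_intCast]
    have h3 : (0 : ℝ) < z₀.1 := by exact_mod_cast h1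
    have h4 : (0 : ℝ) < (z₀.2 : ℝ) ^ 2 := lt_of_lt_of_le (by positivity) h2
    have h5 : 0 < z₀.2 ^ 2 := by exact_mod_cast h4
    have h6 : 1 ≤ z₀.2 ^ 2 := h5
    have h7 : (1 : ℝ) ≤ ((z₀.2 ^ 2 : ℤ) : ℝ) := by exact_mod_cast h6
    exact (Real.exp_le_one_iff.mpr (by linarith)).trans (h7.trans (le_abs_self _))
  have hδ1 : Real.exp (10 * A - X / 2) ≤ 1 := Real.exp_le_one_iff.mpr (by linarith)
  obtain ⟨u, hu1, hu2, hu3, hu4⟩ := hstep a b hD A hA1 ha hb ((z₀.1 : ℤ) : ℂ)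
    ((repX (T + T) : ℂ) / repZ (T + T)) (Real.exp (10 * A - X / 2)) hδ1 ht hc hΨ2 (by
      rw [hr2]
      have e1 : ((repX (T + T + (T + T)) : ℂ) / (repZ (T + T + (T + T)) : ℂ) - ((z₀.1 : ℤ) : ℂ))
          = (((repX (T + T + (T + T)) : ℝ) / (repZ (T + T + (T + T)) : ℝ) - z₀.1 : ℝ) : ℂ) := by
        push_cast
        ring
      rw [e1, Complex.norm_real, Real.norm_eq_abs]
      exact hest)
  -- the second step
  have hδ2 : Real.exp (K * A) * Real.exp (10 * A - X / 2) ≤ 1 := by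
    rw [← Real.exp_add]
    refine Real.exp_le_one_iff.mpr ?_
    nlinarith [sq_nonneg K]
  obtain ⟨α, hα1, hα2, -, -⟩ := hstep a b hD (K * A) (by linarith)
    (ha.trans (Real.exp_le_exp.mpr hKA)) (hb.trans (Real.exp_le_exp.mpr hKA)) u
    ((repX T : ℂ) / repZ T) (Real.exp (K * A) * Real.exp (10 * A - X / 2)) hδ2 hu3 hu4 hΨ1 (by
      rw [hr1]
      exact hu2)
  refine ⟨α, F16_root a b z₀.1 hα1 hu1, ?_⟩
  have e3 : (((repX T : ℚ) / (repZ T : ℚ) : ℚ) : ℂ) = (repX T : ℂ) / repZ T := by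
    push_cast
    ring
  rw [e3, norm_sub_rev]
  refine hα2.trans ?_
  rw [← Real.exp_add, ← Real.exp_add]
  refine Real.exp_le_exp.mpr ?_
  have e4 : K * (K * A) + (K * A + (10 * A - X / 2)) = (K ^ 2 + K + 10) * A - X / 2 := by ring
  rw [e4]
  linarith

end Pool.Agent.H24.LR
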