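import Pool.Agent.H24.LR.Cls4
import Pool.Agent.H24.LR.Tors4
import Pool.Agent.H24.LR.Shell
import Pool.Agent.H24.LR.Appr
import Pool.Agent.H24.LR.TS

/-!
# The number of large integral points
-/

namespace Pool.Agent.H24.LR

open Pool.Agent.H24.LP Pool.Agent.H24.LQ Finset Polynomial

/-- `x(T)` as a rational number. -/
noncomputable def xq {a b : ℤ} (T : (curve a b).Point) : ℚ := (repX T : ℚ) / (repZ T : ℚ)

lemma xq_num_den {a b : ℤ} {T : (curve a b).Point} (h : repZ T ≠ 0) :
    (xq T).num = repX T ∧ ((xq T).den : ℤ) = repZ T := by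
  cases T with
  | zero => exact absurd rfl h
  | some x y hx =>
    have e : xq (WeierstrassCurve.Affine.Point.some x y hx : (curve a b).Point) = x := by
      show ((x.num : ℤ) : ℚ) / (((x.den : ℕ) : ℤ) : ℚ) = x
      rw [Int.cast_natCast, Rat.num_div_den]
    rw [e]
    exact ⟨rfl, rfl⟩

lemma log_den_le {a b : ℤ} {T : (curve a b).Point} (h : repZ T ≠ 0) :
    Real.log ((xq T).den : ℝ) ≤ nh T := by
  have h1 := (xq_num_den h).2
  have h2 : ((xq T).den : ℝ) = (repZ T : ℝ) := by exact_mod_cast h1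
  have h3 : (0 : ℝ) < ((xq T).den : ℝ) := by exact_mod_cast (xq T).den_pos
  unfold nh
  refine Real.log_le_log h3 ?_
  rw [h2]
  exact (le_abs_self _).trans (le_max_right _ _)

lemma eq_or_neg_of_xq {a b : ℤ} {T T' : (curve a b).Point} (h : repZ T ≠ 0) (h' : repZ T' ≠ 0)
    (e : xq T = xq T') : T = T' ∨ T = -T' := by
  have h1 := xq_num_den h
  have h2 := xq_num_den h'
  rw [e] at h1
  exact eq_or_neg (h1.1.symm.trans h2.1) (h1.2.symm.trans h2.2)

lemma toPt_nh {a b : ℤ} (hD : D a b ≠ 0) {z : ℤ × ℤ} (hz : z ∈ integralPoints a b)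
    (h : 100 * L a b ≤ Real.log |(z.1 : ℝ)|) : nh (toPt hD z) = Real.log |(z.1 : ℝ)| := by
  rw [nh_toPt hD hz, max_eq_left]
  have hL := L_pos a b
  by_contra hc
  push Not at hc
  have : Real.log |(z.1 : ℝ)| ≤ 0 := Real.log_nonpos (abs_nonneg _) hc.le
  linarith

/-- The number of large integral points. -/
theorem large_count : ∃ C : ℝ, 1 ≤ C ∧ ∀ (a b : ℤ), D a b ≠ 0 → ∀ r : ℕ,
    Module.rank ℤ (curve a b).Point ≤ r → ∀ S : Finset (ℤ × ℤ),
    (∀ z ∈ S, z ∈ integralPoints a b ∧ 100 * L a b ≤ Real.log |(z.1 : ℝ)|) →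
    (S.card : ℝ) ≤ C ^ (1 + r) := by
  classical
  obtain ⟨C₁, hC₁, happ⟩ := approx
  obtain ⟨C₂, hC₂, hts⟩ := ts
  obtain ⟨K, hK, hF⟩ := F16_coeff
  -- constants
  obtain ⟨n₁, hn₁⟩ := pow_unbounded_of_one_lt (C₁ + 16 * C₂ * K) (by norm_num : (1 : ℝ) < 2)
  obtain ⟨n₂, hn₂⟩ := pow_unbounded_of_one_lt (C₂ + 23) (by norm_num : (1 : ℝ) < 2)
  set N₀ : ℕ := (n₁ + 1) + 16 * (n₂ + 1) with hN₀
  refine ⟨((96 * 64 * N₀ : ℕ) : ℝ), ?_, fun a b hD r hr S hS => ?_⟩
  · have : 1 ≤ 96 * 64 * N₀ := by omega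
    exact_mod_cast this
  have hL := L_pos a b
  have hLh := half_le_L a b
  obtain ⟨κ, hκ⟩ := classes4 r hr 64 (fun s hs => tors4 hD s hs) (S.image (toPt hD))
  -- one class
  have hclass : ∀ c : Fin (4 ^ r * 64), (S.filter fun z => κ (toPt hD z) = c).card ≤ N₀ * 24 ^ r := by
    intro c
    set Sc := S.filter fun z => κ (toPt hD z) = c with hSc
    rcases Sc.eq_empty_or_nonempty with h0 | hne
    · rw [h0]; simp
    obtain ⟨z₀, hz₀, hmin⟩ := Finset.exists_min_image Sc (fun z => Real.log |(z.1 : ℝ)|) hne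
    have hz₀S := Finset.mem_filter.mp hz₀
    have hz₀I := (hS z₀ hz₀S.1).1
    have hz₀L := (hS z₀ hz₀S.1).2
    set A : ℝ := Real.log |(z₀.1 : ℝ)| with hA
    have hA1 : 1 ≤ A := by linarith
    have hLA : 100 * L a b ≤ A := hz₀L
    -- the points close to the smallest one
    have hnear : (Sc.filter fun z => Real.log |(z.1 : ℝ)| ≤ (C₁ + 16 * C₂ * K) * A).card ≤
        (n₁ + 1) * 24 ^ r := by
      refine shells hD r hr hLA n₁ _ fun z hz => ?_
      rw [Finset.mem_filter] at hz
      have hzS := Finset.mem_filter.mp hz.1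
      refine ⟨(hS z hzS.1).1, hmin z hz.1, hz.2.trans ?_⟩
      gcongr
    -- the others
    set far := Sc.filter fun z => ¬ Real.log |(z.1 : ℝ)| ≤ (C₁ + 16 * C₂ * K) * A with hfar
    have hex : ∀ z : ℤ × ℤ, ∃ (T : (curve a b).Point) (α : ℂ), z ∈ far →
        (toPt hD z - toPt hD z₀ = 4 • T ∧ repZ T ≠ 0 ∧ nh T ≤ 2 / 31 * Real.log |(z.1 : ℝ)| ∧
        aeval α (F16 a b z₀.1) = 0 ∧
        ‖α - ((xq T : ℚ) : ℂ)‖ ≤ Real.exp (-(7.5 * (2 / 31 * Real.log |(z.1 : ℝ)|)))) := by
      intro z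
      by_cases hz : z ∈ far
      · have hzf := Finset.mem_filter.mp hz
        have hzS := Finset.mem_filter.mp hzf.1
        obtain ⟨T, hT⟩ := hκ _ (Finset.mem_image_of_mem _ hzS.1) _ (Finset.mem_image_of_mem _ hz₀S.1)
          (hzS.2.trans hz₀S.2.symm)
        have hlog : C₁ * A ≤ Real.log |(z.1 : ℝ)| := by
          have h1 := not_le.mp hzf.2
          have h2 : 0 ≤ 16 * C₂ * K * A := by positivity
          linarith
        obtain ⟨h1, h2, α, h3, h4⟩ := happ a b hD z z₀ T (hS z hzS.1).1 hz₀I hz₀L hlog hT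
        exact ⟨T, α, fun _ => ⟨hT, h1, h2, h3, h4⟩⟩
      · exact ⟨0, 0, fun h => absurd h hz⟩
    choose T α hTα using hex
    -- the roots
    let Rt : Finset ℂ := ((F16 a b z₀.1).aroots ℂ).toFinset
    have hRt : Rt.card ≤ 16 := by
      refine (Multiset.toFinset_card_le _).trans ?_
      refine (Polynomial.card_roots' _).trans ?_
      refine (Polynomial.natDegree_map_le).trans ?_
      rw [F16_natDegree]
    have hmemRt : ∀ z ∈ far, α z ∈ Rt := by
      intro z hz
      rw [Multiset.mem_toFinset, Polynomial.mem_aroots]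
      exact ⟨(F16_monic a b z₀.1).ne_zero, (hTα z hz).2.2.2.1⟩
    have hfib : ∀ ρ ∈ Rt, (far.filter fun z => α z = ρ).card ≤ (n₂ + 1) * 24 ^ r := by
      intro ρ _
      set F := far.filter fun z => α z = ρ with hFdef
      rcases F.eq_empty_or_nonempty with h0 | hne'
      · rw [h0]; simp
      obtain ⟨z₁, hz₁, hmin₁⟩ := Finset.exists_min_image F (fun z => Real.log |(z.1 : ℝ)|) hne'
      have hz₁F := Finset.mem_filter.mp hz₁
      have hz₁f := Finset.mem_filter.mp hz₁F.1
      have hz₁S := Finset.mem_filter.mp hz₁f.1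
      obtain ⟨hT1, hZ1, hn1, hr1, hap1⟩ := hTα z₁ hz₁F.1
      set R : ℝ := Real.log |(z₁.1 : ℝ)| with hR
      have hAR : A ≤ R := hmin z₁ hz₁f.1
      refine shells hD r hr (R := R) (by linarith) n₂ _ fun z hz => ?_
      have hzF := Finset.mem_filter.mp hz
      have hzf := Finset.mem_filter.mp hzF.1
      have hzS := Finset.mem_filter.mp hzf.1
      have hzI := (hS z hzS.1).1
      obtain ⟨hT2, hZ2, hn2, hr2, hap2⟩ := hTα z hzF.1
      refine ⟨hzI, hmin₁ z hz, ?_⟩
      have hRz : R ≤ Real.log |(z.1 : ℝ)| := hmin₁ z hz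
      suffices hsuff : Real.log |(z.1 : ℝ)| ≤ (C₂ + 23) * R by
        refine hsuff.trans ?_
        have hR0 : 0 ≤ R := by linarith
        gcongr
      by_cases hxx : xq (T z₁) = xq (T z)
      · rcases eq_or_neg_of_xq hZ1 hZ2 hxx with he | he
        · -- the same point
          have h1 : toPt hD z₁ = toPt hD z := by
            rw [he, ← hT2] at hT1
            exact sub_left_injective hT1
          have h2 := toPt_injOn hD (hS z₁ hz₁S.1).1 hzI h1
          rw [← h2]
          nlinarith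
        · -- the opposite
          have h1 : toPt hD z = (toPt hD z₀ + toPt hD z₀) - toPt hD z₁ := by
            have h2 : toPt hD z₁ - toPt hD z₀ = -(toPt hD z - toPt hD z₀) := by
              rw [hT1, hT2, he, neg_nsmul]
            have h3 : toPt hD z = toPt hD z₀ + (toPt hD z - toPt hD z₀) := by abel
            rw [h3, ← neg_neg (toPt hD z - toPt hD z₀), ← h2]
            abel
          have h2 := nh_add hD (toPt hD z₀ + toPt hD z₀) (-toPt hD z₁)
          rw [← sub_eq_add_neg, ← h1, nh_neg] at h2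
          have h3 := (abs_le.mp (nh_two hD (toPt hD z₀))).2
          rw [toPt_nh hD hzI (hS z hzS.1).2, toPt_nh hD (hS z₁ hz₁S.1).1 (hS z₁ hz₁S.1).2] at h2
          rw [toPt_nh hD hz₀I hz₀L] at h3
          have h4 : 0 ≤ C₂ * R := by
            have hR0 : 0 ≤ R := by linarith
            positivity
          linarith
      · -- Thue-Siegel
        have hFz := hF a b z₀.1 A hA1
          ((abs_a_le a b).trans (Real.exp_le_exp.mpr (by linarith)))
          ((abs_b_le a b).trans (Real.exp_le_exp.mpr (by linarith)))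
          (by
            rw [hA, Real.exp_log]
            by_contra hc
            push Not at hc
            have : Real.log |(z₀.1 : ℝ)| = 0 := by
              have h0 : |(z₀.1 : ℝ)| = 0 := le_antisymm hc (abs_nonneg _)
              rw [h0, Real.log_zero]
            linarith)
        have hKA : 1 ≤ K * A := by nlinarith
        have hbig : (C₁ + 16 * C₂ * K) * A ≤ R := (not_le.mp hz₁f.2).le
        have hC1A : 0 ≤ C₁ * A := by positivity
        have hCKA : 0 ≤ C₂ * (K * A) := by positivity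
        have h1 := hts (F16 a b z₀.1) (F16_monic a b z₀.1) (F16_natDegree a b z₀.1).le (K * A) hKA
          hFz ρ (xq (T z₁)) (xq (T z)) (2 / 31 * R) (2 / 31 * Real.log |(z.1 : ℝ)|)
          (by rw [← hz₁F.2]; exact hr1) ((log_den_le hZ1).trans hn1) ((log_den_le hZ2).trans hn2)
          (by nlinarith) hxx
          (by rw [← hz₁F.2]; exact hap1) (by rw [← hzF.2]; exact hap2)
        linarith
    have hfarc : far.card ≤ 16 * ((n₂ + 1) * 24 ^ r) := by
      have h1 := Finset.card_le_mul_card_image_of_maps_to (f := α) (s := far) (t := Rt)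
        hmemRt ((n₂ + 1) * 24 ^ r) hfib
      refine h1.trans ?_
      rw [mul_comm]
      exact Nat.mul_le_mul_right _ hRt
    have htot := Finset.card_filter_add_card_filter_not (s := Sc)
      (fun z => Real.log |(z.1 : ℝ)| ≤ (C₁ + 16 * C₂ * K) * A)
    calc Sc.card = _ := htot.symm
      _ ≤ (n₁ + 1) * 24 ^ r + 16 * ((n₂ + 1) * 24 ^ r) := Nat.add_le_add hnear hfarc
      _ = N₀ * 24 ^ r := by rw [hN₀]; ring
  have h1 := Finset.card_le_mul_card_image_of_maps_to (f := fun z => κ (toPt hD z)) (s := S)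
    (t := Finset.univ) (fun _ _ => Finset.mem_univ _) (N₀ * 24 ^ r) fun c _ => hclass c
  rw [Finset.card_univ, Fintype.card_fin] at h1
  have h2 : S.card ≤ (96 * 64 * N₀) ^ (1 + r) := by
    calc S.card ≤ N₀ * 24 ^ r * (4 ^ r * 64) := h1
      _ = 96 ^ r * (64 * N₀) := by
          rw [show (96 : ℕ) = 24 * 4 by norm_num, mul_pow]; ring
      _ ≤ (96 * 64 * N₀) ^ r * (96 * 64 * N₀) := by
          refine Nat.mul_le_mul (Nat.pow_le_pow_left (by omega) r) (by omega)
      _ = (96 * 64 * N₀) ^ (1 + r) := by rw [add_comm, pow_succ]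
  exact_mod_cast h2

end Pool.Agent.H24.LR
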