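import Pool.Agent.H24.LR.LargeMain
import Pool.Agent.H24.LQ.Final
import Pool.Agent.H24.LQ.Opt

/-!
# All integral points
-/

namespace Pool.Agent.H24.LR

open Pool.Agent.H24.LP Pool.Agent.H24.LQ Finset

/-- The bound with a set of primes. -/
theorem main_T : ∃ C : ℝ, 1 ≤ C ∧ ∀ a b : ℤ, QuasiMinimal a b →
    ∀ r : ℕ, Module.rank ℤ (curve a b).Point ≤ r → ∀ T : Finset ℕ,
    (integralPoints a b).Finite ∧ ((integralPoints a b).ncard : ℝ) ≤
      C ^ (1 + r + T.card) * (L a b / GT a b T) ^ (1 + (r : ℝ) / 2) := by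
  classical
  obtain ⟨C₁, hC₁, hsmall⟩ := main_aux 100 (by norm_num)
  obtain ⟨C₂, hC₂, hlarge⟩ := large_count
  refine ⟨C₁ + 54 * C₂, by linarith, fun a b hq r hr T => ?_⟩
  have hD := hq.ne
  have hL := L_pos a b
  have hG := one_le_GT a b T
  have hG0 : 0 < GT a b T := by linarith
  set q : ℝ := (L a b / GT a b T) ^ (1 + (r : ℝ) / 2) with hqdef
  have hq54 : 1 / 54 ≤ L a b / GT a b T := by
    rw [le_div_iff₀ hG0]
    have := GT_le hD T
    linarith
  have hq0 : 0 ≤ q := by positivity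
  have hq1 : (1 / 54 : ℝ) ^ (1 + r + T.card) ≤ q := by
    calc (1 / 54 : ℝ) ^ (1 + r + T.card) = (1 / 54 : ℝ) ^ ((1 + r + T.card : ℕ) : ℝ) :=
          (Real.rpow_natCast _ _).symm
      _ ≤ (1 / 54 : ℝ) ^ (1 + (r : ℝ) / 2) := by
          refine Real.rpow_le_rpow_of_exponent_ge (by norm_num) (by norm_num) ?_
          push_cast
          have h5 : (0 : ℝ) ≤ r := Nat.cast_nonneg r
          have h6 : (0 : ℝ) ≤ T.card := Nat.cast_nonneg _
          linarith
      _ ≤ _ := Real.rpow_le_rpow (by norm_num) hq54 (by positivity)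
  set n : ℕ := 1 + r + T.card with hn
  set Bd : ℝ := (C₁ + 54 * C₂) ^ n * q with hBd
  have hBd0 : 0 ≤ Bd := by positivity
  have key : ∀ s : Finset (ℤ × ℤ), (s : Set (ℤ × ℤ)) ⊆ integralPoints a b → (s.card : ℝ) ≤ Bd := by
    intro s hs
    have h1 := hsmall a b hq r hr T (s.filter fun z => |(z.1 : ℝ)| ≤ Real.exp (100 * L a b))
      (fun z hz => ⟨hs (Finset.mem_filter.mp hz).1, (Finset.mem_filter.mp hz).2⟩)
    have h2 := hlarge a b hD r hr (s.filter fun z => ¬ |(z.1 : ℝ)| ≤ Real.exp (100 * L a b))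
      (fun z hz => by
        have hz' := Finset.mem_filter.mp hz
        refine ⟨hs hz'.1, ?_⟩
        have h3 := not_le.mp hz'.2
        have hpos : 0 < |(z.1 : ℝ)| := (Real.exp_pos _).trans h3
        rw [Real.le_log_iff_exp_le hpos]
        exact h3.le)
    have h3 : C₂ ^ (1 + r) ≤ (54 * C₂) ^ n * q := by
      have h4 : C₂ ^ (1 + r) ≤ C₂ ^ n := pow_le_pow_right₀ hC₂ (by omega)
      have h5 : C₂ ^ n = (54 * C₂) ^ n * (1 / 54 : ℝ) ^ n := by
        rw [← mul_pow]; congr 1; ring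
      rw [h5] at h4
      refine h4.trans ?_
      gcongr
    have h6 : C₁ ^ n + (54 * C₂) ^ n ≤ (C₁ + 54 * C₂) ^ n := by
      have := pow_add_pow_le (x := C₁) (y := 54 * C₂) (n := n) (by linarith) (by linarith)
        (by omega)
      exact this
    have h7 := Finset.card_filter_add_card_filter_not (s := s)
      (fun z => |(z.1 : ℝ)| ≤ Real.exp (100 * L a b))
    have h8 : (s.card : ℝ) = ((s.filter fun z => |(z.1 : ℝ)| ≤ Real.exp (100 * L a b)).card : ℝ)
        + ((s.filter fun z => ¬ |(z.1 : ℝ)| ≤ Real.exp (100 * L a b)).card : ℝ) := by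
      exact_mod_cast h7.symm
    rw [h8]
    calc _ ≤ C₁ ^ n * q + (54 * C₂) ^ n * q := add_le_add h1 (h2.trans h3)
      _ = (C₁ ^ n + (54 * C₂) ^ n) * q := by ring
      _ ≤ (C₁ + 54 * C₂) ^ n * q := mul_le_mul_of_nonneg_right h6 hq0
  have h1 := finite_of_card_le (X := integralPoints a b) (N := ⌊Bd⌋₊) (fun s hs => by
    rw [Nat.le_floor_iff hBd0]
    exact key s hs)
  exact ⟨h1.1, (Nat.le_floor_iff hBd0).mp h1.2⟩

lemma GT_filter {a b : ℤ} {m : ℕ} (hm : 1 ≤ m) :
    GT a b (poles a b) ≤ 2 * (m : ℝ) ^ 2 *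
      GT a b ((poles a b).filter fun p => m < np a b p) := by
  classical
  set T := (poles a b).filter fun p => m < np a b p with hT
  have hG := one_le_GT a b T
  obtain ⟨g1, g2, g3⟩ := GT_terms a b T
  have hw := HeightData.wInf_nonneg (a := a) (b := b)
  have hm1 : (1 : ℝ) ≤ m := by exact_mod_cast hm
  have hsub : T ⊆ poles a b := Finset.filter_subset _ _
  rw [GT_add hsub]
  have h1 : ∑ p ∈ poles a b \ T, (np a b p : ℝ) * Real.log p ≤
      (m : ℝ) ^ 2 * ∑ p ∈ poles a b, Real.log p / np a b p := by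
    rw [Finset.mul_sum]
    refine (Finset.sum_le_sum (g := fun p : ℕ => (m : ℝ) ^ 2 * (Real.log p / np a b p))
      fun p hp => ?_).trans (Finset.sum_le_sum_of_subset_of_nonneg Finset.sdiff_subset
        fun p _ _ => mul_nonneg (by positivity)
          (div_nonneg (HeightData.log_nonneg' p) (Nat.cast_nonneg _)))
    have hp' := Finset.mem_sdiff.mp hp
    have hnm : np a b p ≤ m := by
      by_contra hc
      exact hp'.2 (Finset.mem_filter.mpr ⟨hp'.1, not_le.mp hc⟩)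
    have hn1 : (1 : ℝ) ≤ np a b p := by exact_mod_cast HeightData.np_pos hp'.1
    have hnm' : (np a b p : ℝ) ≤ m := by exact_mod_cast hnm
    have hl := HeightData.log_nonneg' p
    have h2 : (np a b p : ℝ) * np a b p ≤ (m : ℝ) ^ 2 := by nlinarith
    rw [mul_div_assoc', le_div_iff₀ (by linarith)]
    nlinarith [mul_le_mul_of_nonneg_right h2 hl]
  have h2 : ∑ p ∈ poles a b, Real.log (p : ℝ) / np a b p ≤ GT a b T := by
    unfold GT
    linarith
  have hmm : (1 : ℝ) ≤ (m : ℝ) ^ 2 := one_le_pow₀ hm1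
  have h3 := mul_le_mul_of_nonneg_left h2 (by linarith : (0 : ℝ) ≤ (m : ℝ) ^ 2)
  nlinarith

/-- All the bounds. -/
theorem main_Z : ∃ C : ℝ, 1 ≤ C ∧ ∀ a b : ℤ, QuasiMinimal a b →
    ∀ r : ℕ, Module.rank ℤ (curve a b).Point ≤ r →
    (integralPoints a b).Finite ∧
    (∀ T : Finset ℕ, ((integralPoints a b).ncard : ℝ) ≤
      C ^ (1 + r + T.card) * (L a b / GT a b T) ^ (1 + (r : ℝ) / 2)) ∧
    (∀ m : ℕ, 1 ≤ m → ((integralPoints a b).ncard : ℝ) ≤
      C ^ (1 + r + ((poles a b).filter fun p => m < np a b p).card) * (m : ℝ) ^ (2 + r)) ∧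
    (∀ η : ℝ, 0 < η → η ≤ 1 → (η * L a b ≤ wInf a b ∨
      ∃ p : ℕ, η * L a b ≤ np a b p * Real.log p) →
      ((integralPoints a b).ncard : ℝ) ≤ (C / η) ^ (1 + r)) ∧
    ((integralPoints a b).ncard : ℝ) ≤ C ^ (1 + r) *
      (max 1 (L a b / ((1 + r) * Real.log (2 + L a b)))) ^ ((2 + (r : ℝ)) / 3) := by
  classical
  obtain ⟨C₁, hC₁, h₁⟩ := main_T
  obtain ⟨C₂, hC₂⟩ := L_le_GT_poles
  obtain ⟨C₃, hC₃, h₃⟩ := exists_T
  set B : ℝ := max 1 C₂ with hB
  have hB1 : 1 ≤ B := le_max_left _ _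
  set C : ℝ := 2 * (C₁ ^ 2 * (B * C₃)) with hC
  have hC1sq : 1 ≤ C₁ ^ 2 := one_le_pow₀ hC₁
  have hBC1 : 1 ≤ B * C₃ := by nlinarith
  have hCge : C₁ ^ 2 ≤ C := by
    have h0 : C₁ ^ 2 ≤ C₁ ^ 2 * (B * C₃) := le_mul_of_one_le_right (by linarith) hBC1
    rw [hC]
    linarith
  have hC₁C : C₁ ≤ C := by nlinarith
  refine ⟨C, by linarith, fun a b hq r hr => ?_⟩
  have hL := L_pos a b
  have hr0 : (0 : ℝ) ≤ r := Nat.cast_nonneg r
  -- a bound for powers
  have hpow : ∀ (x : ℝ), 1 ≤ x → x ^ (1 + (r : ℝ) / 2) ≤ x ^ (1 + r) := by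
    intro x hx
    rw [← Real.rpow_natCast x (1 + r)]
    refine Real.rpow_le_rpow_of_exponent_le hx ?_
    push_cast
    linarith
  have hfin := (h₁ a b hq r hr ∅).1
  refine ⟨hfin, fun T => ?_, ?_, ?_, ?_⟩
  · refine (h₁ a b hq r hr T).2.trans ?_
    have hG := one_le_GT a b T
    gcongr
  · -- the primes with `n_p > m`
    intro m hm
    set T := (poles a b).filter fun p => m < np a b p with hT
    refine (h₁ a b hq r hr T).2.trans ?_
    have hm1 : (1 : ℝ) ≤ m := by exact_mod_cast hm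
    have hG := one_le_GT a b T
    have hG0 : 0 < GT a b T := by linarith
    have h2 : L a b / GT a b T ≤ 2 * B * (m : ℝ) ^ 2 := by
      rw [div_le_iff₀ hG0]
      have h3 := hC₂ a b hq (poles a b) (Finset.Subset.refl _)
      have h4 := one_le_GT a b (poles a b)
      have h5 : C₂ * GT a b (poles a b) ≤ B * GT a b (poles a b) :=
        mul_le_mul_of_nonneg_right (le_max_right _ _) (by linarith)
      have h6 := mul_le_mul_of_nonneg_left (GT_filter (a := a) (b := b) hm)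
        (by linarith : (0 : ℝ) ≤ B)
      calc L a b ≤ B * GT a b (poles a b) := h3.trans h5
        _ ≤ B * (2 * (m : ℝ) ^ 2 * GT a b T) := h6
        _ = _ := by ring
    have hm2 : ((m : ℝ) ^ 2) ^ (1 + (r : ℝ) / 2) = (m : ℝ) ^ (2 + r) := by
      rw [← Real.rpow_natCast (m : ℝ) 2, ← Real.rpow_mul (by linarith),
        ← Real.rpow_natCast (m : ℝ) (2 + r)]
      congr 1
      push_cast
      ring
    have h3 : (L a b / GT a b T) ^ (1 + (r : ℝ) / 2) ≤ (2 * B) ^ (1 + r) * (m : ℝ) ^ (2 + r) := by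
      calc (L a b / GT a b T) ^ (1 + (r : ℝ) / 2)
          ≤ (2 * B * (m : ℝ) ^ 2) ^ (1 + (r : ℝ) / 2) :=
            Real.rpow_le_rpow (by positivity) h2 (by positivity)
        _ = (2 * B) ^ (1 + (r : ℝ) / 2) * (m : ℝ) ^ (2 + r) := by
            rw [Real.mul_rpow (by linarith) (by positivity), hm2]
        _ ≤ _ := by
            gcongr
            exact hpow _ (by linarith)
    calc C₁ ^ (1 + r + T.card) * (L a b / GT a b T) ^ (1 + (r : ℝ) / 2)
        ≤ C₁ ^ (1 + r + T.card) * ((2 * B) ^ (1 + r) * (m : ℝ) ^ (2 + r)) := by gcongr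
      _ ≤ C₁ ^ (1 + r + T.card) * ((2 * B) ^ (1 + r + T.card) * (m : ℝ) ^ (2 + r)) := by
          have h6 : (2 * B) ^ (1 + r) ≤ (2 * B) ^ (1 + r + T.card) :=
            pow_le_pow_right₀ (by linarith) (by omega)
          gcongr
      _ = (C₁ * (2 * B)) ^ (1 + r + T.card) * (m : ℝ) ^ (2 + r) := by
          rw [mul_pow]; ring
      _ ≤ C ^ (1 + r + T.card) * (m : ℝ) ^ (2 + r) := by
          have h4 : C₁ ≤ C₁ ^ 2 := by nlinarith
          have h5 : B ≤ B * C₃ := by nlinarith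
          have h7 : C₁ * (2 * B) ≤ C := by
            rw [hC]
            calc C₁ * (2 * B) = 2 * (C₁ * B) := by ring
              _ ≤ 2 * (C₁ ^ 2 * (B * C₃)) := by gcongr
          gcongr
  · -- one large term
    intro η hη hη1 hcase
    have hx1 : 1 ≤ 1 / η := by rw [le_div_iff₀ hη]; linarith
    obtain ⟨T, hTc, hTG⟩ : ∃ T : Finset ℕ, T.card ≤ 1 ∧ η * L a b ≤ GT a b T := by
      have hw := HeightData.wInf_nonneg (a := a) (b := b)
      rcases hcase with h | ⟨p, hp⟩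
      · refine ⟨∅, by simp, ?_⟩
        obtain ⟨g1, g2, g3⟩ := GT_terms a b ∅
        unfold GT
        linarith
      · refine ⟨{p}, by simp, ?_⟩
        obtain ⟨g1, g2, g3⟩ := GT_terms a b {p}
        have e : ∑ x ∈ ({p} : Finset ℕ), (np a b x : ℝ) * Real.log x = np a b p * Real.log p :=
          Finset.sum_singleton _ _
        unfold GT
        linarith
    have hG := one_le_GT a b T
    have hG0 : 0 < GT a b T := by linarith
    have h2 : L a b / GT a b T ≤ 1 / η := by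
      rw [div_le_div_iff₀ hG0 hη]
      linarith
    have h3 : (L a b / GT a b T) ^ (1 + (r : ℝ) / 2) ≤ (1 / η) ^ (1 + r) :=
      (Real.rpow_le_rpow (by positivity) h2 (by positivity)).trans (hpow _ hx1)
    refine (h₁ a b hq r hr T).2.trans ?_
    calc C₁ ^ (1 + r + T.card) * (L a b / GT a b T) ^ (1 + (r : ℝ) / 2)
        ≤ C₁ ^ (2 * (1 + r)) * (1 / η) ^ (1 + r) := by
          have h6 : C₁ ^ (1 + r + T.card) ≤ C₁ ^ (2 * (1 + r)) :=
            pow_le_pow_right₀ hC₁ (by omega)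
          gcongr
      _ = (C₁ ^ 2 * (1 / η)) ^ (1 + r) := by rw [pow_mul, mul_pow]
      _ ≤ (C / η) ^ (1 + r) := by
          refine pow_le_pow_left₀ (by positivity) ?_ _
          rw [mul_one_div]
          gcongr
  · -- all curves
    obtain ⟨T, hTc, hTL⟩ := h₃ a b hq (1 + r) (by omega)
    refine (h₁ a b hq r hr T).2.trans ?_
    have hG := one_le_GT a b T
    have hG0 : 0 < GT a b T := by linarith
    push_cast at hTL
    set y : ℝ := max 1 (L a b / ((1 + r) * Real.log (2 + L a b))) with hy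
    have hy1 : 1 ≤ y := le_max_left _ _
    have h3 : (L a b / GT a b T) ^ (1 + (r : ℝ) / 2) ≤
        C₃ ^ (1 + r) * y ^ ((2 + (r : ℝ)) / 3) := by
      calc (L a b / GT a b T) ^ (1 + (r : ℝ) / 2)
          ≤ (C₃ * y ^ ((2 : ℝ) / 3)) ^ (1 + (r : ℝ) / 2) :=
            Real.rpow_le_rpow (by positivity) hTL (by positivity)
        _ = C₃ ^ (1 + (r : ℝ) / 2) * (y ^ ((2 : ℝ) / 3)) ^ (1 + (r : ℝ) / 2) :=
            Real.mul_rpow (by linarith) (by positivity)
        _ = C₃ ^ (1 + (r : ℝ) / 2) * y ^ ((2 + (r : ℝ)) / 3) := by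
            rw [← Real.rpow_mul (by linarith)]
            congr 2
            ring
        _ ≤ _ := by
            gcongr
            exact hpow C₃ hC₃
    calc C₁ ^ (1 + r + T.card) * (L a b / GT a b T) ^ (1 + (r : ℝ) / 2)
        ≤ C₁ ^ (2 * (1 + r)) * (C₃ ^ (1 + r) * y ^ ((2 + (r : ℝ)) / 3)) := by
          have h6 : C₁ ^ (1 + r + T.card) ≤ C₁ ^ (2 * (1 + r)) :=
            pow_le_pow_right₀ hC₁ (by omega)
          gcongr
      _ = (C₁ ^ 2 * C₃) ^ (1 + r) * y ^ ((2 + (r : ℝ)) / 3) := by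
          rw [pow_mul, mul_pow]; ring
      _ ≤ C ^ (1 + r) * y ^ ((2 + (r : ℝ)) / 3) := by
          have h5 : C₃ ≤ B * C₃ := by nlinarith
          have h7 : C₁ ^ 2 * C₃ ≤ C := by
            rw [hC]
            have h8 : C₁ ^ 2 * C₃ ≤ C₁ ^ 2 * (B * C₃) := by gcongr
            have h9 : 0 ≤ C₁ ^ 2 * (B * C₃) := by positivity
            linarith
          gcongr

end Pool.Agent.H24.LR
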