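import Mathlib

/-!
# LR Quad

Quadratic functions on an abelian group: `g ≥ 0` with the parallelogram law. `g 0 = 0`, `g(-P) = g P`, `g(nP) = n² g P`
(induction, `g((n+1)P) + g((n-1)P) = 2g(nP) + 2g(P)`), `g τ = 0` for torsion `τ` and `g(P+τ) = g(P)`.
`g_sub_le_eps`: by induction on `n`, `g(P + nQ) = g P + n (g(P+Q) - g P - g Q) + n² g Q`; apply it to `-nQ`:
`(1+1/n) g P + (1+n) g Q - g(P-Q) = g(P + nQ)/n ≥ 0`
(`g(P-Q) = 2g P + 2g Q - g(P+Q)`).
-/

namespace Pool.Agent.H24.LR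

open Finset

/-- A nonnegative function with the parallelogram law. -/
structure IsQuad {A : Type*} [AddCommGroup A] (g : A → ℝ) : Prop where
  nonneg : ∀ P, 0 ≤ g P
  par : ∀ P Q, g (P + Q) + g (P - Q) = 2 * g P + 2 * g Q

variable {A : Type*} [AddCommGroup A] {g : A → ℝ}

lemma IsQuad.zero (h : IsQuad g) : g 0 = 0 := by
  have h1 := h.par 0 0
  rw [add_zero, sub_zero] at h1
  linarith

lemma IsQuad.neg (h : IsQuad g) (P : A) : g (-P) = g P := by
  have h1 := h.par 0 P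
  rw [zero_add, zero_sub, h.zero] at h1
  linarith

lemma IsQuad.sub_le (h : IsQuad g) (P Q : A) : g (P - Q) ≤ 2 * g P + 2 * g Q := by
  have h1 := h.par P Q
  have h2 := h.nonneg (P + Q)
  linarith

lemma IsQuad.add_le (h : IsQuad g) (P Q : A) : g (P + Q) ≤ 2 * g P + 2 * g Q := by
  have h1 := h.par P Q
  have h2 := h.nonneg (P - Q)
  linarith

private lemma IsQuad.line (h : IsQuad g) (P Q : A) (n : ℕ) :
    g (P + n • Q) = g P + (n : ℝ) * (g (P + Q) - g P - g Q) + (n : ℝ) ^ 2 * g Q ∧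
      g (P + (n + 1) • Q) = g P + ((n : ℝ) + 1) * (g (P + Q) - g P - g Q) + ((n : ℝ) + 1) ^ 2 * g Q := by
  induction n with
  | zero =>
    refine ⟨?_, ?_⟩
    · rw [zero_smul, add_zero]
      push_cast
      ring
    · rw [zero_add, one_smul]
      push_cast
      ring
  | succ n ih =>
    obtain ⟨h1, h2⟩ := ih
    refine ⟨?_, ?_⟩
    · rw [h2]
      push_cast
      ring
    · have h3 := h.par (P + (n + 1) • Q) Q
      have e1 : P + (n + 1) • Q + Q = P + (n + 1 + 1) • Q := by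
        rw [add_assoc, succ_nsmul Q (n + 1)]
      have e2 : P + (n + 1) • Q - Q = P + n • Q := by
        rw [succ_nsmul Q n, ← add_assoc, add_sub_cancel_right]
      rw [e1, e2, h1, h2] at h3
      push_cast
      linarith

lemma IsQuad.nsmul (h : IsQuad g) (n : ℕ) (P : A) : g (n • P) = (n : ℝ) ^ 2 * g P := by
  have h1 := (h.line 0 P n).1
  rw [zero_add, zero_add, h.zero] at h1
  rw [h1]
  ring

lemma IsQuad.torsion (h : IsQuad g) {τ : A} {k : ℕ} (hk : k ≠ 0) (hτ : k • τ = 0) : g τ = 0 := by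
  have h1 := h.nsmul k τ
  rw [hτ, h.zero] at h1
  have hk' : (k : ℝ) ^ 2 ≠ 0 := pow_ne_zero 2 (Nat.cast_ne_zero.2 hk)
  rcases mul_eq_zero.1 h1.symm with h2 | h2
  · exact absurd h2 hk'
  · exact h2

lemma IsQuad.add_torsion (h : IsQuad g) (P : A) {τ : A} {k : ℕ} (hk : k ≠ 0) (hτ : k • τ = 0) :
    g (P + τ) = g P := by
  have h1 := (h.line P τ k).1
  rw [hτ, add_zero, h.torsion hk hτ] at h1
  have hk' : (k : ℝ) ≠ 0 := Nat.cast_ne_zero.2 hk
  have h2 : (k : ℝ) * (g (P + τ) - g P) = 0 := by linarith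
  rcases mul_eq_zero.1 h2 with h3 | h3
  · exact absurd h3 hk'
  · linarith

/-- the sharp upper bound -/
theorem IsQuad.sub_le_eps (h : IsQuad g) (P Q : A) {n : ℕ} (hn : 0 < n) :
    g (P - Q) ≤ (1 + 1 / (n : ℝ)) * g P + (1 + n) * g Q := by
  have hn' : (0 : ℝ) < (n : ℝ) := Nat.cast_pos.2 hn
  have h1 := (h.line P Q n).1
  have h2 := h.nonneg (P + n • Q)
  have h3 := h.par P Q
  have h4 : g (P + Q) = 2 * g P + 2 * g Q - g (P - Q) := by linarith
  rw [h1, h4] at h2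
  have h5 : (n : ℝ) * g (P - Q) ≤ (1 + (n : ℝ)) * g P + ((n : ℝ) + (n : ℝ) ^ 2) * g Q := by
    linarith
  have h6 : (n : ℝ) * ((1 + 1 / (n : ℝ)) * g P + (1 + (n : ℝ)) * g Q) =
      (1 + (n : ℝ)) * g P + ((n : ℝ) + (n : ℝ) ^ 2) * g Q := by
    field_simp
    ring
  rw [← h6] at h5
  exact le_of_mul_le_mul_left h5 hn'

end Pool.Agent.H24.LR
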